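import Pool.Agent.PPS.St2
import Pool.Agent.PPL.ALLC
import Pool.Agent.UM.Modes

/-!
# Project PPS, module AUX: PP mode is a part of PSPACE mode; with `N + 1` coins PP mode gives every
function
-/

set_option autoImplicit false

open Finset
open scoped Classical

namespace Pool.Agent.PPS

namespace AUXx

open Pool.Agent.HPM (GMachs)

/-- a machine which reads one bit at a time, as a machine with a stack -/
def toSS {N : ℕ} (M : GMachs 1 0 (Fin N) Bool) : SS (Fin N) Bool Unit where
  start := M.start
  rd t v := {M.query t v 0}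
  op t v x := Op.stay (M.next t v (fun i => x (M.query t v i)) (fun _ => false))
  loc t v x y h := by
    have h1 : (fun i => x (M.query t v i)) = fun i => y (M.query t v i) := by
      funext i
      have hi : i = 0 := Subsingleton.elim i 0
      subst hi
      exact h _ (Finset.mem_singleton_self _)
    show Op.stay _ = Op.stay _
    rw [h1]

theorem conf_eq {N : ℕ} (M : GMachs 1 0 (Fin N) Bool) (x : Fin N → Bool) (t : ℕ) :
    (toSS M).conf x t = (M.state x (fun _ _ => false) t, []) := by
  induction t with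
  | zero => rfl
  | succ t ih =>
    show ((toSS M).op t ((toSS M).conf x t).1 x).app ((toSS M).conf x t).2 = _
    rw [ih]
    rfl

theorem mcs_of_det {N : ℕ} {b : ℝ} (hb : 1 ≤ b) (hN : 2 * ((N : ℝ) + 1) ≤ (2 : ℝ) ^ b)
    (P : (Fin N → Bool) → Prop) (h : PPL.Det 1 (Fin N) Bool N P) : Mcs (Fin N) N b P := by
  obtain ⟨M, hM⟩ := h
  refine ⟨N, Bool, Unit, inferInstance, toSS M, M.acc, ?_, fun t v => ?_, fun x => ?_, fun x => ?_⟩
  · rw [Fintype.card_bool]
    push_cast
    linarith
  · have h1 : ((toSS M).rd t v).card = 1 := Finset.card_singleton _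
    rw [h1]
    simpa using hb
  · have h1 : ∀ t, ((toSS M).rd t ((toSS M).conf x t).1).card = 1 := fun t =>
      Finset.card_singleton _
    rw [Finset.sum_congr rfl fun t _ => h1 t, Finset.sum_const, Finset.card_range, smul_eq_mul,
      mul_one]
  · rw [conf_eq]
    exact hM x

end AUXx

theorem t_AUX : S_AUX := by
  refine ⟨fun I τ b W L h => ?_, fun N b L hN hb h2 => ?_⟩
  · refine UM.MODES.pp (fun P c hP => ?_) h
    obtain ⟨T, V, G, hV, R, acc, h1, h2, h3, h4⟩ := hP
    exact ⟨T, V, G, hV, R, fun _ => c, h1, h2, h3, fun x => Iff.rfl⟩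
  · obtain ⟨P, hP, hL⟩ := PPL.t_ALLC N L hN
    exact ⟨P, fun w => AUXx.mcs_of_det hb h2 (P w) (hP w), hL⟩

end Pool.Agent.PPS
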