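import Pool.Agent.PPS.St1

/-!
# Project PPS, module CAN: facts about the canonical process
-/

set_option autoImplicit false

open Finset
open scoped Classical

namespace Pool.Agent.PPS

namespace CANx

variable {n : ℕ} {V G : Type} (R : SS (Fin n) V G) (w0 : ℕ) (x : Fin n → Bool)

theorem raw_some {t : ℕ} {S S' : Lv V G} (h : raw R x t S = some S') :
    (∃ v, R.op t S.v x = Op.stay v ∧ S' = ⟨v, S.fr, S.st, S.a + (R.rd t S.v).card⟩) ∨
    (∃ v g, R.op t S.v x = Op.push v g ∧
      S' = ⟨v, (g, S.st, S.a + (R.rd t S.v).card) :: S.fr, t + 1, 0⟩) ∨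
    (∃ f g st a fr, R.op t S.v x = Op.pop f ∧ S.fr = (g, st, a) :: fr ∧
      S' = ⟨f (some g), fr, st, a + (S.a + (R.rd t S.v).card)⟩) := by
  unfold raw at h
  split at h
  · rename_i v hv
    exact Or.inl ⟨v, hv, (Option.some.inj h).symm⟩
  · rename_i v g hv
    exact Or.inr (Or.inl ⟨v, g, hv, (Option.some.inj h).symm⟩)
  · rename_i f hf
    split at h
    · cases h
    · rename_i g st a fr hfr
      exact Or.inr (Or.inr ⟨f, g, st, a, fr, hf, hfr, (Option.some.inj h).symm⟩)

theorem raw_none {t : ℕ} {S : Lv V G} (h : raw R x t S = none) :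
    ∃ f, R.op t S.v x = Op.pop f ∧ S.fr = [] := by
  unfold raw at h
  split at h
  · cases h
  · cases h
  · rename_i f hf
    split at h
    · rename_i hfr
      exact ⟨f, hf, hfr⟩
    · cases h

theorem step (t : ℕ) : (raw R x t (can R w0 x t) = none ∧ can R w0 x (t + 1) = can R w0 x t ∧
      rc R w0 x t = none) ∨
    ∃ S', raw R x t (can R w0 x t) = some S' ∧
      ((w0 ≤ S'.a ∧ can R w0 x (t + 1) = ⟨S'.v, S'.fr, t + 1, 0⟩ ∧ rc R w0 x t = some S'.st) ∨
        (S'.a < w0 ∧ can R w0 x (t + 1) = S' ∧ rc R w0 x t = none)) := by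
  have h1 : can R w0 x (t + 1) = cst R w0 x t (can R w0 x t) := rfl
  rcases h : raw R x t (can R w0 x t) with _ | S'
  · left
    refine ⟨rfl, ?_, ?_⟩
    · rw [h1]
      unfold cst
      rw [h]
    · unfold rc
      rw [h]
  · right
    refine ⟨S', rfl, ?_⟩
    by_cases ha : w0 ≤ S'.a
    · left
      refine ⟨ha, ?_, ?_⟩
      · rw [h1]
        unfold cst
        rw [h]
        exact if_pos ha
      · unfold rc
        rw [h]
        exact if_pos ha
    · right
      refine ⟨not_le.1 ha, ?_, ?_⟩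
      · rw [h1]
        unfold cst
        rw [h]
        exact if_neg ha
      · unfold rc
        rw [h]
        exact if_neg ha

/-- the possible shapes of the next configuration -/
inductive Sh (t : ℕ) (C C' : Lv V G) (r : Option ℕ) : Prop where
  | same : C' = C → r = none → Sh t C C' r
  | stay (v : V) (a : ℕ) : a < w0 → C' = ⟨v, C.fr, C.st, a⟩ → r = none → Sh t C C' r
  | stayr (v : V) : C' = ⟨v, C.fr, t + 1, 0⟩ → r = some C.st → Sh t C C' r
  | push (v : V) (g : G) (m : ℕ) : m = (R.rd t C.v).card →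
      C' = ⟨v, (g, C.st, C.a + m) :: C.fr, t + 1, 0⟩ → r = none → Sh t C C' r
  | pop (v : V) (g : G) (st a : ℕ) (fr : List (G × ℕ × ℕ)) (b : ℕ) : C.fr = (g, st, a) :: fr →
      b < w0 → C' = ⟨v, fr, st, b⟩ → r = none → Sh t C C' r
  | popr (v : V) (g : G) (st a : ℕ) (fr : List (G × ℕ × ℕ)) : C.fr = (g, st, a) :: fr →
      C' = ⟨v, fr, t + 1, 0⟩ → r = some st → Sh t C C' r

theorem shape (hw : 1 ≤ w0) (t : ℕ) :
    Sh R w0 t (can R w0 x t) (can R w0 x (t + 1)) (rc R w0 x t) := by
  rcases step R w0 x t with ⟨-, h1, h2⟩ | ⟨S', h, h1⟩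
  · exact Sh.same h1 h2
  · rcases raw_some R x h with ⟨v, -, rfl⟩ | ⟨v, g, -, rfl⟩ | ⟨f, g, st, a, fr, -, hfr, rfl⟩
    · rcases h1 with ⟨-, h2, h3⟩ | ⟨ha, h2, h3⟩
      · exact Sh.stayr v h2 h3
      · exact Sh.stay v _ ha h2 h3
    · rcases h1 with ⟨ha, -, -⟩ | ⟨-, h2, h3⟩
      · have : w0 ≤ 0 := ha
        omega
      · exact Sh.push v g _ rfl h2 h3
    · rcases h1 with ⟨-, h2, h3⟩ | ⟨ha, h2, h3⟩
      · exact Sh.popr _ g st a fr hfr h2 h3
      · exact Sh.pop _ g st a fr _ hfr ha h2 h3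

theorem pend_def (S : Lv V G) : pend S = S.st :: S.fr.map fun p => p.2.1 := rfl

/-- (3) -/
theorem p3 (hw : 1 ≤ w0) (t : ℕ) :
    (can R w0 x t).st ≤ t ∧ (pend (can R w0 x t)).Pairwise (· > ·) := by
  induction t with
  | zero => exact ⟨le_rfl, List.pairwise_singleton _ _⟩
  | succ t ih =>
    obtain ⟨h1, h2⟩ := ih
    rw [pend_def, List.pairwise_cons] at h2
    obtain ⟨h2, h3⟩ := h2
    rcases shape R w0 x hw t with ⟨e, -⟩ | ⟨v, a, -, e, -⟩ | ⟨v, e, -⟩ | ⟨v, g, m, -, e, -⟩ |
      ⟨v, g, st, a, fr, b, hfr, -, e, -⟩ | ⟨v, g, st, a, fr, hfr, e, -⟩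
    · rw [e, pend_def, List.pairwise_cons]
      exact ⟨by omega, h2, h3⟩
    · rw [e, pend_def, List.pairwise_cons]
      exact ⟨by show (can R w0 x t).st ≤ t + 1; omega, h2, h3⟩
    · rw [e, pend_def, List.pairwise_cons]
      refine ⟨le_rfl, fun y hy => ?_, h3⟩
      have := h2 y hy
      show t + 1 > y
      omega
    · rw [e, pend_def, List.pairwise_cons]
      refine ⟨le_rfl, fun y hy => ?_, ?_⟩
      · show t + 1 > y
        rw [List.map_cons, List.mem_cons] at hy
        rcases hy with rfl | hy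
        · show t + 1 > (can R w0 x t).st
          omega
        · have := h2 y hy
          omega
      · rw [List.map_cons, List.pairwise_cons]
        exact ⟨h2, h3⟩
    · rw [hfr, List.map_cons] at h2 h3
      rw [List.pairwise_cons] at h3
      rw [e, pend_def, List.pairwise_cons]
      have := h2 st (List.mem_cons_self ..)
      exact ⟨by show st ≤ t + 1; omega, h3.1, h3.2⟩
    · rw [hfr, List.map_cons] at h2 h3
      rw [List.pairwise_cons] at h3
      rw [e, pend_def, List.pairwise_cons]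
      refine ⟨le_rfl, fun y hy => ?_, h3.2⟩
      have := h2 y (List.mem_cons_of_mem _ hy)
      show t + 1 > y
      omega

/-- starts below the present one -/
theorem fr_lt (hw : 1 ≤ w0) (t u : ℕ) (h : u ∈ (can R w0 x t).fr.map fun p => p.2.1) :
    u < (can R w0 x t).st := by
  have h2 := (p3 R w0 x hw t).2
  rw [pend_def, List.pairwise_cons] at h2
  exact h2.1 u h

/-- (4) -/
theorem p4 (hw : 1 ≤ w0) (s : ℕ) (hs : ∀ t v, (R.rd t v).card ≤ s) (t : ℕ) :
    (can R w0 x t).a < w0 ∧ ∀ p ∈ (can R w0 x t).fr, p.2.2 < w0 + s := by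
  induction t with
  | zero => exact ⟨hw, fun p hp => absurd hp List.not_mem_nil⟩
  | succ t ih =>
    obtain ⟨h1, h2⟩ := ih
    rcases shape R w0 x hw t with ⟨e, -⟩ | ⟨v, a, ha, e, -⟩ | ⟨v, e, -⟩ | ⟨v, g, m, hm, e, -⟩ |
      ⟨v, g, st, a, fr, b, hfr, hb, e, -⟩ | ⟨v, g, st, a, fr, hfr, e, -⟩
    · rw [e]
      exact ⟨h1, h2⟩
    · rw [e]
      exact ⟨ha, h2⟩
    · rw [e]
      exact ⟨hw, h2⟩
    · rw [e]
      refine ⟨hw, fun p hp => ?_⟩
      rcases List.mem_cons.1 hp with rfl | hp
      · have := hs t (can R w0 x t).v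
        show (can R w0 x t).a + m < w0 + s
        omega
      · exact h2 p hp
    · rw [e]
      exact ⟨hb, fun p hp => h2 p (by rw [hfr]; exact List.mem_cons_of_mem _ hp)⟩
    · rw [e]
      exact ⟨hw, fun p hp => h2 p (by rw [hfr]; exact List.mem_cons_of_mem _ hp)⟩

theorem p5a (hw : 1 ≤ w0) (u t : ℕ) (hu : u ≤ t) (h : u ∈ pend (can R w0 x (t + 1))) :
    u ∈ pend (can R w0 x t) := by
  rw [pend_def, List.mem_cons] at h ⊢
  rcases shape R w0 x hw t with ⟨e, -⟩ | ⟨v, a, ha, e, -⟩ | ⟨v, e, -⟩ | ⟨v, g, m, hm, e, -⟩ |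
      ⟨v, g, st, a, fr, b, hfr, hb, e, -⟩ | ⟨v, g, st, a, fr, hfr, e, -⟩
  · rw [e] at h
    exact h
  · rw [e] at h
    exact h
  · rw [e] at h
    rcases h with h | h
    · have h' : u = t + 1 := h
      omega
    · exact Or.inr h
  · rw [e] at h
    rcases h with h | h
    · have h' : u = t + 1 := h
      omega
    · rw [List.map_cons, List.mem_cons] at h
      exact h
  · rw [e] at h
    right
    rw [hfr, List.map_cons, List.mem_cons]
    exact h
  · rw [e] at h
    right
    rw [hfr, List.map_cons, List.mem_cons]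
    rcases h with h | h
    · have h' : u = t + 1 := h
      omega
    · exact Or.inr h

/-- (5) -/
theorem p5 (hw : 1 ≤ w0) (u t t' : ℕ) (hu : u ≤ t) (ht : t ≤ t')
    (h : u ∈ pend (can R w0 x t')) : u ∈ pend (can R w0 x t) := by
  induction t', ht using Nat.le_induction with
  | base => exact h
  | succ t' ht' ih => exact ih (p5a R w0 x hw u t' (hu.trans ht') h)

theorem a_zero (hw : 1 ≤ w0) (t : ℕ) (h : (can R w0 x t).st = t) : (can R w0 x t).a = 0 := by
  cases t with
  | zero => rfl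
  | succ t =>
    have h3 := (p3 R w0 x hw t).1
    rcases shape R w0 x hw t with ⟨e, -⟩ | ⟨v, a, ha, e, -⟩ | ⟨v, e, -⟩ | ⟨v, g, m, hm, e, -⟩ |
      ⟨v, g, st, a, fr, b, hfr, hb, e, -⟩ | ⟨v, g, st, a, fr, hfr, e, -⟩
    · rw [e] at h
      omega
    · rw [e] at h
      have h' : (can R w0 x t).st = t + 1 := h
      omega
    · rw [e]
    · rw [e]
    · rw [e] at h
      have h' : st = t + 1 := h
      have := fr_lt R w0 x hw t st (by rw [hfr]; exact List.mem_cons_self ..)
      omega
    · rw [e]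

/-- (6) -/
theorem p6 (hw : 1 ≤ w0) (u t : ℕ) (hu : u ≤ t) (h : u ∈ pend (can R w0 x t)) :
    (can R w0 x u).st = u ∧ (can R w0 x u).a = 0 ∧
    (((can R w0 x t).st = u ∧ (can R w0 x t).fr = (can R w0 x u).fr) ∨
      ∃ F g a, (can R w0 x t).fr = F ++ (g, u, a) :: (can R w0 x u).fr) := by
  induction t, hu using Nat.le_induction with
  | base =>
    have h1 : (can R w0 x u).st = u := by
      rw [pend_def, List.mem_cons] at h
      rcases h with h | h
      · exact h.symm
      · have := fr_lt R w0 x hw u u h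
        have := (p3 R w0 x hw u).1
        omega
    exact ⟨h1, a_zero R w0 x hw u h1, Or.inl ⟨h1, rfl⟩⟩
  | succ t ht ih =>
    obtain ⟨h1, h2, h3⟩ := ih (p5a R w0 x hw u t ht h)
    refine ⟨h1, h2, ?_⟩
    have hno : u ∉ (can R w0 x u).fr.map fun p => p.2.1 := by
      intro h4
      have := fr_lt R w0 x hw u u h4
      omega
    rw [pend_def, List.mem_cons] at h
    rcases shape R w0 x hw t with ⟨e, -⟩ | ⟨v, a, ha, e, -⟩ | ⟨v, e, -⟩ | ⟨v, g, m, hm, e, -⟩ |
      ⟨v, g, st, a, fr, b, hfr, hb, e, -⟩ | ⟨v, g, st, a, fr, hfr, e, -⟩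
    · rw [e]
      exact h3
    · rw [e]
      exact h3
    · rw [e] at h ⊢
      rcases h3 with ⟨-, h4⟩ | h4
      · exfalso
        rcases h with h | h
        · have h' : u = t + 1 := h
          omega
        · exact hno (by rw [← h4]; exact h)
      · exact Or.inr h4
    · rw [e]
      right
      rcases h3 with ⟨h3, h4⟩ | ⟨F, g', a', h4⟩
      · exact ⟨[], g, (can R w0 x t).a + m, by
          show (g, (can R w0 x t).st, (can R w0 x t).a + m) :: (can R w0 x t).fr = _
          rw [h3, h4, List.nil_append]⟩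
      · exact ⟨(g, (can R w0 x t).st, (can R w0 x t).a + m) :: F, g', a', by
          show (g, (can R w0 x t).st, (can R w0 x t).a + m) :: (can R w0 x t).fr = _
          rw [h4, List.cons_append]⟩
    · rw [e] at h ⊢
      rcases h3 with ⟨h3, h4⟩ | ⟨F, g', a', h4⟩
      · exfalso
        apply hno
        rw [← h4, hfr, List.map_cons, List.mem_cons]
        exact h
      · rw [hfr] at h4
        cases F with
        | nil =>
          rw [List.nil_append] at h4
          injection h4 with h5 h6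
          injection h5 with h7 h8
          injection h8 with h9 h10
          exact Or.inl ⟨h9, h6⟩
        | cons p F =>
          rw [List.cons_append] at h4
          injection h4 with h5 h6
          exact Or.inr ⟨F, g', a', h6⟩
    · rw [e] at h ⊢
      have hne : u ≠ t + 1 := by omega
      have h' : u ∈ fr.map fun p => p.2.1 := by
        rcases h with h | h
        · exact absurd h hne
        · exact h
      rcases h3 with ⟨h3, h4⟩ | ⟨F, g', a', h4⟩
      · exfalso
        apply hno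
        rw [← h4, hfr, List.map_cons, List.mem_cons]
        exact Or.inr h'
      · rw [hfr] at h4
        cases F with
        | nil =>
          exfalso
          rw [List.nil_append] at h4
          injection h4 with h5 h6
          exact hno (by rw [← h6]; exact h')
        | cons p F =>
          rw [List.cons_append] at h4
          injection h4 with h5 h6
          exact Or.inr ⟨F, g', a', h6⟩

/-- (7) -/
theorem p7 (hw : 1 ≤ w0) (t u : ℕ) (h : rc R w0 x t = some u) :
    u ≤ t ∧ u ∈ pend (can R w0 x t) ∧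
    (can R w0 x (t + 1)).st = t + 1 ∧ (can R w0 x (t + 1)).a = 0 ∧
    (can R w0 x (t + 1)).fr = (can R w0 x u).fr := by
  have h3 := (p3 R w0 x hw t).1
  rcases shape R w0 x hw t with ⟨e, h'⟩ | ⟨v, a, ha, e, h'⟩ | ⟨v, e, h'⟩ | ⟨v, g, m, hm, e, h'⟩ |
      ⟨v, g, st, a, fr, b, hfr, hb, e, h'⟩ | ⟨v, g, st, a, fr, hfr, e, h'⟩
  · rw [h'] at h
    cases h
  · rw [h'] at h
    cases h
  · rw [h'] at h
    have hu : (can R w0 x t).st = u := Option.some.inj h
    have hmem : u ∈ pend (can R w0 x t) := by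
      rw [pend_def, List.mem_cons]
      exact Or.inl hu.symm
    refine ⟨by omega, hmem, by rw [e], by rw [e], ?_⟩
    rw [e]
    rcases (p6 R w0 x hw u t (by omega) hmem).2.2 with ⟨-, h4⟩ | ⟨F, g, a, h4⟩
    · exact h4
    · exfalso
      have := fr_lt R w0 x hw t u (by
        rw [h4, List.map_append, List.map_cons]
        exact List.mem_append_right _ (List.mem_cons_self ..))
      omega
  · rw [h'] at h
    cases h
  · rw [h'] at h
    cases h
  · rw [h'] at h
    have hu : st = u := Option.some.inj h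
    subst hu
    have hin : st ∈ (can R w0 x t).fr.map fun p => p.2.1 := by
      rw [hfr]
      exact List.mem_cons_self ..
    have hlt := fr_lt R w0 x hw t st hin
    have hmem : st ∈ pend (can R w0 x t) := by
      rw [pend_def, List.mem_cons]
      exact Or.inr hin
    refine ⟨by omega, hmem, by rw [e], by rw [e], ?_⟩
    rw [e]
    rcases (p6 R w0 x hw st t (by omega) hmem).2.2 with ⟨h5, -⟩ | ⟨F, g', a', h4⟩
    · omega
    · rw [hfr] at h4
      cases F with
      | nil =>
        rw [List.nil_append] at h4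
        injection h4
      | cons p F =>
        exfalso
        rw [List.cons_append] at h4
        injection h4 with h5 h6
        have h7 := (p3 R w0 x hw t).2
        rw [pend_def, List.pairwise_cons, hfr, List.map_cons, List.pairwise_cons] at h7
        have h8 := h7.2.1 st (by
          rw [h6, List.map_append, List.map_cons]
          exact List.mem_append_right _ (List.mem_cons_self ..))
        exact absurd h8 (lt_irrefl _)

/-- after a record the start is not pending -/
theorem p7' (hw : 1 ≤ w0) (t u : ℕ) (h : rc R w0 x t = some u) :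
    u ∉ pend (can R w0 x (t + 1)) := by
  obtain ⟨h1, h2, h3, h4, h5⟩ := p7 R w0 x hw t u h
  have h6 := (p6 R w0 x hw u t h1 h2).1
  intro h7
  rw [pend_def, List.mem_cons, h3, h5] at h7
  rcases h7 with h7 | h7
  · omega
  · have := fr_lt R w0 x hw u u h7
    omega

theorem p8a (hw : 1 ≤ w0) (t t' u : ℕ) (h : rc R w0 x t = some u) (h' : rc R w0 x t' = some u)
    (hlt : t < t') : False := by
  obtain ⟨h1, -⟩ := p7 R w0 x hw t u h
  obtain ⟨-, h2, -⟩ := p7 R w0 x hw t' u h'
  exact p7' R w0 x hw t u h (p5 R w0 x hw u (t + 1) t' (by omega) hlt h2)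

/-- (1), (2) -/
theorem p1 (hw : 1 ≤ w0) (T : ℕ) (hT : Tame R T) (t : ℕ) (ht : t ≤ T) :
    (R.conf x t).1 = (can R w0 x t).v ∧ (R.conf x t).2 = (can R w0 x t).fr.map Prod.fst := by
  induction t with
  | zero => exact ⟨rfl, rfl⟩
  | succ t ih =>
    obtain ⟨h1, h2⟩ := ih (by omega)
    have hc : R.conf x (t + 1) = (R.op t (R.conf x t).1 x).app (R.conf x t).2 := rfl
    rw [hc, h1, h2]
    have hS : ∀ S', raw R x t (can R w0 x t) = some S' → (can R w0 x (t + 1)).v = S'.v ∧
        (can R w0 x (t + 1)).fr = S'.fr := by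
      intro S' hS'
      rcases step R w0 x t with ⟨h, -⟩ | ⟨S, h, h3⟩
      · rw [h] at hS'
        cases hS'
      · rw [h] at hS'
        have : S = S' := Option.some.inj hS'
        subst this
        rcases h3 with ⟨-, h4, -⟩ | ⟨-, h4, -⟩
        · rw [h4]
          exact ⟨rfl, rfl⟩
        · rw [h4]
          exact ⟨rfl, rfl⟩
    rcases h : raw R x t (can R w0 x t) with _ | S'
    · exfalso
      obtain ⟨f, h3, h4⟩ := raw_none R x h
      have h5 := (hT x).2 t (by omega) (by rw [h2, h4]; rfl) f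
      rw [h1] at h5
      exact h5 h3
    · obtain ⟨h3, h4⟩ := hS S' h
      rw [h3, h4]
      rcases raw_some R x h with ⟨v, h5, rfl⟩ | ⟨v, g, h5, rfl⟩ | ⟨f, g, st, a, fr, h5, hfr, rfl⟩
      · rw [h5]
        exact ⟨rfl, rfl⟩
      · rw [h5]
        exact ⟨rfl, rfl⟩
      · rw [h5, hfr]
        exact ⟨rfl, rfl⟩

theorem p2 (hw : 1 ≤ w0) (T : ℕ) (hT : Tame R T) (t : ℕ) (ht : t < T) :
    raw R x t (can R w0 x t) ≠ none := by
  intro h
  obtain ⟨h1, h2⟩ := p1 R w0 x hw T hT t ht.le
  obtain ⟨f, h3, h4⟩ := raw_none R x h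
  have h5 := (hT x).2 t ht (by rw [h2, h4]; rfl) f
  rw [h1] at h5
  exact h5 h3

/-- (9) -/
theorem p9 (hw : 1 ≤ w0) (s : ℕ) (hs : ∀ t v, (R.rd t v).card ≤ s) (t : ℕ) (S' : Lv V G)
    (h : raw R x t (can R w0 x t) = some S') : S'.a ≤ 2 * (w0 + s) := by
  obtain ⟨h1, h2⟩ := p4 R w0 x hw s hs t
  have h3 := hs t (can R w0 x t).v
  rcases raw_some R x h with ⟨v, h5, rfl⟩ | ⟨v, g, h5, rfl⟩ | ⟨f, g, st, a, fr, h5, hfr, rfl⟩
  · show (can R w0 x t).a + (R.rd t (can R w0 x t).v).card ≤ _
    omega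
  · exact Nat.zero_le _
  · have h4 : a < w0 + s := h2 (g, st, a) (by rw [hfr]; exact List.mem_cons_self ..)
    show a + ((can R w0 x t).a + (R.rd t (can R w0 x t).v).card) ≤ _
    omega

end CANx

open CANx in
theorem t_CAN : S_CAN := by
  intro n V G R w0 T s x hT hw hs
  refine ⟨p1 R w0 x hw T hT, p2 R w0 x hw T hT, p3 R w0 x hw, p4 R w0 x hw s hs,
    p5 R w0 x hw, p6 R w0 x hw, fun t _ u h => p7 R w0 x hw t u h, ?_,
    fun t _ S' h => p9 R w0 x hw s hs t S' h⟩
  intro t _ t' _ u h h'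
  rcases lt_trichotomy t t' with hlt | heq | hlt
  · exact (p8a R w0 x hw t t' u h h' hlt).elim
  · exact heq
  · exact (p8a R w0 x hw t' t u h' h hlt).elim

end Pool.Agent.PPS
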