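import Pool.Agent.PPS.St1

/-!
# Project PPS, module EXI: the canonical pieces are as they should be
-/

set_option autoImplicit false

open Finset
open scoped Classical

namespace Pool.Agent.PPS

namespace EXI

variable {n : ℕ} {V G : Type}

/-- the sum of all amounts -/
def D (S : Lv V G) : ℕ := S.a + (S.fr.map fun p => p.2.2).sum

/-- more frames -/
def ext (S : Lv V G) (F : List (G × ℕ × ℕ)) : Lv V G := ⟨S.v, S.fr ++ F, S.st, S.a⟩

/-- a step with and without the frames `F` -/
theorem raw_ext (R : SS (Fin n) V G) (x : Fin n → Bool) (t : ℕ) (S : Lv V G)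
    (F : List (G × ℕ × ℕ)) :
    (∃ S', raw R x t S = some S' ∧ raw R x t (ext S F) = some (ext S' F) ∧
      D S' = D S + (R.rd t S.v).card ∧ (∀ w ∈ pend S', w = t + 1 ∨ w ∈ pend S) ∧
      (S'.a = 0 ∨ S'.st ∈ pend S)) ∨
    (S.fr = [] ∧ ((F = [] ∧ raw R x t (ext S F) = none) ∨ ∃ g st a fr S'',
      F = (g, st, a) :: fr ∧ raw R x t (ext S F) = some S'' ∧ S''.st = st ∧ S''.fr = fr)) := by
  obtain ⟨v0, fr0, st0, a0⟩ := S
  unfold raw ext
  simp only
  rcases hop : R.op t v0 x with v | ⟨v, g⟩ | h
  · left
    refine ⟨_, rfl, rfl, ?_, ?_, ?_⟩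
    · unfold D
      simp only
      omega
    · intro w hw
      right
      exact hw
    · right
      exact List.mem_cons_self
  · left
    refine ⟨_, rfl, rfl, ?_, ?_, ?_⟩
    · unfold D
      simp only [List.map_cons, List.sum_cons]
      omega
    · intro w hw
      rcases List.mem_cons.1 hw with h1 | h1
      · left
        exact h1
      · right
        exact h1
    · left
      rfl
  · rcases fr0 with _ | ⟨⟨g, st, a⟩, fr⟩
    · right
      refine ⟨rfl, ?_⟩
      rcases F with _ | ⟨⟨g, st, a⟩, fr⟩
      · left
        exact ⟨rfl, rfl⟩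
      · right
        exact ⟨g, st, a, fr, _, rfl, rfl, rfl, rfl⟩
    · left
      refine ⟨_, rfl, rfl, ?_, ?_, ?_⟩
      · unfold D
        simp only [List.map_cons, List.sum_cons]
        omega
      · intro w hw
        right
        exact List.mem_cons_of_mem _ hw
      · right
        exact List.mem_cons_of_mem _ List.mem_cons_self

theorem rc_eq (R : SS (Fin n) V G) (w0 : ℕ) (x : Fin n → Bool) (t : ℕ) {S' : Lv V G}
    (h : raw R x t (can R w0 x t) = some S') :
    rc R w0 x t = if w0 ≤ S'.a then some S'.st else none := by
  unfold rc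
  rw [h]

theorem can_eq (R : SS (Fin n) V G) (w0 : ℕ) (x : Fin n → Bool) (t : ℕ) {S' : Lv V G}
    (h : raw R x t (can R w0 x t) = some S') :
    can R w0 x (t + 1) = if w0 ≤ S'.a then ⟨S'.v, S'.fr, t + 1, 0⟩ else S' := by
  have h1 : can R w0 x (t + 1) = cst R w0 x t (can R w0 x t) := rfl
  rw [h1]
  unfold cst
  rw [h]

/-- the simulation of a piece -/
theorem main (R : SS (Fin n) V G) (w0 T s : ℕ) (τ : ℕ → Option (V × ℕ × V)) (x : Fin n → Bool)
    (hT : Tame R T) (hw : 1 ≤ w0)
    (hτ : ∀ u v e v', τ u = some (v, e, v') ↔ Cut R w0 T x u v e v')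
    (c1 : ∀ t ≤ T, (R.conf x t).1 = (can R w0 x t).v ∧
      (R.conf x t).2 = (can R w0 x t).fr.map Prod.fst)
    (c2 : ∀ t < T, raw R x t (can R w0 x t) ≠ none)
    (c3 : ∀ t, (can R w0 x t).st ≤ t ∧ (pend (can R w0 x t)).Pairwise (· > ·))
    (c5 : ∀ u t t', u ≤ t → t ≤ t' → u ∈ pend (can R w0 x t') → u ∈ pend (can R w0 x t))
    (c6 : ∀ u t, u ≤ t → u ∈ pend (can R w0 x t) → (can R w0 x u).st = u ∧ (can R w0 x u).a = 0)
    (c7 : ∀ t < T, ∀ u, rc R w0 x t = some u → u ≤ t ∧ u ∈ pend (can R w0 x t) ∧
      (can R w0 x (t + 1)).st = t + 1 ∧ (can R w0 x (t + 1)).a = 0 ∧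
      (can R w0 x (t + 1)).fr = (can R w0 x u).fr)
    (c8 : ∀ t < T, ∀ t' < T, ∀ u, rc R w0 x t = some u → rc R w0 x t' = some u → t = t')
    (p : Pc V) (F : List (G × ℕ × ℕ)) (A : ℕ)
    (hroot : p.root → F = [] ∧ p.t₂ = T ∧ A = (can R w0 x T).a ∧ p.v₂ = (can R w0 x T).v)
    (hnr : ¬ p.root → ∃ t0, t0 < T ∧ p.t₂ = t0 + 1 ∧ rc R w0 x t0 = some p.t₁ ∧
      F = (can R w0 x p.t₁).fr ∧ p.v₂ = (can R w0 x (t0 + 1)).v ∧
      ∃ S'', raw R x t0 (can R w0 x t0) = some S'' ∧ S''.a = A) :
    ∀ (k t : ℕ) (S : Lv V G) (sk b : ℕ), t + k = p.t₂ → max t sk ≤ p.t₂ →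
      (p.root ∨ max t sk < p.t₂) → p.t₁ ≤ max t sk → can R w0 x (max t sk) = ext S F →
      (∀ w ∈ pend S, (w ≠ p.t₁ ∨ p.root) → w < max t sk → τ w = none) → A ≤ b + D S →
      D S ≤ A ∧ ∃ S_f, (go R w0 τ p x k t S sk b).1 = some S_f ∧ S_f.v = p.v₂ ∧ S_f.fr = [] ∧
        (¬ p.root → w0 ≤ S_f.a) := by
  have hp2 : p.t₂ ≤ T := by
    by_cases hr : p.root
    · rw [(hroot hr).2.1]
    · obtain ⟨t0, h1, h2, -⟩ := hnr hr
      omega
  intro k
  induction k with
  | zero =>
    intro t S sk b htk hle hor hp1 hcan hpend hb
    have htm : t ≤ max t sk := le_max_left _ _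
    by_cases hr : p.root
    · obtain ⟨hF, hpT, hA, hv⟩ := hroot hr
      have hmx : max t sk = T := by omega
      rw [hmx] at hcan
      have h1 : (can R w0 x T).fr = [] := by
        have h2 := (c1 T le_rfl).2
        rw [(hT x).1] at h2
        exact List.map_eq_nil_iff.1 h2.symm
      have h2 : S.fr = [] := by
        rw [hcan] at h1
        exact (List.append_eq_nil_iff.1 h1).1
      have h3 : D S = A := by
        unfold D
        rw [h2, hA, hcan]
        rfl
      refine ⟨h3.le, S, rfl, ?_, h2, fun h => absurd hr h⟩
      rw [hv, hcan]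
      rfl
    · have := hor.resolve_left hr
      omega
  | succ k ih =>
    intro t S sk b htk hle hor hp1 hcan hpend hb
    by_cases hlt : t < sk
    · have hmx : max (t + 1) sk = max t sk := by omega
      rw [go, if_pos hlt]
      refine ih (t + 1) S sk b (by omega) ?_ ?_ ?_ ?_ ?_ hb
      · rw [hmx]; exact hle
      · rw [hmx]; exact hor
      · rw [hmx]; exact hp1
      · rw [hmx]; exact hcan
      · rw [hmx]; exact hpend
    · have hmx : max t sk = t := by omega
      rw [hmx] at hle hor hp1 hcan hpend
      have htT : t < T := by omega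
      have hst : (can R w0 x t).st = S.st := by rw [hcan]; rfl
      have hpw := (c3 t).2
      rw [hcan] at hpw
      have hpw1 : ∀ w ∈ S.fr.map (fun p => p.2.1), w < S.st := by
        intro w hw'
        have h1 := (List.pairwise_cons.1 hpw).1 w (by
          show w ∈ (S.fr ++ F).map fun p => p.2.1
          rw [List.map_append]
          exact List.mem_append_left _ hw')
        exact h1
      have hS3 : S.st ≤ t := by
        rw [← hst]
        exact (c3 t).1
      rw [go, if_neg hlt]
      rcases hm : (if t = p.t₁ ∧ ¬ p.root then none else τ t) with _ | ⟨v1, e1, v1'⟩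
      · -- a step of the machine
        simp only
        have hm' : (t ≠ p.t₁ ∨ p.root) → τ t = none := by
          intro h1
          rw [if_neg (by tauto)] at hm
          exact hm
        rcases raw_ext R x t S F with ⟨S', hS1, hS2, hD, hpe, hst'⟩ | ⟨hfr, hbad⟩
        · have hraw : raw R x t (can R w0 x t) = some (ext S' F) := by rw [hcan]; exact hS2
          have hrc := rc_eq R w0 x t hraw
          have hcn := can_eq R w0 x t hraw
          -- if the amount is at least `w0`
          have hbig : w0 ≤ S'.a → ¬ p.root ∧ t + 1 = p.t₂ ∧ S'.fr = [] := by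
            intro hwa
            have hrc' : rc R w0 x t = some S'.st := by
              rw [hrc, if_pos (show w0 ≤ (ext S' F).a from hwa)]
              rfl
            have hmem : S'.st ∈ pend S := by
              rcases hst' with h1 | h1
              · omega
              · exact h1
            have hle' : S'.st ≤ t := by
              rcases List.mem_cons.1 hmem with h1 | h1
              · rw [h1]
                exact hS3
              · exact (hpw1 _ h1).le.trans hS3
            have hcut : τ S'.st = some ((can R w0 x S'.st).v, t + 1, (can R w0 x (t + 1)).v) :=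
              (hτ _ _ _ _).2 ⟨t, htT, rfl, hrc', rfl, rfl⟩
            have hkey : ¬ (S'.st ≠ p.t₁ ∨ p.root) := by
              intro h1
              have h2 : τ S'.st = none := by
                rcases lt_or_eq_of_le hle' with h3 | h3
                · exact hpend _ hmem h1 h3
                · rw [h3]
                  rw [h3] at h1
                  exact hm' h1
              rw [h2] at hcut
              exact absurd hcut (by simp)
            have hnr' : ¬ p.root := fun h => hkey (Or.inr h)
            have hu : S'.st = p.t₁ := by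
              by_contra h
              exact hkey (Or.inl h)
            obtain ⟨t0, ht0, hpt, hrc0, hF, -, -⟩ := hnr hnr'
            rw [hu] at hrc'
            have htt := c8 t htT t0 ht0 _ hrc' hrc0
            refine ⟨hnr', by omega, ?_⟩
            have h4 := (c7 t htT _ hrc').2.2.2.2
            rw [hcn, if_pos (show w0 ≤ (ext S' F).a from hwa), ← hF] at h4
            have h5 : S'.fr ++ F = F := h4
            exact List.append_left_eq_self.1 h5
          have hsmall : S'.a < w0 → p.root ∨ t + 1 ≠ p.t₂ := by
            intro hwa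
            by_contra hcon
            rw [not_or, not_not] at hcon
            obtain ⟨t0, ht0, hpt, hrc0, -, -, -⟩ := hnr hcon.1
            have htt : t = t0 := by omega
            rw [← htt, hrc, if_neg (show ¬ w0 ≤ (ext S' F).a from not_le.2 hwa)] at hrc0
            exact absurd hrc0 (by simp)
          have hres : D S' ≤ A ∧ ∃ S_f, (go R w0 τ p x k (t + 1) S' 0
              (b - (R.rd t S.v).card)).1 = some S_f ∧ S_f.v = p.v₂ ∧ S_f.fr = [] ∧
              (¬ p.root → w0 ≤ S_f.a) := by
            by_cases hwa : w0 ≤ S'.a
            · obtain ⟨h1, h2, h3⟩ := hbig hwa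
              obtain ⟨t0, ht0, hpt, hrc0, hF, hv2, S'', hS'', hA⟩ := hnr h1
              have htt : t = t0 := by omega
              have hk : k = 0 := by omega
              subst hk
              rw [← htt, hraw] at hS''
              have h4 : ext S' F = S'' := Option.some.inj hS''
              have h5 : S'.a = A := by
                rw [← hA, ← h4]
                rfl
              refine ⟨?_, S', rfl, ?_, h3, fun _ => hwa⟩
              · unfold D
                rw [h3, h5]
                exact le_rfl
              · rw [hv2, ← htt, hcn, if_pos (show w0 ≤ (ext S' F).a from hwa)]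
                rfl
            · have h1 := hsmall (not_le.1 hwa)
              have hmx' : max (t + 1) 0 = t + 1 := by omega
              refine ih (t + 1) S' 0 (b - (R.rd t S.v).card) (by omega) ?_ ?_ ?_ ?_ ?_ ?_
              · rw [hmx']
                omega
              · rw [hmx']
                rcases h1 with h1 | h1
                · exact Or.inl h1
                · right
                  omega
              · rw [hmx']
                omega
              · rw [hmx', hcn, if_neg (show ¬ w0 ≤ (ext S' F).a from hwa)]
              · rw [hmx']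
                intro w hw' h2 h3
                rcases hpe w hw' with h4 | h4
                · omega
                · rcases lt_or_eq_of_le (Nat.le_of_lt_succ h3) with h5 | h5
                  · exact hpend w h4 h2 h5
                  · rw [h5] at h2 ⊢
                    exact hm' h2
              · omega
          obtain ⟨hDA, S_f, hgo, hres'⟩ := hres
          have hmb : (R.rd t S.v).card ≤ b := by omega
          rw [if_pos hmb]
          rw [hS1]
          simp only
          have hc : cond w0 p (t + 1) S' := ⟨hbig, hsmall⟩
          rw [if_pos hc]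
          exact ⟨by omega, S_f, hgo, hres'⟩
        · exfalso
          rcases hbad with ⟨hF, hno⟩ | ⟨g, st, a, fr, S'', hF, hr1, hr2, hr3⟩
          · exact c2 t htT (by rw [hcan]; exact hno)
          · have hnr' : ¬ p.root := by
              intro h
              rw [(hroot h).1] at hF
              exact absurd hF (by simp)
            obtain ⟨t0, ht0, hpt, hrc0, hF', -, -⟩ := hnr hnr'
            have htp := hor.resolve_left hnr'
            obtain ⟨hu1, hu2, -⟩ := c7 t0 ht0 _ hrc0
            have hFlt : ∀ w ∈ F.map (fun p => p.2.1), w < p.t₁ := by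
              intro w hw'
              have h1 := c6 p.t₁ t0 hu1 hu2
              have h2 := (c3 p.t₁).2
              have h3 := (List.pairwise_cons.1 h2).1 w (by rw [← hF']; exact hw')
              rw [h1.1] at h3
              exact h3
            have hraw : raw R x t (can R w0 x t) = some S'' := by rw [hcan]; exact hr1
            have hst1 : st < p.t₁ := hFlt st (by rw [hF]; simp)
            have hfr1 : ∀ w ∈ fr.map (fun p => p.2.1), w < p.t₁ := fun w hw' => hFlt w (by
              rw [hF, List.map_cons]
              exact List.mem_cons_of_mem _ hw')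
            by_cases htt : t = t0
            · rw [← htt, rc_eq R w0 x t hraw] at hrc0
              split_ifs at hrc0 with h1
              have h2 := Option.some.inj hrc0
              omega
            · have h1 := c5 p.t₁ (t + 1) t0 (by omega) (by omega) hu2
              rw [can_eq R w0 x t hraw] at h1
              split_ifs at h1 with h2
              · rcases List.mem_cons.1 h1 with h3 | h3
                · have h3' : p.t₁ = t + 1 := h3
                  omega
                · have h4 := hfr1 p.t₁ (by rw [← hr3]; exact h3)
                  omega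
              · rcases List.mem_cons.1 h1 with h3 | h3
                · omega
                · have h4 := hfr1 p.t₁ (by rw [← hr3]; exact h3)
                  omega
      · -- a jump
        simp only
        have hnt : ¬ (t = p.t₁ ∧ ¬ p.root) := by
          intro h
          rw [if_pos h] at hm
          exact absurd hm (by simp)
        rw [if_neg hnt] at hm
        obtain ⟨t1, ht1, he1, hrc1, hv1, hv1'⟩ := (hτ _ _ _ _).1 hm
        obtain ⟨h1, h2, h3, h4, h5⟩ := c7 t1 ht1 t hrc1
        have h6 := c5 t t t1 le_rfl h1 h2
        obtain ⟨h7, h8⟩ := c6 t t le_rfl h6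
        have hSt : S.st = t := by rw [← hst]; exact h7
        have hSa : S.a = 0 := by
          rw [hcan] at h8
          exact h8
        have hSv : S.v = v1 := by
          rw [hv1, hcan]
          rfl
        have he2 : e1 ≤ p.t₂ ∧ (p.root ∨ e1 < p.t₂) := by
          by_cases hr : p.root
          · refine ⟨?_, Or.inl hr⟩
            rw [(hroot hr).2.1]
            omega
          · obtain ⟨t0, ht0, hpt, hrc0, hF', -, -⟩ := hnr hr
            have htp := hor.resolve_left hr
            obtain ⟨hu1, hu2, hu3, hu4, hu5⟩ := c7 t0 ht0 _ hrc0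
            have hne : t ≠ p.t₁ := fun h => hnt ⟨h, hr⟩
            have ht10 : t1 ≠ t0 := by
              intro h
              rw [h, hrc0] at hrc1
              exact hne (Option.some.inj hrc1).symm
            have hlt1 : t1 ≤ t0 := by
              by_contra hcon
              have h9 := c5 t (t0 + 1) t1 (by omega) (by omega) h2
              rcases List.mem_cons.1 h9 with h10 | h10
              · rw [hu3] at h10
                omega
              · rw [hu5] at h10
                have h11 := (List.pairwise_cons.1 (c3 p.t₁).2).1 t h10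
                have h12 := (c6 p.t₁ t0 hu1 hu2).1
                rw [h12] at h11
                omega
            exact ⟨by omega, Or.inr (by omega)⟩
        have hlt1 : t < e1 := by omega
        rw [if_pos ⟨hSt, hSv, hlt1, he2.1⟩]
        have hmx' : max (t + 1) e1 = e1 := by omega
        have hres := ih (t + 1) ⟨v1', S.fr, e1, 0⟩ e1 b (by omega) (by rw [hmx']; exact he2.1)
          (by rw [hmx']; exact he2.2) (by rw [hmx']; omega) (by
            rw [hmx']
            have h9 : can R w0 x e1 = ⟨(can R w0 x e1).v, (can R w0 x e1).fr,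
              (can R w0 x e1).st, (can R w0 x e1).a⟩ := rfl
            rw [h9, ← hv1', he1, h3, h4, h5, hcan]
            rfl) (by
            rw [hmx']
            intro w hw' h9 h10
            rcases List.mem_cons.1 hw' with h11 | h11
            · have h11' : w = e1 := h11
              omega
            · have h12 := hpw1 w h11
              exact hpend w (List.mem_cons_of_mem _ h11) h9 (by omega)) (by
            unfold D at hb ⊢
            simp only at hb ⊢
            omega)
        refine ⟨?_, hres.2⟩
        have h9 := hres.1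
        unfold D at h9 ⊢
        simp only at h9 ⊢
        omega

end EXI

open EXI in
theorem t_EXI (hCAN : S_CAN) : S_EXI := by
  intro n V G R w0 T s τ x hT hw hs hτ
  obtain ⟨c1, c2, c3, c4, c5, c6, c7, c8, c9⟩ := hCAN n V G R w0 T s x hT hw hs
  have c6' : ∀ u t, u ≤ t → u ∈ pend (can R w0 x t) →
      (can R w0 x u).st = u ∧ (can R w0 x u).a = 0 := fun u t h1 h2 =>
    ⟨(c6 u t h1 h2).1, (c6 u t h1 h2).2.1⟩
  constructor
  · intro u v e v' hu
    obtain ⟨t0, ht0, he, hrc, hv, hv'⟩ := (hτ _ _ _ _).1 hu
    obtain ⟨h1, h2, -⟩ := c7 t0 ht0 u hrc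
    obtain ⟨h3, h4⟩ := c6' u t0 h1 h2
    obtain ⟨S'', hS''⟩ := Option.ne_none_iff_exists'.1 (c2 t0 ht0)
    have hA := c9 t0 ht0 S'' hS''
    have hmx : max u 0 = u := by omega
    obtain ⟨-, S, hS1, hS2, hS3, hS4⟩ := main R w0 T s τ x hT hw hτ c1 c2 c3 c5 c6' c7 c8
      ⟨u, v, e, v', False⟩ (can R w0 x u).fr S''.a (fun h => h.elim)
      (fun _ => ⟨t0, ht0, he, hrc, rfl, by rw [← he]; exact hv', S'', hS'', rfl⟩)
      (e - u) u ⟨v, [], u, 0⟩ 0 (2 * (w0 + s)) (by show u + (e - u) = e; omega)
      (by rw [hmx]; show u ≤ e; omega) (by rw [hmx]; right; show u < e; omega)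
      (by rw [hmx]) (by
        rw [hmx]
        have h9 : can R w0 x u = ⟨(can R w0 x u).v, (can R w0 x u).fr,
          (can R w0 x u).st, (can R w0 x u).a⟩ := rfl
        rw [h9, h3, h4, ← hv]
        rfl) (by
        intro w hw' _ h6
        rw [hmx] at h6
        have h7 : w = u := by
          rcases List.mem_cons.1 hw' with h8 | h8
          · exact h8
          · exact absurd h8 (by simp)
        omega) (by unfold D; simp only [List.map_nil, List.sum_nil]; omega)
    exact ⟨S, hS1, hS2, hS3, hS4⟩
  · have hmx : max 0 0 = 0 := rfl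
    obtain ⟨-, S, hS1, hS2, hS3, hS4⟩ := main R w0 T s τ x hT hw hτ c1 c2 c3 c5 c6' c7 c8
      ⟨0, R.start, T, (R.conf x T).1, True⟩ [] (can R w0 x T).a
      (fun _ => ⟨rfl, rfl, rfl, (c1 T le_rfl).1⟩) (fun h => (h trivial).elim)
      (T - 0) 0 ⟨R.start, [], 0, 0⟩ 0 (2 * (w0 + s)) (by show 0 + (T - 0) = T; omega)
      (Nat.zero_le _) (Or.inl trivial) (Nat.zero_le _) rfl (by
        intro w _ _ h6
        exact absurd h6 (by omega)) (by
        have := (c4 T).1
        omega)
    exact ⟨S, hS1, hS2, hS3, hS4⟩

end Pool.Agent.PPS
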