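import Pool.Agent.PPS.St1

/-!
# Project PPS: locality and number of the bits of the simulation of a piece (GOL)
-/

set_option autoImplicit false

open Finset
open scoped Classical

namespace Pool.Agent.PPS

namespace GOLM

variable {n : ℕ} {V G : Type} (R : SS (Fin n) V G) (w0 : ℕ) (τ : ℕ → Option (V × ℕ × V)) (p : Pc V)

lemma raw_loc {x y : Fin n → Bool} {t : ℕ} {S : Lv V G} (h : ∀ v ∈ R.rd t S.v, x v = y v) :
    raw R x t S = raw R y t S := by
  unfold raw
  rw [R.loc t S.v x y h]

lemma go_card (x : Fin n → Bool) : ∀ (k t : ℕ) (S : Lv V G) (sk b : ℕ),
    (go R w0 τ p x k t S sk b).2.card ≤ b := by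
  intro k
  induction k with
  | zero =>
    intro t S sk b
    simp [go]
  | succ k ih =>
    intro t S sk b
    unfold go
    by_cases h1 : t < sk
    · rw [if_pos h1]
      exact ih _ _ _ _
    · rw [if_neg h1]
      generalize (if t = p.t₁ ∧ ¬ p.root then none else τ t) = o
      rcases o with _ | ⟨v, e, v'⟩
      · simp only
        by_cases h2 : (R.rd t S.v).card ≤ b
        · rw [if_pos h2]
          generalize raw R x t S = o'
          rcases o' with _ | S'
          · exact h2
          · simp only
            by_cases h3 : cond w0 p (t + 1) S'
            · rw [if_pos h3]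
              refine (card_union_le _ _).trans ?_
              have := ih (t + 1) S' 0 (b - (R.rd t S.v).card)
              omega
            · rw [if_neg h3]
              exact h2
        · rw [if_neg h2]
          simp
      · simp only
        by_cases h2 : S.st = t ∧ S.v = v ∧ t < e ∧ e ≤ p.t₂
        · rw [if_pos h2]
          exact ih _ _ _ _
        · rw [if_neg h2]
          simp

lemma go_loc (x y : Fin n → Bool) : ∀ (k t : ℕ) (S : Lv V G) (sk b : ℕ),
    (∀ v ∈ (go R w0 τ p x k t S sk b).2, x v = y v) →
      go R w0 τ p y k t S sk b = go R w0 τ p x k t S sk b := by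
  intro k
  induction k with
  | zero =>
    intro t S sk b _
    rfl
  | succ k ih =>
    intro t S sk b h
    unfold go at h ⊢
    by_cases h1 : t < sk
    · rw [if_pos h1] at h ⊢
      rw [if_pos h1]
      exact ih _ _ _ _ h
    · rw [if_neg h1] at h ⊢
      rw [if_neg h1]
      generalize (if t = p.t₁ ∧ ¬ p.root then none else τ t) = o at h ⊢
      rcases o with _ | ⟨v, e, v'⟩
      · simp only at h ⊢
        by_cases h2 : (R.rd t S.v).card ≤ b
        · rw [if_pos h2] at h ⊢
          rw [if_pos h2]
          have h4 : ∀ v ∈ R.rd t S.v, x v = y v := by
            intro v hv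
            apply h
            generalize raw R x t S = o'
            rcases o' with _ | S'
            · exact hv
            · simp only
              by_cases h3 : cond w0 p (t + 1) S'
              · rw [if_pos h3]
                exact mem_union_left _ hv
              · rw [if_neg h3]
                exact hv
          rw [← raw_loc R h4]
          generalize raw R x t S = o' at h ⊢
          rcases o' with _ | S'
          · rfl
          · simp only at h ⊢
            by_cases h3 : cond w0 p (t + 1) S'
            · rw [if_pos h3] at h ⊢
              rw [if_pos h3, ih _ _ _ _ fun v hv => h v (mem_union_right _ hv)]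
            · rw [if_neg h3, if_neg h3]
        · rw [if_neg h2, if_neg h2]
      · simp only at h ⊢
        by_cases h2 : S.st = t ∧ S.v = v ∧ t < e ∧ e ≤ p.t₂
        · rw [if_pos h2] at h ⊢
          rw [if_pos h2]
          exact ih _ _ _ _ h
        · rw [if_neg h2, if_neg h2]

end GOLM

theorem t_GOL : S_GOL := by
  intro n V G R w0 b τ p x y
  exact ⟨GOLM.go_card R w0 τ p x _ _ _ _ _, fun h => GOLM.go_loc R w0 τ p x y _ _ _ _ _ h⟩

end Pool.Agent.PPS
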