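import Pool.Agent.PPS.St2
import Pool.Agent.PPL.LOW

/-!
# Project PPS: exponentially small correlation on a set of inputs (module LWS)
-/

set_option autoImplicit false

open Finset
open scoped Classical

namespace Pool.Agent.PPS.LWSP

open Pool.Agent.PPL Pool.Agent.PPL.LOWP
open Pool.Agent.URG (VarX VarA deg lg pols Zero)
open Pool.Agent.TKN.ONE (cop pt blk size BV Bas Lay sw dat inp)

/-! ## The machines -/

section
variable {M : ℕ} (ly : Lay M) (E : Fin (blk M)) (u : VarX (pt M (E.val + 1)) (E.val + 1) → Bool)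
variable {V G : Type}

/-- the machine for the point bits -/
noncomputable def toSS (R : SS (Fin (size M)) V G) :
    SS (Fin (cop (E.val + 1)) × Fin (pt M (E.val + 1))) V G where
  start := R.start
  rd t v := univ.filter fun p => dat (ly.pos E (Sum.inr p)) ∈ R.rd t v
  op t v x := R.op t v (emb ly E u x)
  loc t v x y h := by
    refine R.loc t v _ _ fun j hj => emb_loc ly E u x y j fun p hp => h p ?_
    refine Finset.mem_filter.2 ⟨Finset.mem_univ _, ?_⟩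
    rw [← hp]
    exact hj

lemma toSS_conf (R : SS (Fin (size M)) V G)
    (x : Fin (cop (E.val + 1)) × Fin (pt M (E.val + 1)) → Bool) (t : ℕ) :
    (toSS ly E u R).conf x t = R.conf (emb ly E u x) t := by
  induction t with
  | zero => rfl
  | succ t ih =>
    unfold SS.conf
    rw [ih]
    rfl

lemma toSS_rd (R : SS (Fin (size M)) V G) (t : ℕ) (v : V) :
    ((toSS ly E u R).rd t v).card ≤ (R.rd t v).card := by
  refine Finset.card_le_card_of_injOn (fun p => dat (ly.pos E (Sum.inr p))) ?_ ?_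
  · intro p hp
    exact Finset.mem_coe.2 (Finset.mem_filter.1 (Finset.mem_coe.1 hp)).2
  · intro p _ q _ h
    have h2 : ly.pos E (Sum.inr p) = ly.pos E (Sum.inr q) := by
      unfold dat at h
      exact Fin.natAdd_injective _ _ h
    exact Sum.inr_injective (ly.inj E h2)

end

/-! ## Numbers -/

lemma num_W (A1 k : ℕ) (hk : 2 ≤ k) :
    2 ^ 102 * ((48 * k) ^ (A1 * (48 * k))) ^ 12 * k ≤ k ^ ((4032 * A1 + 103) * k) := by
  have h12 : 48 * k ≤ k ^ 7 := by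
    have h1 : 2 ^ 6 ≤ k ^ 6 := Nat.pow_le_pow_left hk 6
    have h2 : k ^ 7 = k ^ 6 * k := by ring
    rw [h2]
    exact Nat.mul_le_mul_right k (by omega)
  have h3 : ((48 * k) ^ (A1 * (48 * k))) ^ 12 ≤ k ^ (4032 * A1 * k) := by
    calc ((48 * k) ^ (A1 * (48 * k))) ^ 12 ≤ ((k ^ 7) ^ (A1 * (48 * k))) ^ 12 :=
          Nat.pow_le_pow_left (Nat.pow_le_pow_left h12 _) _
      _ = k ^ (4032 * A1 * k) := by
          rw [← pow_mul, ← pow_mul]
          congr 1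
          ring
  have h4 : 2 ^ 102 * k ≤ k ^ (103 * k) := by
    calc 2 ^ 102 * k ≤ k ^ 102 * k := Nat.mul_le_mul_right k (Nat.pow_le_pow_left hk _)
      _ = k ^ 103 := by ring
      _ ≤ k ^ (103 * k) := Nat.pow_le_pow_right (by omega) (by nlinarith)
  calc 2 ^ 102 * ((48 * k) ^ (A1 * (48 * k))) ^ 12 * k
      = ((48 * k) ^ (A1 * (48 * k))) ^ 12 * (2 ^ 102 * k) := by ring
    _ ≤ k ^ (4032 * A1 * k) * k ^ (103 * k) := Nat.mul_le_mul h3 h4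
    _ = k ^ ((4032 * A1 + 103) * k) := by
        rw [← pow_add]
        congr 1
        ring

/-- the final estimate -/
lemma final (k M N n L Q F K : ℕ) (W cV : ℝ) (hk : 2 ≤ k) (hQ : 1 ≤ Q)
    (hW : 2 ^ 102 * (Q : ℝ) ^ 12 * k ≤ W) (hWM : W ≤ M) (hN : N ≤ 3 * M) (hL1 : 1 ≤ L)
    (hL : L ≤ 2 ^ 22 * Q ^ 2) (hF : F ≤ 2 * Q) (hMn : M ≤ 2 * (n * L)) (hK : K ≤ k * N)
    (hc0 : 0 ≤ cV) (hc : cV ≤ (2 : ℝ) ^ (1 / W * N)) :
    (cV * ((K : ℝ) + 1) ^ L) ^ F * 2 ^ (L * n) * (2 : ℝ) ^ (-((n : ℝ) / Q)) ≤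
      (2 : ℝ) ^ (-(1 / W * N)) * 2 ^ (L * n) := by
  have hkM : (3 * (k : ℝ) * M + 1) ≤ 4 * (k * M) := by
    have hQ' : (1 : ℝ) ≤ Q := by exact_mod_cast hQ
    have hk' : (2 : ℝ) ≤ k := by exact_mod_cast hk
    have h1 : (1 : ℝ) ≤ M := by
      refine le_trans ?_ (hW.trans hWM)
      have h2 : (1 : ℝ) ≤ (Q : ℝ) ^ 12 := one_le_pow₀ hQ'
      nlinarith
    nlinarith
  have hT2 : ((K : ℝ) + 1) ≤ (2 : ℝ) ^ (6 * √((k : ℝ) * M)) := by
    refine le_trans (le_trans ?_ hkM) (four_mul_le _ (by positivity))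
    have : (K : ℝ) ≤ k * N := by exact_mod_cast hK
    have h2 : (N : ℝ) ≤ 3 * M := by exact_mod_cast hN
    have h3 : (k : ℝ) * N ≤ k * (3 * M) := mul_le_mul_of_nonneg_left h2 (by positivity)
    linarith
  have h1 : cV * ((K : ℝ) + 1) ^ L ≤
      (2 : ℝ) ^ (6 * √((k : ℝ) * M) + 6 * √((k : ℝ) * M) * L + 1 / W * N) := by
    have h0 : cV * ((K : ℝ) + 1) ^ L ≤
        (2 : ℝ) ^ (1 / W * N) * (2 : ℝ) ^ (6 * √((k : ℝ) * M) * L) := by
      rw [Real.rpow_mul two_pos.le (6 * √((k : ℝ) * M)), Real.rpow_natCast]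
      exact mul_le_mul hc (pow_le_pow_left₀ (by positivity) hT2 _) (by positivity) (by positivity)
    refine h0.trans ?_
    rw [← Real.rpow_add two_pos]
    refine Real.rpow_le_rpow_of_exponent_le one_le_two ?_
    have : 0 ≤ 6 * √((k : ℝ) * M) := by positivity
    linarith
  have h2 : (cV * ((K : ℝ) + 1) ^ L) ^ F ≤
      (2 : ℝ) ^ ((6 * √((k : ℝ) * M) + 6 * √((k : ℝ) * M) * L + 1 / W * N) * F) := by
    rw [Real.rpow_mul two_pos.le, Real.rpow_natCast]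
    exact pow_le_pow_left₀ (by positivity) h1 _
  have h3 := expo k M N n L Q F W (by exact_mod_cast hk) (by exact_mod_cast hQ) hW hWM
    (by exact_mod_cast hN) (by exact_mod_cast hL1) (by exact_mod_cast hL)
    (by positivity) (by exact_mod_cast hF) (by exact_mod_cast hMn)
  have h4 : (2 : ℝ) ^ ((6 * √((k : ℝ) * M) + 6 * √((k : ℝ) * M) * L + 1 / W * N) * F) *
      (2 : ℝ) ^ (-((n : ℝ) / Q)) ≤ (2 : ℝ) ^ (-(1 / W * N)) := by
    rw [← Real.rpow_add two_pos]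
    exact Real.rpow_le_rpow_of_exponent_le one_le_two h3
  calc (cV * ((K : ℝ) + 1) ^ L) ^ F * 2 ^ (L * n) * (2 : ℝ) ^ (-((n : ℝ) / Q))
      = (cV * ((K : ℝ) + 1) ^ L) ^ F * (2 : ℝ) ^ (-((n : ℝ) / Q)) *
          2 ^ (L * n) := by ring
    _ ≤ (2 : ℝ) ^ ((6 * √((k : ℝ) * M) + 6 * √((k : ℝ) * M) * L + 1 / W * N) * F) *
          (2 : ℝ) ^ (-((n : ℝ) / Q)) * 2 ^ (L * n) := by gcongr
    _ ≤ (2 : ℝ) ^ (-(1 / W * N)) * 2 ^ (L * n) := by gcongr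

/-- `S_MLS` for one `k` -/
def MulKS (A1 K0 : ℕ) : Prop := ∀ n : ℕ, K0 ^ (A1 * K0) ≤ n →
  ∀ (L : ℕ) (V G : Type) [Fintype V] (R : SS (Fin L × Fin n) V G) (s T K : ℕ)
    (f : (Fin n → Bool) → Bool) (g : V → ℝ), 1 ≤ L → (∀ t v, (R.rd t v).card ≤ s) →
  (∀ x, ∑ t ∈ range T, (R.rd t (R.conf x t).1).card ≤ K) → 8 * K ≤ K0 * (n * L) →
  (s : ℝ) ≤ (n : ℝ) / K0 ^ (A1 * K0) →
  Auto f ((n : ℝ) / K0 ^ (A1 * K0)) → (∀ v, |g v| ≤ 1) →
  |∑ x : Fin L × Fin n → Bool, g (R.conf x T).1 * ∏ l, sg (f fun j => x (l, j))| ≤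
    (((T + 1) * (K + 1) ^ L * Fintype.card V : ℕ) : ℝ) ^ (K0 ^ A1 + 1) * 2 ^ (L * n) *
      (2 : ℝ) ^ (-((n : ℝ) / K0 ^ (A1 * K0)))

lemma core (A1 k M : ℕ) (hk : 2 ≤ k) (hMul : MulKS A1 (48 * k))
    (hW : 2 ^ 102 * ((48 * k) ^ (A1 * (48 * k))) ^ 12 * k ≤ M) (W : ℝ)
    (hW1 : 2 ^ 102 * (((48 * k) ^ (A1 * (48 * k)) : ℕ) : ℝ) ^ 12 * k ≤ W) (hW2 : W ≤ M)
    (β : Bas M) (ly : Lay M) (E : Fin (blk M)) (u : VarX (pt M (E.val + 1)) (E.val + 1) → Bool)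
    (hN : size M ≤ 3 * M) (hL1 : 1 ≤ cop (E.val + 1))
    (hL : cop (E.val + 1) ≤ 2 ^ 22 * ((48 * k) ^ (A1 * (48 * k))) ^ 2)
    (hMn : M ≤ 2 * (pt M (E.val + 1) * cop (E.val + 1)))
    (hAuto : Auto (par (β E) u) ((pt M (E.val + 1) : ℝ) / ((48 * k) ^ (A1 * (48 * k)) : ℕ)))
    (P : (Fin (size M) → Bool) → Prop)
    (hP : Mcs (Fin (size M)) (k * size M) (1 / W * size M) P) :
    |∑ v ∈ HH ly E u, sgP (P v) * sgP (fP β ly v = true)| ≤
      (2 : ℝ) ^ (-(1 / W * size M)) * (HH ly E u).card := by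
  obtain ⟨T, V, G, _, R, acc, hTV, hRb, hRK, hacc⟩ := hP
  rw [HH_sum, HH_card]
  -- numbers
  have hQ : 1 ≤ (48 * k) ^ (A1 * (48 * k)) := Nat.one_le_pow _ _ (by omega)
  have hF : (48 * k) ^ A1 + 1 ≤ 2 * (48 * k) ^ (A1 * (48 * k)) := by
    have : (48 * k) ^ A1 ≤ (48 * k) ^ (A1 * (48 * k)) :=
      Nat.pow_le_pow_right (by omega) (by nlinarith)
    omega
  have hQn : (48 * k) ^ (A1 * (48 * k)) ≤ pt M (E.val + 1) := by
    by_contra hlt
    push Not at hlt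
    have h1 : M ≤ 2 * ((48 * k) ^ (A1 * (48 * k)) * (2 ^ 22 * ((48 * k) ^ (A1 * (48 * k))) ^ 2)) := by
      refine hMn.trans (Nat.mul_le_mul_left _ (Nat.mul_le_mul hlt.le hL))
    generalize (48 * k) ^ (A1 * (48 * k)) = Q at *
    have h2 : 2 * (Q * (2 ^ 22 * Q ^ 2)) < 2 ^ 102 * Q ^ 12 * k := by
      have h3 : Q ^ 3 ≤ Q ^ 12 := Nat.pow_le_pow_right hQ (by norm_num)
      have h4 : 2 * (Q * (2 ^ 22 * Q ^ 2)) = 2 ^ 23 * Q ^ 3 := by ring
      have h5 : 1 ≤ Q ^ 12 := Nat.one_le_pow _ _ hQ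
      rw [h4]
      nlinarith
    omega
  have hcast : (((48 * k : ℕ) : ℝ)) ^ (A1 * (48 * k)) = (((48 * k) ^ (A1 * (48 * k)) : ℕ) : ℝ) := by
    push_cast
    rfl
  have hQ' : (1 : ℝ) ≤ (((48 * k) ^ (A1 * (48 * k)) : ℕ) : ℝ) := by exact_mod_cast hQ
  have hk' : (2 : ℝ) ≤ k := by exact_mod_cast hk
  have hW0 : 0 < W := lt_of_lt_of_le (by positivity) hW1
  -- the number of the bits read at once
  have hb0 : (0 : ℝ) ≤ 1 / W * size M := by positivity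
  obtain ⟨s, hsdef⟩ : ∃ s : ℕ, s = ⌊(1 / W * size M : ℝ)⌋₊ := ⟨_, rfl⟩
  have hs : (s : ℝ) ≤ 1 / W * size M := by
    rw [hsdef]
    exact Nat.floor_le hb0
  have hRs : ∀ t v, (R.rd t v).card ≤ s := by
    intro t v
    rw [hsdef]
    exact Nat.le_floor (hRb t v)
  -- `s ≤ n / Q`
  have hs' : (s : ℝ) ≤ (pt M (E.val + 1) : ℝ) / ((48 * k : ℕ) : ℝ) ^ (A1 * (48 * k)) := by
    rw [hcast]
    refine hs.trans ?_
    have h1 : ((size M : ℕ) : ℝ) ≤ 3 * M := by exact_mod_cast hN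
    have h2 : ((M : ℕ) : ℝ) ≤ 2 * ((pt M (E.val + 1) : ℝ) * cop (E.val + 1)) := by
      exact_mod_cast hMn
    have h3 : ((cop (E.val + 1) : ℕ) : ℝ) ≤
        2 ^ 22 * (((48 * k) ^ (A1 * (48 * k)) : ℕ) : ℝ) ^ 2 := by exact_mod_cast hL
    generalize (((48 * k) ^ (A1 * (48 * k)) : ℕ) : ℝ) = Q at *
    generalize ((pt M (E.val + 1) : ℕ) : ℝ) = n at *
    have hn0 : 0 ≤ n := by
      by_contra hn
      push Not at hn
      have : (0 : ℝ) < cop (E.val + 1) := by exact_mod_cast hL1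
      have h0 : (0 : ℝ) ≤ M := Nat.cast_nonneg _
      nlinarith
    rw [one_div, inv_mul_eq_div, div_le_div_iff₀ hW0 (by linarith)]
    have h4 : (M : ℝ) ≤ 2 ^ 23 * Q ^ 2 * n := by
      refine h2.trans ?_
      have := mul_le_mul_of_nonneg_left h3 hn0
      linarith
    have h5 : 3 * 2 ^ 23 * Q ^ 2 * Q ≤ W := by
      refine le_trans ?_ hW1
      have h6 : Q ^ 3 ≤ Q ^ 12 := pow_le_pow_right₀ hQ' (by norm_num)
      have h7 : Q ^ 12 * 1 ≤ Q ^ 12 * k := mul_le_mul_of_nonneg_left (by linarith) (by positivity)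
      have h8 : 0 < Q ^ 12 := by positivity
      have h9 : 3 * 2 ^ 23 * Q ^ 2 * Q = 3 * 2 ^ 23 * Q ^ 3 := by ring
      rw [h9]
      nlinarith
    calc (size M : ℝ) * Q ≤ 3 * M * Q := by gcongr
      _ ≤ 3 * (2 ^ 23 * Q ^ 2 * n) * Q := by gcongr
      _ = n * (3 * 2 ^ 23 * Q ^ 2 * Q) := by ring
      _ ≤ n * W := by gcongr
  have hAuto' : Auto (par (β E) u)
      ((pt M (E.val + 1) : ℝ) / ((48 * k : ℕ) : ℝ) ^ (A1 * (48 * k))) := by
    rw [hcast]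
    exact hAuto
  -- the bound for the machine
  have hRK' : ∀ x, ∑ t ∈ range T, ((toSS ly E u R).rd t ((toSS ly E u R).conf x t).1).card ≤
      k * size M := by
    intro x
    have h1 : ∑ t ∈ range T, ((toSS ly E u R).rd t ((toSS ly E u R).conf x t).1).card ≤
        ∑ t ∈ range T, (R.rd t (R.conf (emb ly E u x) t).1).card := by
      refine Finset.sum_le_sum fun t _ => ?_
      rw [toSS_conf]
      exact toSS_rd ly E u R t _
    refine h1.trans ?_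
    have h2 := hRK (emb ly E u x)
    exact_mod_cast h2
  have h1 := hMul (pt M (E.val + 1)) hQn (cop (E.val + 1)) V G (toSS ly E u R) s T (k * size M)
    (par (β E) u) (fun v => sgP (acc v)) hL1 (fun t v => (toSS_rd ly E u R t v).trans (hRs t v))
    hRK' (by nlinarith) hs' hAuto' fun v => sgP_abs _
  have h2 : ∀ x : Fin (cop (E.val + 1)) × Fin (pt M (E.val + 1)) → Bool,
      sgP (P (emb ly E u x)) = sgP (acc ((toSS ly E u R).conf x T).1) := by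
    intro x
    rw [toSS_conf]
    congr 1
    exact propext (hacc _)
  simp only [h2]
  refine h1.trans ?_
  have h3 := final k M (size M) (pt M (E.val + 1)) (cop (E.val + 1))
    ((48 * k) ^ (A1 * (48 * k))) ((48 * k) ^ A1 + 1) (k * size M) W
    (((T + 1) * Fintype.card V : ℕ) : ℝ) hk hQ hW1 hW2 hN hL1 hL hF hMn le_rfl
    (Nat.cast_nonneg _) hTV
  rw [hcast]
  push_cast
  push_cast at h3
  refine le_trans (le_of_eq ?_) h3
  ring

end Pool.Agent.PPS.LWSP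

namespace Pool.Agent.PPS

open Pool.Agent.PPS.LWSP
open Pool.Agent.PPL (par S_GSD Auto)
open Pool.Agent.PPL.LOWP (HH HH_nonempty auto_mono cop_le)
open Pool.Agent.URG (VarX VarA deg lg pols Zero)
open Pool.Agent.TKN.ONE (cop pt blk size BV Bas Lay sw dat inp)

theorem t_LWS (hMLS : S_MLS) (hGSD : Pool.Agent.PPL.S_GSD) (hSIZ : Pool.Agent.TKN.ONE.S_SIZ) :
    S_LWS := by
  obtain ⟨A1, hA1⟩ := hMLS
  refine ⟨4032 * A1 + 103, fun k M hk hM β ly => ?_⟩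
  have hMul : MulKS A1 (48 * k) := fun n hn => hA1 (48 * k) (by omega) n hn
  have hW := num_W A1 k hk
  have hWM := hW.trans hM
  have hQ : 1 ≤ (48 * k) ^ (A1 * (48 * k)) := Nat.one_le_pow _ _ (by omega)
  set Q := (48 * k) ^ (A1 * (48 * k)) with hQdef
  -- the parameter
  obtain ⟨e0, he0, he1⟩ : ∃ e0 : ℕ, 64 * Q ≤ 4 ^ (e0 + 1) ∧ 4 ^ (e0 + 1) ≤ 256 * Q := by
    have h1 : 1 < 64 * Q := by omega
    have h2 : 64 * Q ≤ 4 ^ Nat.clog 4 (64 * Q) := Nat.le_pow_clog (by norm_num) _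
    have h3 : 4 ^ (Nat.clog 4 (64 * Q)).pred < 64 * Q := Nat.pow_pred_clog_lt_self (by norm_num) h1
    have h4 : 0 < Nat.clog 4 (64 * Q) := Nat.clog_pos (by norm_num) h1
    refine ⟨(Nat.clog 4 (64 * Q)).pred, ?_, ?_⟩
    · rw [← Nat.succ_eq_add_one, Nat.succ_pred_eq_of_pos h4]
      exact h2
    · rw [pow_succ]
      omega
  have he2 : 2 ≤ e0 + 1 := by
    by_contra h
    have : e0 = 0 := by omega
    subst this
    omega
  -- `2 ^ 56 ≤ M`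
  have hQ12 : 1 ≤ Q ^ 12 := Nat.one_le_pow _ _ hQ
  have hM56 : 2 ^ 56 ≤ M := by
    refine le_trans ?_ hWM
    calc 2 ^ 56 ≤ 2 ^ 102 * 1 * 1 := by norm_num
      _ ≤ 2 ^ 102 * Q ^ 12 * k := Nat.mul_le_mul (Nat.mul_le_mul_left _ hQ12) (by omega)
  obtain ⟨⟨hsz1, hsz2⟩, hb1, hsiz⟩ := hSIZ M hM56
  -- the parameter is in the range
  have hblk : e0 + 1 ≤ blk M := by
    unfold blk lg
    rw [Nat.le_div_iff_mul_le (by norm_num)]
    have h1 : 2 ^ ((e0 + 1) * 8) ≤ M := by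
      have h2 : 2 ^ ((e0 + 1) * 8) = (4 ^ (e0 + 1)) ^ 4 := by
        rw [← pow_mul, show (4 : ℕ) = 2 ^ 2 by norm_num, ← pow_mul]
        congr 1
        ring
      rw [h2]
      refine le_trans (Nat.pow_le_pow_left he1 4) (le_trans ?_ hWM)
      calc (256 * Q) ^ 4 = 2 ^ 32 * Q ^ 4 := by ring
        _ ≤ 2 ^ 102 * Q ^ 12 * 1 := by
            rw [mul_one]
            exact Nat.mul_le_mul (by norm_num) (Nat.pow_le_pow_right hQ (by norm_num))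
        _ ≤ 2 ^ 102 * Q ^ 12 * k := Nat.mul_le_mul_left _ (by omega)
    have h3 : (e0 + 1) * 8 ≤ Nat.log 2 M := Nat.le_log_of_pow_le (by norm_num) h1
    omega
  obtain ⟨hpt2, -, hcop1, -, -, -, -, hMn⟩ := hsiz (e0 + 1) (by omega) hblk
  have hcop : cop (e0 + 1) ≤ 2 ^ 22 * Q ^ 2 := by
    refine (cop_le (e0 + 1)).trans ?_
    calc 64 * (4 ^ (e0 + 1)) ^ 2 ≤ 64 * (256 * Q) ^ 2 :=
          Nat.mul_le_mul_left _ (Nat.pow_le_pow_left he1 2)
      _ = 2 ^ 22 * Q ^ 2 := by ring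
  have h64 : 64 ^ (e0 + 1) ≤ pt M (e0 + 1) := by
    by_contra hlt
    push Not at hlt
    have h1 : 64 ^ (e0 + 1) = (4 ^ (e0 + 1)) ^ 3 := by
      rw [← pow_mul, show (64 : ℕ) = 4 ^ 3 by norm_num, ← pow_mul]
      congr 1
      ring
    have h2 : 64 ^ (e0 + 1) ≤ (256 * Q) ^ 3 := by
      rw [h1]
      exact Nat.pow_le_pow_left he1 3
    have h3 : M ≤ 2 * ((256 * Q) ^ 3 * (2 ^ 22 * Q ^ 2)) :=
      hMn.trans (Nat.mul_le_mul_left _ (Nat.mul_le_mul (hlt.le.trans h2) hcop))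
    have h4 : 2 * ((256 * Q) ^ 3 * (2 ^ 22 * Q ^ 2)) = 2 ^ 47 * Q ^ 5 := by ring
    rw [h4] at h3
    have h5 : Q ^ 5 ≤ Q ^ 12 := Nat.pow_le_pow_right hQ (by norm_num)
    have h6 : Q ^ 12 * 1 ≤ Q ^ 12 * k := Nat.mul_le_mul_left _ (by omega)
    have h7 : 2 ^ 102 * Q ^ 12 * k = 2 ^ 102 * (Q ^ 12 * k) := by ring
    rw [h7] at hWM
    have h8 : 2 ^ 47 * Q ^ 5 < 2 ^ 102 * (Q ^ 12 * k) := by
      calc 2 ^ 47 * Q ^ 5 ≤ 2 ^ 47 * (Q ^ 12 * k) := Nat.mul_le_mul_left _ (by omega)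
        _ < 2 ^ 102 * (Q ^ 12 * k) := Nat.mul_lt_mul_of_pos_right (by norm_num) (by omega)
    omega
  -- the seeds
  obtain ⟨u, hu⟩ := hGSD (pt M (e0 + 1)) (e0 + 1) (β ⟨e0, hblk⟩) he2 h64
  have hAuto : Auto (par (β ⟨e0, hblk⟩) u) ((pt M (e0 + 1) : ℝ) / (Q : ℕ)) := by
    refine auto_mono hu ?_
    have h1 : (64 : ℝ) * (Q : ℕ) ≤ 4 ^ (e0 + 1) := by exact_mod_cast he0
    have h2 : (0 : ℝ) < (Q : ℕ) := by exact_mod_cast hQ
    have h3 : (0 : ℝ) ≤ (pt M (e0 + 1) : ℝ) := Nat.cast_nonneg _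
    rw [div_le_div_iff₀ (by positivity) h2]
    nlinarith
  have hcast : ((k : ℝ)) ^ ((4032 * A1 + 103) * k) = ((k ^ ((4032 * A1 + 103) * k) : ℕ) : ℝ) := by
    push_cast
    rfl
  refine ⟨HH ly ⟨e0, hblk⟩ u, HH_nonempty _ _ _, fun P hP => ?_⟩
  exact core A1 k M hk hMul hWM ((k : ℝ) ^ ((4032 * A1 + 103) * k))
    (by rw [hcast]; exact_mod_cast hW) (by rw [hcast]; exact_mod_cast hM) β ly ⟨e0, hblk⟩ u
    (by omega) hcop1 hcop hMn hAuto P hP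

end Pool.Agent.PPS
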