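import Pool.Agent.PPS.St3
import Pool.Agent.PPS.LWS

/-!
# Project PPS: the hard set of inputs is a subcube
-/

set_option autoImplicit false

open Finset
open scoped Classical

namespace Pool.Agent.PPS

open Pool.Agent.PPS.LWSP
open Pool.Agent.PPL (par S_GSD Auto sgP fP)
open Pool.Agent.PPL.LOWP (HH HH_nonempty HH_card auto_mono cop_le emb emb_loc emb_dat)
open Pool.Agent.URG (VarX VarA deg lg pols Zero)
open Pool.Agent.TKN.ONE (cop pt blk size BV Bas Lay sw dat inp)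

namespace LWCx

section
variable {M : ℕ} (ly : Lay M) (E : Fin (blk M)) (u : VarX (pt M (E.val + 1)) (E.val + 1) → Bool)

/-- the positions of the bits of the points -/
noncomputable def DD : Finset (Fin (size M)) :=
  univ.image fun p : Fin (cop (E.val + 1)) × Fin (pt M (E.val + 1)) => dat (ly.pos E (Sum.inr p))

lemma dat_inj {M : ℕ} : Function.Injective (dat (M := M)) := by
  intro a b h
  unfold dat at h
  exact Fin.natAdd_injective _ _ h

lemma DD_card : (DD ly E).card = cop (E.val + 1) * pt M (E.val + 1) := by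
  unfold DD
  rw [Finset.card_image_of_injective, Finset.card_univ]
  · simp
  · intro p q h
    have h2 := ly.inj E (dat_inj h)
    exact Sum.inr_injective h2

lemma HH_eq : HH ly E u = cube (DD ly E) (emb ly E u fun _ => false) := by
  ext v
  unfold HH cube
  rw [Finset.mem_image, Finset.mem_filter]
  constructor
  · rintro ⟨x, -, rfl⟩
    refine ⟨Finset.mem_univ _, fun i hi => emb_loc ly E u _ _ i fun p hp => ?_⟩
    exact absurd (Finset.mem_image.2 ⟨p, Finset.mem_univ _, hp.symm⟩) hi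
  · rintro ⟨-, h⟩
    refine ⟨fun p => v (dat (ly.pos E (Sum.inr p))), Finset.mem_univ _, ?_⟩
    funext i
    by_cases hi : i ∈ DD ly E
    · obtain ⟨p, -, hp⟩ := Finset.mem_image.1 hi
      rw [← hp, emb_dat]
      rfl
    · rw [h i hi]
      refine emb_loc ly E u _ _ i fun p hp => ?_
      exact absurd (Finset.mem_image.2 ⟨p, Finset.mem_univ _, hp.symm⟩) hi

end

end LWCx

open LWCx in
theorem t_LWC (hMLS : S_MLS) (hGSD : Pool.Agent.PPL.S_GSD) (hSIZ : Pool.Agent.TKN.ONE.S_SIZ) :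
    S_LWC := by
  obtain ⟨A1, hA1⟩ := hMLS
  refine ⟨4032 * A1 + 103, fun k M hk hM β ly => ?_⟩
  have hMul : MulKS A1 (48 * k) := fun n hn => hA1 (48 * k) (by omega) n hn
  have hW := num_W A1 k hk
  have hWM := hW.trans hM
  have hQ : 1 ≤ (48 * k) ^ (A1 * (48 * k)) := Nat.one_le_pow _ _ (by omega)
  set Q := (48 * k) ^ (A1 * (48 * k)) with hQdef
  -- the parameter
  obtain ⟨e0, he0, he1⟩ : ∃ e0 : ℕ, 64 * Q ≤ 4 ^ (e0 + 1) ∧ 4 ^ (e0 + 1) ≤ 256 * Q := by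
    have h1 : 1 < 64 * Q := by omega
    have h2 : 64 * Q ≤ 4 ^ Nat.clog 4 (64 * Q) := Nat.le_pow_clog (by norm_num) _
    have h3 : 4 ^ (Nat.clog 4 (64 * Q)).pred < 64 * Q := Nat.pow_pred_clog_lt_self (by norm_num) h1
    have h4 : 0 < Nat.clog 4 (64 * Q) := Nat.clog_pos (by norm_num) h1
    refine ⟨(Nat.clog 4 (64 * Q)).pred, ?_, ?_⟩
    · rw [← Nat.succ_eq_add_one, Nat.succ_pred_eq_of_pos h4]
      exact h2
    · rw [pow_succ]
      omega
  have he2 : 2 ≤ e0 + 1 := by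
    by_contra h
    have : e0 = 0 := by omega
    subst this
    omega
  -- `2 ^ 56 ≤ M`
  have hQ12 : 1 ≤ Q ^ 12 := Nat.one_le_pow _ _ hQ
  have hM56 : 2 ^ 56 ≤ M := by
    refine le_trans ?_ hWM
    calc 2 ^ 56 ≤ 2 ^ 102 * 1 * 1 := by norm_num
      _ ≤ 2 ^ 102 * Q ^ 12 * k := Nat.mul_le_mul (Nat.mul_le_mul_left _ hQ12) (by omega)
  obtain ⟨⟨hsz1, hsz2⟩, hb1, hsiz⟩ := hSIZ M hM56
  -- the parameter is in the range
  have hblk : e0 + 1 ≤ blk M := by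
    unfold blk lg
    rw [Nat.le_div_iff_mul_le (by norm_num)]
    have h1 : 2 ^ ((e0 + 1) * 8) ≤ M := by
      have h2 : 2 ^ ((e0 + 1) * 8) = (4 ^ (e0 + 1)) ^ 4 := by
        rw [← pow_mul, show (4 : ℕ) = 2 ^ 2 by norm_num, ← pow_mul]
        congr 1
        ring
      rw [h2]
      refine le_trans (Nat.pow_le_pow_left he1 4) (le_trans ?_ hWM)
      calc (256 * Q) ^ 4 = 2 ^ 32 * Q ^ 4 := by ring
        _ ≤ 2 ^ 102 * Q ^ 12 * 1 := by
            rw [mul_one]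
            exact Nat.mul_le_mul (by norm_num) (Nat.pow_le_pow_right hQ (by norm_num))
        _ ≤ 2 ^ 102 * Q ^ 12 * k := Nat.mul_le_mul_left _ (by omega)
    have h3 : (e0 + 1) * 8 ≤ Nat.log 2 M := Nat.le_log_of_pow_le (by norm_num) h1
    omega
  obtain ⟨hpt2, -, hcop1, -, -, -, -, hMn⟩ := hsiz (e0 + 1) (by omega) hblk
  have hcop : cop (e0 + 1) ≤ 2 ^ 22 * Q ^ 2 := by
    refine (cop_le (e0 + 1)).trans ?_
    calc 64 * (4 ^ (e0 + 1)) ^ 2 ≤ 64 * (256 * Q) ^ 2 :=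
          Nat.mul_le_mul_left _ (Nat.pow_le_pow_left he1 2)
      _ = 2 ^ 22 * Q ^ 2 := by ring
  have h64 : 64 ^ (e0 + 1) ≤ pt M (e0 + 1) := by
    by_contra hlt
    push Not at hlt
    have h1 : 64 ^ (e0 + 1) = (4 ^ (e0 + 1)) ^ 3 := by
      rw [← pow_mul, show (64 : ℕ) = 4 ^ 3 by norm_num, ← pow_mul]
      congr 1
      ring
    have h2 : 64 ^ (e0 + 1) ≤ (256 * Q) ^ 3 := by
      rw [h1]
      exact Nat.pow_le_pow_left he1 3
    have h3 : M ≤ 2 * ((256 * Q) ^ 3 * (2 ^ 22 * Q ^ 2)) :=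
      hMn.trans (Nat.mul_le_mul_left _ (Nat.mul_le_mul (hlt.le.trans h2) hcop))
    have h4 : 2 * ((256 * Q) ^ 3 * (2 ^ 22 * Q ^ 2)) = 2 ^ 47 * Q ^ 5 := by ring
    rw [h4] at h3
    have h5 : Q ^ 5 ≤ Q ^ 12 := Nat.pow_le_pow_right hQ (by norm_num)
    have h6 : Q ^ 12 * 1 ≤ Q ^ 12 * k := Nat.mul_le_mul_left _ (by omega)
    have h7 : 2 ^ 102 * Q ^ 12 * k = 2 ^ 102 * (Q ^ 12 * k) := by ring
    rw [h7] at hWM
    have h8 : 2 ^ 47 * Q ^ 5 < 2 ^ 102 * (Q ^ 12 * k) := by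
      calc 2 ^ 47 * Q ^ 5 ≤ 2 ^ 47 * (Q ^ 12 * k) := Nat.mul_le_mul_left _ (by omega)
        _ < 2 ^ 102 * (Q ^ 12 * k) := Nat.mul_lt_mul_of_pos_right (by norm_num) (by omega)
    omega
  -- the seeds
  obtain ⟨u, hu⟩ := hGSD (pt M (e0 + 1)) (e0 + 1) (β ⟨e0, hblk⟩) he2 h64
  have hAuto : Auto (par (β ⟨e0, hblk⟩) u) ((pt M (e0 + 1) : ℝ) / (Q : ℕ)) := by
    refine auto_mono hu ?_
    have h1 : (64 : ℝ) * (Q : ℕ) ≤ 4 ^ (e0 + 1) := by exact_mod_cast he0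
    have h2 : (0 : ℝ) < (Q : ℕ) := by exact_mod_cast hQ
    have h3 : (0 : ℝ) ≤ (pt M (e0 + 1) : ℝ) := Nat.cast_nonneg _
    rw [div_le_div_iff₀ (by positivity) h2]
    nlinarith
  have hcast : ((k : ℝ)) ^ ((4032 * A1 + 103) * k) = ((k ^ ((4032 * A1 + 103) * k) : ℕ) : ℝ) := by
    push_cast
    rfl
  refine ⟨DD ly ⟨e0, hblk⟩, emb ly ⟨e0, hblk⟩ u fun _ => false, ?_, fun P hP => ?_⟩
  · rw [DD_card]
    have h1 : M ≤ 2 * (pt M (e0 + 1) * cop (e0 + 1)) := hMn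
    have h2 : cop (e0 + 1) * pt M (e0 + 1) = pt M (e0 + 1) * cop (e0 + 1) := Nat.mul_comm _ _
    show size M ≤ 6 * (cop (e0 + 1) * pt M (e0 + 1))
    rw [h2]
    omega
  · have h1 := core A1 k M hk hMul hWM ((k : ℝ) ^ ((4032 * A1 + 103) * k))
      (by rw [hcast]; exact_mod_cast hW) (by rw [hcast]; exact_mod_cast hM) β ly ⟨e0, hblk⟩ u
      (by omega) hcop1 hcop hMn hAuto P hP
    rw [HH_card, HH_eq] at h1
    rw [DD_card]
    push_cast at h1
    exact h1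

end Pool.Agent.PPS
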