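import Pool.Agent.PPS.St3
import Pool.Agent.PPS.MS

/-!
# The main theorems, the hard set is a subcube
-/

set_option autoImplicit false

open Finset
open scoped Classical

namespace Pool.Agent.PPS

open Pool.Agent.PPL (sg Auto sgP fP Hard)
open Pool.Agent.TKN.ONE (size Bas Lay)

namespace MCx

theorem cube_nonempty {N : ℕ} (D : Finset (Fin N)) (w : Fin N → Bool) : (cube D w).Nonempty :=
  ⟨w, Finset.mem_filter.2 ⟨Finset.mem_univ _, fun _ _ => rfl⟩⟩

theorem cube_card {N : ℕ} (D : Finset (Fin N)) (w : Fin N → Bool) :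
    (cube D w).card = 2 ^ D.card := by
  have h : (cube D w).card = (Fintype.piFinset fun i : Fin N =>
      if i ∈ D then (univ : Finset Bool) else {w i}).card := by
    congr 1
    ext v
    rw [cube, Finset.mem_filter, Fintype.mem_piFinset]
    constructor
    · rintro ⟨-, h⟩ i
      by_cases hi : i ∈ D
      · rw [if_pos hi]
        exact Finset.mem_univ _
      · rw [if_neg hi, Finset.mem_singleton]
        exact h i hi
    · intro h
      refine ⟨Finset.mem_univ _, fun i hi => ?_⟩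
      have h1 := h i
      rw [if_neg hi, Finset.mem_singleton] at h1
      exact h1
  rw [h, Fintype.card_piFinset]
  have h2 : ∀ i : Fin N, (if i ∈ D then (univ : Finset Bool) else {w i}).card =
      if i ∈ D then 2 else 1 := by
    intro i
    by_cases hi : i ∈ D
    · rw [if_pos hi, if_pos hi]
      rfl
    · rw [if_neg hi, if_neg hi]
      rfl
  rw [Finset.prod_congr rfl fun i _ => h2 i, Finset.prod_ite_mem, Finset.univ_inter,
    Finset.prod_const]

/-- a smaller class and a smaller parameter -/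
theorem hard_anti {N : ℕ} {C C' : ((Fin N → Bool) → Prop) → Prop} {b b' : ℝ}
    {L : (Fin N → Bool) → Prop} (h : b' ≤ b) (hC : ∀ P, C' P → C P) (hH : HardC C b L) :
    HardC C' b' L := by
  obtain ⟨⟨D, w, hne, hc⟩, h2⟩ := hH
  refine ⟨⟨D, w, hne, fun P hP => (hc P (hC P hP)).trans ?_⟩,
    fun W hW => ⟨fun h3 => ?_, fun h3 => ?_⟩⟩
  · have h3 : (2 : ℝ) ^ (-b) ≤ (2 : ℝ) ^ (-b') :=
      Real.rpow_le_rpow_of_exponent_le (by norm_num) (by linarith)
    exact mul_le_mul_of_nonneg_right h3 (by positivity)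
  · exact (h2 W (hW.trans h)).1 (PPL.MU.pp_mono hC h3)
  · exact (h2 W (hW.trans h)).2 (PPL.MU.gap_mono hC h3)

end MCx

theorem t_MC1 (hL : S_LWC) (hA : PPL.S_AVG) (hS : TKN.ONE.S_SIZ) : S_MC1 := by
  obtain ⟨A1, hA1⟩ := hL
  refine ⟨A1 + 28, ?_⟩
  intro k M hk hM β ly N c hN hc
  obtain ⟨n1, n2, n3, n4⟩ := PPL.MN1.nums hk hM
  subst hN
  set X : ℝ := (k : ℝ) ^ (A1 * k) with hX
  set Y : ℝ := (k : ℝ) ^ ((A1 + 28) * k) with hY
  have hk0 : (0 : ℝ) < k := by exact_mod_cast (by omega : 0 < k)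
  have hX0 : 0 < X := pow_pos hk0 _
  have hY0 : 0 < Y := pow_pos hk0 _
  have hsz : 2 * M ≤ size M := (hS M n2).1.1
  have hsz' : 2 * (M : ℝ) ≤ size M := by exact_mod_cast hsz
  have hN0 : (0 : ℝ) ≤ size M := Nat.cast_nonneg _
  have hcX : 4 * c ≤ 1 / X := by
    rw [hc, mul_one_div, div_le_div_iff₀ hY0 hX0, one_mul]
    exact n3
  have hc0 : 0 ≤ c := by
    rw [hc]
    positivity
  have hcX' : c ≤ 1 / X := by linarith
  have hcN : c * size M ≤ 1 / X * size M := mul_le_mul_of_nonneg_right hcX' hN0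
  have hcN2 : 2 ≤ c * size M := by
    rw [hc, one_div, inv_mul_eq_div, le_div_iff₀ hY0]
    linarith
  have hcN4 : 4 * (c * size M) ≤ 1 / X * size M := by
    rw [← mul_assoc]
    exact mul_le_mul_of_nonneg_right hcX hN0
  obtain ⟨D, w, hH, hb⟩ := hA1 k M hk n1 β ly
  have hb' : ∀ P, Mcs (Fin (size M)) (k * size M) (c * size M) P →
      |∑ v ∈ cube D w, sgP (P v) * sgP (fP β ly v = true)| ≤
        (2 : ℝ) ^ (-(1 / X * size M)) * 2 ^ D.card :=
    fun P hP => hb P (MS.mcs_mono le_rfl hcN hP)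
  refine ⟨⟨D, w, hH, fun P hP => (hb' P hP).trans ?_⟩, fun W hW => ?_⟩
  · refine mul_le_mul_of_nonneg_right ?_ (by positivity)
    exact Real.rpow_le_rpow_of_exponent_le (by norm_num) (neg_le_neg hcN)
  · refine hA (Fin (size M)) (Mcs (Fin (size M)) (k * size M) (c * size M)) (1 / X * size M)
      (fun v => fP β ly v = true) (cube D w) (MCx.cube_nonempty D w)
      (fun P hP => MS.mcs_false hP) (fun P hP => ?_) W ?_
    · have h1 := hb' P hP
      rw [MCx.cube_card]
      push_cast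
      exact h1
    · linarith

theorem t_MC2 (hMN1 : S_MC1) (hSIZ : TKN.ONE.S_SIZ) : S_MC2 := by
  intro ε hε hε1
  obtain ⟨A, hA⟩ := hMN1
  obtain ⟨c, hc0, N0, hN0⟩ := PPL.MN2M.key A ε hε
  refine ⟨c, hc0, max N0 (2 ^ 56), fun M hM β ly N b hN hb => ?_⟩
  have hM1 : N0 ≤ M := (le_max_left _ _).trans hM
  have hM2 : 2 ^ 56 ≤ M := (le_max_right _ _).trans hM
  obtain ⟨⟨hs1, hs2⟩, -, -⟩ := hSIZ M hM2
  rw [← hN] at hs1 hs2
  obtain ⟨k, hk2, hk, hkA⟩ := hN0 N (by omega)
  have hNr : (1 : ℝ) ≤ N := by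
    have : 1 ≤ N := by omega
    exact_mod_cast this
  have hN0' : (0 : ℝ) < N := by linarith
  have hMr : (3 : ℝ) ≤ M := by
    have : 3 ≤ M := by omega
    exact_mod_cast this
  have hNM : (N : ℝ) ≤ 3 * M := by
    have : N ≤ 3 * M := by omega
    exact_mod_cast this
  -- the power of `k`
  have hkM : (k : ℝ) ^ (A * k) ≤ M := by
    refine hkA.trans ?_
    have h1 : (N : ℝ) ^ (ε / 2) ≤ (N : ℝ) ^ (1 / 2 : ℝ) :=
      Real.rpow_le_rpow_of_exponent_le hNr (by linarith)
    refine h1.trans ?_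
    rw [← Real.sqrt_eq_rpow, Real.sqrt_le_left (by linarith)]
    nlinarith
  have hkM' : k ^ (A * k) ≤ M := by exact_mod_cast hkM
  have hkε : (k : ℝ) ^ (A * k) ≤ (N : ℝ) ^ ε :=
    hkA.trans (Real.rpow_le_rpow_of_exponent_le hNr (by linarith))
  have hkpos : (0 : ℝ) < (k : ℝ) ^ (A * k) := by
    have : (0 : ℝ) < k := by
      have : 0 < k := by omega
      exact_mod_cast this
    positivity
  have hle : b ≤ 1 / (k : ℝ) ^ (A * k) * N := by
    rw [hb, div_mul_eq_mul_div, one_mul, le_div_iff₀ hkpos]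
    calc (N : ℝ) ^ (1 - ε) * (k : ℝ) ^ (A * k) ≤ (N : ℝ) ^ (1 - ε) * (N : ℝ) ^ ε :=
          mul_le_mul_of_nonneg_left hkε (Real.rpow_nonneg hN0'.le _)
      _ = N := by
          rw [← Real.rpow_add hN0', sub_add_cancel, Real.rpow_one]
  have hTs : c * N * Real.log N / Real.log (Real.log N) ≤ k * N := by
    have h2 := mul_le_mul_of_nonneg_right hk hN0'.le
    have h3 : c * N * Real.log N / Real.log (Real.log N) =
        c * Real.log N / Real.log (Real.log N) * N := by ring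
    rw [h3]
    exact h2
  exact MCx.hard_anti hle (fun P hP => MS.mcs_mono hTs hle hP)
    (hA k M hk2 hkM' β ly N _ hN rfl)

end Pool.Agent.PPS
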