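import Pool.Agent.PPS.St2
import Pool.Agent.PPL.MUL

/-!
# Project PPS, module MLS: many points, counters (port of `PPL/MUL.lean`)
-/

set_option autoImplicit false

open Finset
open scoped Classical

namespace Pool.Agent.PPS

open Pool.Agent.PPL (sg Auto sgP fP Hard)
open Pool.Agent.TKN.ONE (size Bas Lay)

namespace MLSx

open Pool.Agent.PPL.MUL (ext pt pt_ext pt_ext_ne sum_ext cnt cnt_le sum_cnt cnt_eq abs_sg)

/-- the same operation with other states -/
def mapOp {V W G : Type} (φ : V → W) : Op V G → Op W G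
  | Op.stay v => Op.stay (φ v)
  | Op.push v g => Op.push (φ v) g
  | Op.pop h => Op.pop fun o => φ (h o)

theorem mapOp_app {V W G : Type} (φ : V → W) (o : Op V G) (l : List G) :
    (mapOp φ o).app l = (φ (o.app l).1, (o.app l).2) := by
  cases o with
  | stay v => rfl
  | push v g => rfl
  | pop h =>
    cases l with
    | nil => rfl
    | cons g l => rfl

variable {L n : ℕ}

section

variable {V G : Type} (R : SS (Fin L × Fin n) V G) (m : ℕ)

/-- the new counters -/
noncomputable def upd (c : Fin L → Fin (m + 1)) (S : Finset (Fin L × Fin n)) :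
    Fin L → Fin (m + 1) :=
  fun l => ⟨min ((c l : ℕ) + cnt l S) m, Nat.lt_succ_of_le (min_le_right _ _)⟩

/-- the machine with counters -/
noncomputable def cm : SS (Fin L × Fin n) (V × (Fin L → Fin (m + 1))) G where
  start := (R.start, fun _ => 0)
  rd t v := R.rd t v.1
  op t v x := mapOp (fun w => (w, upd m v.2 (R.rd t v.1))) (R.op t v.1 x)
  loc := by
    intro t v x y h
    rw [R.loc t v.1 x y h]

theorem cm_succ (X : Fin L × Fin n → Bool) (t : ℕ) :
    (cm R m).conf X (t + 1) =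
      ((((R.op t ((cm R m).conf X t).1.1 X).app ((cm R m).conf X t).2).1,
        upd m ((cm R m).conf X t).1.2 (R.rd t ((cm R m).conf X t).1.1)),
        ((R.op t ((cm R m).conf X t).1.1 X).app ((cm R m).conf X t).2).2) := by
  show (mapOp _ (R.op t ((cm R m).conf X t).1.1 X)).app ((cm R m).conf X t).2 = _
  rw [mapOp_app]

theorem cm_eq (X : Fin L × Fin n → Bool) : ∀ t, ((cm R m).conf X t).1.1 = (R.conf X t).1 ∧
    ((cm R m).conf X t).2 = (R.conf X t).2
  | 0 => ⟨rfl, rfl⟩
  | t + 1 => by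
    obtain ⟨h1, h2⟩ := cm_eq X t
    rw [cm_succ, h1, h2]
    exact ⟨rfl, rfl⟩

theorem cm_cnt (X : Fin L × Fin n → Bool) (t : ℕ) (l : Fin L) :
    (((cm R m).conf X (t + 1)).1.2 l : ℕ) =
      min ((((cm R m).conf X t).1.2 l : ℕ) + cnt l (R.rd t (R.conf X t).1)) m := by
  rw [cm_succ, (cm_eq R m X t).1]
  rfl

/-- the machine for the point `l` -/
noncomputable def one (l : Fin L) (y : Fin L × Fin n → Bool) :
    SS (Fin n) (V × (Fin L → Fin (m + 1))) G where
  start := (R.start, fun _ => 0)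
  rd t v := univ.filter fun j : Fin n => (l, j) ∈ R.rd t v.1
  op t v x := (cm R m).op t v (ext l y x)
  loc := by
    intro t v x x' h
    refine (cm R m).loc t v _ _ ?_
    rintro ⟨a, j⟩ hp
    by_cases h2 : a = l
    · subst h2
      have h3 := h j (by rw [Finset.mem_filter]; exact ⟨Finset.mem_univ _, hp⟩)
      simp only [Pool.Agent.PPL.MUL.ext, if_true, h3]
    · simp [Pool.Agent.PPL.MUL.ext, h2]

theorem one_conf (l : Fin L) (y : Fin L × Fin n → Bool) (x : Fin n → Bool) :
    ∀ t, (one R m l y).conf x t = (cm R m).conf (ext l y x) t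
  | 0 => rfl
  | t + 1 => by
    show ((cm R m).op t ((one R m l y).conf x t).1 (ext l y x)).app ((one R m l y).conf x t).2 =
      ((cm R m).op t ((cm R m).conf (ext l y x) t).1 (ext l y x)).app
        ((cm R m).conf (ext l y x) t).2
    rw [one_conf l y x t]

/-- number of the bits read before time `t` -/
noncomputable def tot (X : Fin L × Fin n → Bool) (t : ℕ) : ℕ :=
  ∑ u ∈ range t, (R.rd u (R.conf X u).1).card

theorem cnt_tot (X : Fin L × Fin n → Bool) (l : Fin L) :
    ∀ t, (((cm R m).conf X t).1.2 l : ℕ) ≤ tot R X t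
  | 0 => Nat.zero_le _
  | t + 1 => by
    have h1 := cnt_tot X l t
    have h3 := cnt_le l (R.rd t (R.conf X t).1)
    have h4 : tot R X (t + 1) = tot R X t + (R.rd t (R.conf X t).1).card :=
      Finset.sum_range_succ _ _
    rw [cm_cnt, h4]
    exact (min_le_left _ _).trans (by omega)

theorem sum_tot (X : Fin L × Fin n → Bool) :
    ∀ t, ∑ l, (((cm R m).conf X t).1.2 l : ℕ) ≤ tot R X t
  | 0 => by
    have h : ∀ l : Fin L, (((cm R m).conf X 0).1.2 l : ℕ) = 0 := fun _ => rfl
    simp [h]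
  | t + 1 => by
    have h1 := sum_tot X t
    have h2 : ∀ l, (((cm R m).conf X (t + 1)).1.2 l : ℕ) ≤
        (((cm R m).conf X t).1.2 l : ℕ) + cnt l (R.rd t (R.conf X t).1) := fun l => by
      rw [cm_cnt]
      exact min_le_left _ _
    have h4 : tot R X (t + 1) = tot R X t + (R.rd t (R.conf X t).1).card :=
      Finset.sum_range_succ _ _
    calc ∑ l, (((cm R m).conf X (t + 1)).1.2 l : ℕ)
        ≤ ∑ l, ((((cm R m).conf X t).1.2 l : ℕ) + cnt l (R.rd t (R.conf X t).1)) :=
          Finset.sum_le_sum fun l _ => h2 l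
      _ = ∑ l, (((cm R m).conf X t).1.2 l : ℕ) + ∑ l, cnt l (R.rd t (R.conf X t).1) :=
          Finset.sum_add_distrib
      _ ≤ tot R X t + (R.rd t (R.conf X t).1).card := by
          rw [sum_cnt]
          exact Nat.add_le_add_right h1 _
      _ = tot R X (t + 1) := h4.symm

theorem tot_mono (X : Fin L × Fin n → Bool) {t T : ℕ} (h : t ≤ T) : tot R X t ≤ tot R X T :=
  Finset.sum_le_sum_of_subset (Finset.range_subset_range.2 h)

/-- no saturation -/
theorem cm_add (T : ℕ) (X : Fin L × Fin n → Bool) (hK : tot R X T ≤ m) (l : Fin L) (t : ℕ)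
    (ht : t < T) : (((cm R m).conf X (t + 1)).1.2 l : ℕ) =
      (((cm R m).conf X t).1.2 l : ℕ) + cnt l (R.rd t (R.conf X t).1) := by
  have h1 := cnt_tot R m X l t
  have h3 := cnt_le l (R.rd t (R.conf X t).1)
  have h4 : tot R X (t + 1) = tot R X t + (R.rd t (R.conf X t).1).card :=
    Finset.sum_range_succ _ _
  have h5 := tot_mono R X (Nat.succ_le_of_lt ht)
  rw [cm_cnt]
  refine min_eq_left ?_
  have h6 : tot R X (t + 1) ≤ tot R X T := h5
  omega

end

/-- the sum over the inputs with a fixed final state with counters -/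
theorem fixq {V G : Type} [Fintype V] (R : SS (Fin L × Fin n) V G) (m s T k : ℕ)
    (f : (Fin n → Bool) → Bool) (B : ℝ) (hB : 0 ≤ B) (hm : ∀ X, tot R X T ≤ m)
    (hs : ∀ t v, (R.rd t v).card ≤ s) (hL : 1 ≤ L) (hk : 8 * m ≤ k * (n * L))
    (q : V × (Fin L → Fin (m + 1)))
    (hPT : ∀ (R' : SS (Fin n) (V × (Fin L → Fin (m + 1))) G)
        (c : V × (Fin L → Fin (m + 1)) → ℕ),
      (∀ t v, (R'.rd t v).card ≤ s) → c R'.start = 0 →
      (∀ x, ∀ t < T, c (R'.conf x (t + 1)).1 = c (R'.conf x t).1 +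
        (R'.rd t (R'.conf x t).1).card) →
      8 * c q ≤ k * n →
      |∑ x ∈ univ.filter (fun x : Fin n → Bool => (R'.conf x T).1 = q), sg (f x)| ≤ 2 ^ n * B) :
    |∑ X ∈ univ.filter (fun X : Fin L × Fin n → Bool => ((cm R m).conf X T).1 = q),
      ∏ l, sg (f (pt l X))| ≤ 2 ^ (L * n) * B := by
  have hB' : 0 ≤ 2 ^ (L * n) * B := by positivity
  by_cases hq : ∃ X, ((cm R m).conf X T).1 = q
  swap
  · have h1 : (univ.filter fun X : Fin L × Fin n → Bool => ((cm R m).conf X T).1 = q) = ∅ := by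
      rw [Finset.filter_eq_empty_iff]
      exact fun X _ h => hq ⟨X, h⟩
    rw [h1, Finset.sum_empty, abs_zero]
    exact hB'
  obtain ⟨X0, hX0⟩ := hq
  -- the point with few bits
  obtain ⟨l, hl⟩ : ∃ l : Fin L, 8 * (q.2 l : ℕ) ≤ k * n := by
    by_contra hcon
    push Not at hcon
    have h1 : ∑ l : Fin L, (k * n + 1) ≤ ∑ l, 8 * (q.2 l : ℕ) :=
      Finset.sum_le_sum fun l _ => hcon l
    have h2 := (sum_tot R m X0 T).trans (hm X0)
    rw [hX0] at h2
    rw [← Finset.mul_sum, Finset.sum_const, Finset.card_univ, Fintype.card_fin, smul_eq_mul] at h1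
    have h3 : L * (k * n + 1) = k * (n * L) + L := by ring
    omega
  -- the one-point bound
  have hone : ∀ y : Fin L × Fin n → Bool,
      |∑ x ∈ univ.filter (fun x : Fin n → Bool => ((one R m l y).conf x T).1 = q), sg (f x)| ≤
        2 ^ n * B := by
    intro y
    refine hPT (one R m l y) (fun v => (v.2 l : ℕ)) ?_ ?_ ?_ hl
    · intro t v
      show (univ.filter fun j : Fin n => (l, j) ∈ R.rd t v.1).card ≤ s
      rw [cnt_eq]
      exact (cnt_le _ _).trans (hs _ _)
    · rfl
    · intro x t ht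
      show (((one R m l y).conf x (t + 1)).1.2 l : ℕ) = (((one R m l y).conf x t).1.2 l : ℕ) +
        (univ.filter fun j : Fin n => (l, j) ∈ R.rd t ((one R m l y).conf x t).1.1).card
      rw [one_conf, one_conf, cnt_eq, (cm_eq R m (ext l y x) t).1]
      exact cm_add R m T _ (hm _) l t ht
  -- the sum
  have key : ∀ y : Fin L × Fin n → Bool,
      |∑ x : Fin n → Bool, (if ((cm R m).conf (ext l y x) T).1 = q then
        ∏ l', sg (f (pt l' (ext l y x))) else 0)| ≤ 2 ^ n * B := by
    intro y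
    have h1 : ∀ x : Fin n → Bool, (if ((cm R m).conf (ext l y x) T).1 = q then
        ∏ l', sg (f (pt l' (ext l y x))) else 0) =
        (∏ l' ∈ univ.erase l, sg (f (pt l' y))) *
          (if ((one R m l y).conf x T).1 = q then sg (f x) else 0) := by
      intro x
      rw [one_conf]
      by_cases hx : ((cm R m).conf (ext l y x) T).1 = q
      · rw [if_pos hx, if_pos hx, ← Finset.mul_prod_erase univ _ (Finset.mem_univ l), pt_ext,
          mul_comm]
        congr 1
        refine Finset.prod_congr rfl fun l' hl' => ?_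
        rw [pt_ext_ne l l' (Finset.ne_of_mem_erase hl')]
      · rw [if_neg hx, if_neg hx, mul_zero]
    rw [Finset.sum_congr rfl fun x _ => h1 x, ← Finset.mul_sum, abs_mul, Finset.abs_prod]
    have h2 : ∏ l' ∈ univ.erase l, |sg (f (pt l' y))| = 1 :=
      Finset.prod_eq_one fun l' _ => abs_sg _
    rw [h2, one_mul]
    have h3 := hone y
    rw [Finset.sum_filter] at h3
    exact h3
  have h1 := sum_ext l fun X : Fin L × Fin n → Bool =>
    if ((cm R m).conf X T).1 = q then ∏ l', sg (f (pt l' X)) else 0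
  rw [Finset.sum_filter]
  have h2 : |∑ y : Fin L × Fin n → Bool, ∑ x : Fin n → Bool,
      (if ((cm R m).conf (ext l y x) T).1 = q then
        ∏ l', sg (f (pt l' (ext l y x))) else 0)| ≤ 2 ^ (L * n) * (2 ^ n * B) := by
    refine (Finset.abs_sum_le_sum_abs _ _).trans ?_
    refine (Finset.sum_le_sum fun y _ => key y).trans ?_
    rw [Finset.sum_const, Finset.card_univ, nsmul_eq_mul]
    simp [mul_comm]
  rw [h1, abs_mul, abs_of_nonneg (by positivity : (0 : ℝ) ≤ 2 ^ n)] at h2
  have h3 : (0 : ℝ) < 2 ^ n := by positivity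
  have h4 : (2 : ℝ) ^ n * |∑ X : Fin L × Fin n → Bool,
      (if ((cm R m).conf X T).1 = q then ∏ l', sg (f (pt l' X)) else 0)| ≤
      2 ^ n * (2 ^ (L * n) * B) := by
    calc _ ≤ 2 ^ (L * n) * (2 ^ n * B) := h2
      _ = _ := by ring
  exact le_of_mul_le_mul_left h4 h3

end MLSx

open MLSx in
open Pool.Agent.PPL.MUL (pt) in
theorem t_MLS (hPTS : S_PTS) : S_MLS := by
  obtain ⟨A, hA⟩ := hPTS
  refine ⟨A, ?_⟩
  intro k hk n hn L V G _ R s T K f g hL hs hT hK hsn hf hg
  have hcard : Fintype.card (V × (Fin L → Fin (K + 1))) =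
      Fintype.card V * (K + 1) ^ L := by
    simp
  obtain ⟨W, hW⟩ : ∃ W : ℝ, W = (((T + 1) * (K + 1) ^ L * Fintype.card V : ℕ) : ℝ) := ⟨_, rfl⟩
  obtain ⟨D, hD⟩ : ∃ D : ℝ, D = (2 : ℝ) ^ (-((n : ℝ) / k ^ (A * k))) := ⟨_, rfl⟩
  have hD0 : 0 ≤ D := by
    rw [hD]
    positivity
  have hW0 : 0 ≤ W := by
    rw [hW]
    positivity
  have hW' : (((T + 1) * Fintype.card (V × (Fin L → Fin (K + 1))) : ℕ) : ℝ) = W := by
    rw [hcard, hW]
    push_cast
    ring
  have hfix : ∀ q : V × (Fin L → Fin (K + 1)),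
      |∑ X ∈ univ.filter (fun X : Fin L × Fin n → Bool => ((cm R K).conf X T).1 = q),
        ∏ l, sg (f (pt l X))| ≤ 2 ^ (L * n) * (W ^ k ^ A * D) := by
    intro q
    refine fixq R K s T k f (W ^ k ^ A * D) (by positivity) hT hs hL hK q ?_
    intro R' c h1 h2 h3 h4
    have h5 := hA k hk n hn (V × (Fin L → Fin (K + 1))) G R' c s T q f h1 h2 h3 h4 hsn hf
    rw [hW', ← hD] at h5
    refine le_trans ?_ (h5.trans (le_of_eq (by ring)))
    refine le_of_eq (congrArg abs ?_)
    rw [Finset.sum_filter, Finset.sum_filter]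
    refine Finset.sum_congr rfl fun x _ => ?_
    by_cases hx : (R'.conf x T).1 = q
    · rw [if_pos hx, if_pos hx]
    · rw [if_neg hx, if_neg hx]
  have hsum : ∑ X : Fin L × Fin n → Bool, g (R.conf X T).1 * ∏ l, sg (f fun j => X (l, j)) =
      ∑ q : V × (Fin L → Fin (K + 1)), g q.1 *
        ∑ X ∈ univ.filter (fun X : Fin L × Fin n → Bool => ((cm R K).conf X T).1 = q),
          ∏ l, sg (f (pt l X)) := by
    rw [← Finset.sum_fiberwise_of_maps_to (s := univ) (t := univ)
      (g := fun X : Fin L × Fin n → Bool => ((cm R K).conf X T).1) (fun X _ => Finset.mem_univ _)]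
    refine Finset.sum_congr rfl fun q _ => ?_
    rw [Finset.mul_sum]
    refine Finset.sum_congr rfl fun X hX => ?_
    rw [Finset.mem_filter] at hX
    rw [← hX.2, (cm_eq R K X T).1]
    rfl
  rw [hsum]
  refine (Finset.abs_sum_le_sum_abs _ _).trans ?_
  have h1 : ∀ q : V × (Fin L → Fin (K + 1)), |g q.1 *
        ∑ X ∈ univ.filter (fun X : Fin L × Fin n → Bool => ((cm R K).conf X T).1 = q),
          ∏ l, sg (f (pt l X))| ≤ 2 ^ (L * n) * (W ^ k ^ A * D) := by
    intro q
    rw [abs_mul]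
    calc |g q.1| * _ ≤ 1 * (2 ^ (L * n) * (W ^ k ^ A * D)) :=
          mul_le_mul (hg q.1) (hfix q) (abs_nonneg _) zero_le_one
      _ = _ := one_mul _
  refine (Finset.sum_le_sum fun q _ => h1 q).trans ?_
  rw [Finset.sum_const, Finset.card_univ, nsmul_eq_mul, ← hW, ← hD]
  have h2 : (Fintype.card (V × (Fin L → Fin (K + 1))) : ℝ) ≤ W := by
    rw [← hW']
    push_cast
    have : (0 : ℝ) ≤ Fintype.card (V × (Fin L → Fin (K + 1))) := Nat.cast_nonneg _
    have hT0 : (0 : ℝ) ≤ T := Nat.cast_nonneg _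
    nlinarith
  calc (Fintype.card (V × (Fin L → Fin (K + 1))) : ℝ) * (2 ^ (L * n) * (W ^ k ^ A * D))
      ≤ W * (2 ^ (L * n) * (W ^ k ^ A * D)) := mul_le_mul_of_nonneg_right h2 (by positivity)
    _ = W ^ (k ^ A + 1) * 2 ^ (L * n) * D := by ring

end Pool.Agent.PPS
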