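import Pool.Agent.PPS.St1

/-!
# Project PPS, module NUM: the number of the canonical pieces
-/

set_option autoImplicit false

open Finset
open scoped Classical

namespace Pool.Agent.PPS

namespace NUM

variable {n : ℕ} {V G : Type}

/-- the sum of all amounts -/
def tot (S : Lv V G) : ℕ := S.a + (S.fr.map fun p => p.2.2).sum

/-- a step of the simulation, if the machine does not pop the empty stack -/
lemma raw_spec (R : SS (Fin n) V G) (x : Fin n → Bool) (t : ℕ) (S : Lv V G) (l : List G)
    (hl : l = S.fr.map Prod.fst) (hne : l = [] → ∀ h, R.op t S.v x ≠ Op.pop h) :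
    ∃ S', raw R x t S = some S' ∧ ((R.op t S.v x).app l).1 = S'.v ∧
      ((R.op t S.v x).app l).2 = S'.fr.map Prod.fst ∧
      tot S' = tot S + (R.rd t S.v).card := by
  cases hop : R.op t S.v x with
  | stay v =>
    refine ⟨⟨v, S.fr, S.st, S.a + (R.rd t S.v).card⟩, ?_, rfl, hl, ?_⟩
    · unfold raw
      rw [hop]
    · unfold tot
      dsimp only
      omega
  | push v g =>
    refine ⟨⟨v, (g, S.st, S.a + (R.rd t S.v).card) :: S.fr, t + 1, 0⟩, ?_, rfl, ?_, ?_⟩
    · unfold raw
      rw [hop]
    · rw [hl]
      rfl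
    · unfold tot
      dsimp only
      rw [List.map_cons, List.sum_cons]
      dsimp only
      omega
  | pop h =>
    obtain ⟨v, fr, st, a⟩ := S
    cases fr with
    | nil => exact absurd hop (hne hl h)
    | cons p fr =>
      obtain ⟨g, st', a'⟩ := p
      refine ⟨⟨h (some g), fr, st', a' + (a + (R.rd t v).card)⟩, ?_, ?_, ?_, ?_⟩
      · unfold raw
        dsimp only at hop ⊢
        rw [hop]
      · rw [hl]
        rfl
      · rw [hl]
        rfl
      · unfold tot
        dsimp only
        rw [List.map_cons, List.sum_cons]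
        dsimp only
        omega

lemma main (R : SS (Fin n) V G) (c : V → ℕ) (w0 T : ℕ) (x : Fin n → Bool) (hT : Tame R T)
    (hc : ∀ t < T, c (R.conf x (t + 1)).1 = c (R.conf x t).1 + (R.rd t (R.conf x t).1).card) :
    ∀ t ≤ T, (R.conf x t).1 = (can R w0 x t).v ∧
      (R.conf x t).2 = (can R w0 x t).fr.map Prod.fst ∧
      tot (can R w0 x t) + ((range t).filter fun t => rc R w0 x t ≠ none).card * w0 ≤
        c (R.conf x t).1 := by
  intro t
  induction t with
  | zero =>
    intro _
    refine ⟨rfl, rfl, ?_⟩
    rw [range_zero, filter_empty, card_empty, zero_mul, add_zero]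
    exact Nat.zero_le _
  | succ t ih =>
    intro ht
    obtain ⟨h1, h2, h3⟩ := ih (by omega)
    have hne : (R.conf x t).2 = [] → ∀ h, R.op t (can R w0 x t).v x ≠ Op.pop h := by
      intro h h'
      rw [← h1]
      exact (hT x).2 t (by omega) h h'
    obtain ⟨S', hS, hv, hl, htot⟩ := raw_spec R x t (can R w0 x t) (R.conf x t).2 h2 hne
    have hconf : R.conf x (t + 1) = (R.op t (can R w0 x t).v x).app (R.conf x t).2 := by
      rw [← h1]
      rfl
    have hcan : can R w0 x (t + 1) =
        if w0 ≤ S'.a then (⟨S'.v, S'.fr, t + 1, 0⟩ : Lv V G) else S' := by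
      have h : can R w0 x (t + 1) = cst R w0 x t (can R w0 x t) := rfl
      rw [h]
      unfold cst
      rw [hS]
    have hrc : rc R w0 x t = if w0 ≤ S'.a then some S'.st else none := by
      unfold rc
      rw [hS]
    have hct := hc t (by omega)
    rw [hconf, hv, h1] at hct
    rw [hconf, hv, hl, hct]
    rw [h1] at h3
    rw [range_add_one, filter_insert]
    by_cases hw : w0 ≤ S'.a
    · rw [if_pos hw] at hcan hrc
      have h4 : rc R w0 x t ≠ none := by
        rw [hrc]
        exact Option.some_ne_none _
      rw [if_pos h4, hcan, card_insert_of_notMem (by simp)]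
      refine ⟨rfl, rfl, ?_⟩
      have h5 : tot (⟨S'.v, S'.fr, t + 1, 0⟩ : Lv V G) + S'.a = tot S' := by
        unfold tot
        dsimp only
        omega
      rw [add_mul, one_mul]
      omega
    · rw [if_neg hw] at hcan hrc
      rw [if_neg (fun h => h hrc), hcan]
      refine ⟨rfl, rfl, ?_⟩
      omega

end NUM

theorem t_NUM : S_NUM := by
  intro n V G R c w0 T x hT _ _ hc
  have h := (NUM.main R c w0 T x hT hc T le_rfl).2.2
  exact le_trans (Nat.le_add_left _ _) h

end Pool.Agent.PPS
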