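import Pool.Agent.PPS.St2
import Pool.Agent.PPL.PT

/-!
# Project PPS: one point, one final state

`t_PTS` from `PPL.S_ONE` (one trace) and `S_TRX` (traces of a machine with a stack).
-/

set_option autoImplicit false

open Finset

namespace Pool.Agent.PPS

open Pool.Agent.PPL (sg Auto)
open Pool.Agent.PPL.PTx (sum_parts Auto_mono r_le r_le4)

namespace PTSx

theorem w0_lt {r m c : ℕ} (hr : 1 ≤ r) (hc : 8 * c ≤ m) : c < r * (m / (8 * r) + 1) := by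
  have h1 : m < 8 * r * (m / (8 * r) + 1) := Nat.lt_mul_div_succ m (by omega)
  have h2 : 8 * r * (m / (8 * r) + 1) = 8 * (r * (m / (8 * r) + 1)) := by ring
  omega

theorem rw_le {r k n s : ℕ} (hk : 2 ≤ k) (h1 : 4 * r ≤ n) (h2 : 4 * (r * s) ≤ n) :
    r * (2 * (k * n / (8 * r) + 1 + s)) ≤ k * n := by
  have h3 : 8 * r * (k * n / (8 * r)) ≤ k * n := Nat.mul_div_le _ _
  have h4 : 4 * (r * (2 * (k * n / (8 * r) + 1 + s))) =
      8 * r * (k * n / (8 * r)) + 8 * r + 8 * (r * s) := by ring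
  have h5 : 2 * n ≤ k * n := Nat.mul_le_mul_right n hk
  omega

/-- the number of segments is small -/
theorem r_seven {k A : ℕ} (hk : 2 ≤ k) (hA : 48 ≤ A) :
    6 * (2 ^ 42 * k ^ 4) + 1 ≤ k ^ (A * k) := by
  have h1 := r_le hk
  have h2 : 1 ≤ k ^ 46 := Nat.one_le_pow _ _ (by omega)
  have h3 : 7 ≤ k ^ 3 := by
    calc 7 ≤ 2 ^ 3 := by norm_num
      _ ≤ k ^ 3 := Nat.pow_le_pow_left hk 3
  calc 6 * (2 ^ 42 * k ^ 4) + 1 ≤ 7 * k ^ 46 := by omega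
    _ ≤ k ^ 3 * k ^ 46 := Nat.mul_le_mul_right _ h3
    _ = k ^ 49 := by rw [← pow_add]
    _ ≤ k ^ (A * k) := Nat.pow_le_pow_right (by omega) (by nlinarith)

theorem r_two {k A : ℕ} (hk : 2 ≤ k) (hA : 48 ≤ A) : 2 * (2 ^ 42 * k ^ 4) ≤ k ^ A := by
  have h1 := r_le hk
  calc 2 * (2 ^ 42 * k ^ 4) ≤ k * k ^ 46 := Nat.mul_le_mul hk h1
    _ = k ^ 47 := by rw [← pow_succ']
    _ ≤ k ^ A := Nat.pow_le_pow_right (by omega) (by omega)

/-- the constant -/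
theorem six_pow {n r K1 K D : ℕ} (hD : 6 * r + 1 ≤ D) (hK : K = K1 * D) (hK1 : 0 < K1)
    (hn : K ≤ n) :
    (6 : ℝ) ^ (2 * r) * (2 : ℝ) ^ (-((n : ℝ) / K1)) ≤ (2 : ℝ) ^ (-((n : ℝ) / K)) := by
  have hD0 : 0 < D := by omega
  have hK0 : 0 < K := by rw [hK]; exact Nat.mul_pos hK1 hD0
  have hK0' : (0 : ℝ) < K := by exact_mod_cast hK0
  have hK1' : (0 : ℝ) < K1 := by exact_mod_cast hK1
  have h1 : (6 : ℝ) ^ (2 * r) ≤ (2 : ℝ) ^ ((6 * r : ℕ) : ℝ) := by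
    rw [Real.rpow_natCast]
    calc (6 : ℝ) ^ (2 * r) ≤ (8 : ℝ) ^ (2 * r) := pow_le_pow_left₀ (by norm_num) (by norm_num) _
      _ = (2 : ℝ) ^ (6 * r) := by
          rw [show (8 : ℝ) = 2 ^ 3 by norm_num, ← pow_mul]
          congr 1
          ring
  have h2 : (n : ℝ) / K1 = (n : ℝ) / K * D := by
    rw [hK]
    push_cast
    have : (D : ℝ) ≠ 0 := by exact_mod_cast hD0.ne'
    field_simp
  have h3 : (1 : ℝ) ≤ (n : ℝ) / K := by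
    rw [le_div_iff₀ hK0', one_mul]
    exact_mod_cast hn
  have h4 : (6 * r : ℝ) + 1 ≤ D := by exact_mod_cast hD
  have hr0 : (0 : ℝ) ≤ r := Nat.cast_nonneg r
  have h5 : (6 * r : ℝ) + (n : ℝ) / K ≤ (n : ℝ) / K1 := by
    rw [h2]
    nlinarith
  calc (6 : ℝ) ^ (2 * r) * (2 : ℝ) ^ (-((n : ℝ) / K1))
      ≤ (2 : ℝ) ^ ((6 * r : ℕ) : ℝ) * (2 : ℝ) ^ (-((n : ℝ) / K1)) :=
        mul_le_mul_of_nonneg_right h1 (Real.rpow_nonneg (by norm_num) _)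
    _ = (2 : ℝ) ^ (((6 * r : ℕ) : ℝ) + -((n : ℝ) / K1)) := by
        rw [← Real.rpow_add (by norm_num)]
    _ ≤ (2 : ℝ) ^ (-((n : ℝ) / K)) := by
        apply Real.rpow_le_rpow_of_exponent_le (by norm_num)
        push_cast
        linarith

theorem card_le {T v r m c : ℕ} (hv : 1 ≤ v) (hm : 2 * r ≤ m)
    (hc : c ≤ ((2 * T + 1) * (2 * v + 1)) ^ (2 * r)) :
    (c : ℝ) ≤ (6 : ℝ) ^ (2 * r) * (((T + 1) * v : ℕ) : ℝ) ^ m := by
  have h1 : (2 * T + 1) * (2 * v + 1) ≤ 6 * ((T + 1) * v) := by nlinarith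
  have h2 : 1 ≤ (T + 1) * v := Nat.mul_pos (by omega) hv
  have h3 : c ≤ 6 ^ (2 * r) * ((T + 1) * v) ^ m := by
    calc c ≤ ((2 * T + 1) * (2 * v + 1)) ^ (2 * r) := hc
      _ ≤ (6 * ((T + 1) * v)) ^ (2 * r) := Nat.pow_le_pow_left h1 _
      _ = 6 ^ (2 * r) * ((T + 1) * v) ^ (2 * r) := mul_pow _ _ _
      _ ≤ 6 ^ (2 * r) * ((T + 1) * v) ^ m :=
          Nat.mul_le_mul_left _ (Nat.pow_le_pow_right h2 hm)
  exact_mod_cast h3

end PTSx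

open scoped Classical

open PTSx in
theorem t_PTS (h1 : PPL.S_ONE) (h2 : S_TRX) : S_PTS := by
  obtain ⟨A1, hA1⟩ := h1
  refine ⟨A1 + 48, ?_⟩
  intro k hk n hn V G _ R c s T q f hs hc0 hc hcq hsn hf
  have hk0 : 0 < k := by omega
  have hkR : (1 : ℝ) ≤ (k : ℝ) := by exact_mod_cast (by omega : 1 ≤ k)
  have hexp : A1 * k ≤ (A1 + 48) * k := Nat.mul_le_mul_right k (by omega)
  have hn1 : k ^ (A1 * k) ≤ n := (Nat.pow_le_pow_right hk0 hexp).trans hn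
  have hdiv : (n : ℝ) / k ^ ((A1 + 48) * k) ≤ (n : ℝ) / k ^ (A1 * k) :=
    div_le_div_of_nonneg_left (Nat.cast_nonneg n) (by positivity) (pow_le_pow_right₀ hkR hexp)
  have hf1 : Auto f ((n : ℝ) / k ^ (A1 * k)) := Auto_mono hf hdiv
  have h4 : 4 * (2 ^ 42 * k ^ 4) ≤ k ^ ((A1 + 48) * k) := r_le4 hk (by omega)
  have h5 : 2 * (2 ^ 42 * k ^ 4) ≤ k ^ (A1 + 48) := r_two hk (by omega)
  have h7 : 6 * (2 ^ 42 * k ^ 4) + 1 ≤ k ^ (48 * k) := r_seven hk le_rfl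
  have h8 : k ^ ((A1 + 48) * k) = k ^ (A1 * k) * k ^ (48 * k) := by
    rw [← pow_add]
    congr 1
    ring
  have hsn' : s * k ^ ((A1 + 48) * k) ≤ n := by
    have hp : (0 : ℝ) < (k : ℝ) ^ ((A1 + 48) * k) := by positivity
    rw [le_div_iff₀ hp] at hsn
    exact_mod_cast hsn
  have hr1 : 1 ≤ 2 ^ 42 * k ^ 4 := Nat.mul_pos (by norm_num) (pow_pos hk0 4)
  have hK10 : 0 < k ^ (A1 * k) := pow_pos hk0 _
  have hsix := six_pow (n := n) h7 h8 hK10 hn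
  have key := fun U E => hA1 k hk n hn1 (2 ^ 42 * k ^ 4)
    (2 * (k * n / (8 * (2 ^ 42 * k ^ 4)) + 1 + s)) U E f rfl
  push_cast at hsix
  generalize hrdef : 2 ^ 42 * k ^ 4 = r at h4 h5 h7 hr1 key hsix
  generalize hKdef : k ^ ((A1 + 48) * k) = K at h4 hn hsn'
  have h6 : 4 * (r * s) ≤ n := by
    calc 4 * (r * s) = s * (4 * r) := by ring
      _ ≤ s * K := Nat.mul_le_mul_left s h4
      _ ≤ n := hsn'
  obtain ⟨ι, hι, U, E, hcard, hseg, hpart⟩ := h2 n V G R c s T r (k * n / (8 * r) + 1) q hr1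
    (Nat.le_add_left 1 _) hs hc0 hc (w0_lt hr1 hcq)
  have hsum := sum_parts (fun x : Fin n → Bool => (R.conf x T).1 = q)
    (fun (i : ι) (x : Fin n → Bool) => ∀ j, E i j x) (fun x => sg (f x))
    (fun x => (hpart x).1) (fun x => (hpart x).2)
  have hterm : ∀ i : ι, |∑ x ∈ univ.filter (fun x : Fin n → Bool => ∀ j, E i j x), sg (f x)| ≤
      2 ^ n * (2 : ℝ) ^ (-((n : ℝ) / k ^ (A1 * k))) := fun i =>
    key (U i) (E i) (hseg i) (rw_le hk (h4.trans hn) h6) hf1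
  rw [hsum]
  have hcard3 : (Fintype.card ι : ℝ) ≤
      (6 : ℝ) ^ (2 * r) * (((T + 1) * Fintype.card V : ℕ) : ℝ) ^ k ^ (A1 + 48) :=
    card_le (Fintype.card_pos_iff.2 ⟨R.start⟩) h5 hcard
  have hX0 : (0 : ℝ) ≤ (((T + 1) * Fintype.card V : ℕ) : ℝ) ^ k ^ (A1 + 48) := by positivity
  calc |∑ i, ∑ x ∈ univ.filter (fun x : Fin n → Bool => ∀ j, E i j x), sg (f x)|
      ≤ ∑ i, |∑ x ∈ univ.filter (fun x : Fin n → Bool => ∀ j, E i j x), sg (f x)| :=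
        Finset.abs_sum_le_sum_abs _ _
    _ ≤ ∑ _i : ι, 2 ^ n * (2 : ℝ) ^ (-((n : ℝ) / k ^ (A1 * k))) :=
        Finset.sum_le_sum fun i _ => hterm i
    _ = Fintype.card ι * (2 ^ n * (2 : ℝ) ^ (-((n : ℝ) / k ^ (A1 * k)))) := by
        rw [Finset.sum_const, Finset.card_univ, nsmul_eq_mul]
    _ ≤ ((6 : ℝ) ^ (2 * r) * (((T + 1) * Fintype.card V : ℕ) : ℝ) ^ k ^ (A1 + 48)) *
          (2 ^ n * (2 : ℝ) ^ (-((n : ℝ) / k ^ (A1 * k)))) :=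
        mul_le_mul_of_nonneg_right hcard3 (by positivity)
    _ = (((T + 1) * Fintype.card V : ℕ) : ℝ) ^ k ^ (A1 + 48) * 2 ^ n *
          ((6 : ℝ) ^ (2 * r) * (2 : ℝ) ^ (-((n : ℝ) / k ^ (A1 * k)))) := by ring
    _ ≤ (((T + 1) * Fintype.card V : ℕ) : ℝ) ^ k ^ (A1 + 48) * 2 ^ n *
          (2 : ℝ) ^ (-((n : ℝ) / k ^ ((A1 + 48) * k))) :=
        mul_le_mul_of_nonneg_left hsix (by positivity)

end Pool.Agent.PPS
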