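import Pool.Agent.PPS.St1

/-!
# Project PPS, module TRW: the pieces of the runs of a tame machine
-/

set_option autoImplicit false

open Finset
open scoped Classical

namespace Pool.Agent.PPS

namespace TRWx

variable {n T : ℕ} {V G : Type}

/-- the pieces, read as a function on all starts -/
noncomputable def rdt (τ : Fin T → Option (V × Fin (T + 1) × V)) (u : ℕ) : Option (V × ℕ × V) :=
  if h : u < T then (τ ⟨u, h⟩).map fun p => (p.1, p.2.1.val, p.2.2) else none

lemma rdt_iff {τ : Fin T → Option (V × Fin (T + 1) × V)} {u e : ℕ} {v v' : V} :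
    rdt τ u = some (v, e, v') ↔
      ∃ (h : u < T) (he : e < T + 1), τ ⟨u, h⟩ = some (v, ⟨e, he⟩, v') := by
  unfold rdt
  constructor
  · intro h1
    split_ifs at h1 with h
    obtain ⟨p, hp, h2⟩ := Option.map_eq_some_iff.1 h1
    obtain ⟨p1, ⟨p2, h3⟩, p3⟩ := p
    simp only [Prod.mk.injEq] at h2
    obtain ⟨rfl, rfl, rfl⟩ := h2
    exact ⟨h, h3, hp⟩
  · rintro ⟨h, he, h1⟩
    rw [dif_pos h, h1]
    rfl

lemma rdt_inj {τ τ' : Fin T → Option (V × Fin (T + 1) × V)}
    (h : ∀ u v e v', rdt τ u = some (v, e, v') ↔ rdt τ' u = some (v, e, v')) : τ = τ' := by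
  have key : ∀ (u : Fin T) (p : V × Fin (T + 1) × V), τ u = some p ↔ τ' u = some p := by
    rintro ⟨u, hu⟩ ⟨v, ⟨e, he⟩, v'⟩
    have h1 := h u v e v'
    rw [rdt_iff, rdt_iff] at h1
    constructor
    · intro h2
      obtain ⟨h3, h4, h5⟩ := h1.1 ⟨hu, he, h2⟩
      exact h5
    · intro h2
      obtain ⟨h3, h4, h5⟩ := h1.2 ⟨hu, he, h2⟩
      exact h5
  funext u
  rcases h1 : τ u with _ | p
  · rcases h2 : τ' u with _ | p
    · rfl
    · rw [(key u p).2 h2] at h1
      cases h1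
  · exact ((key u p).1 h1).symm

/-- an enumeration of the pieces -/
lemma enum {Y : Type} [Fintype Y] {m : ℕ} (τ : Fin T → Option Y)
    (h : (univ.filter fun u => τ u ≠ none).card ≤ m) :
    ∃ g : Fin m → Option (Fin T × Y), ∀ x, (∃ i, g i = some x) ↔ τ x.1 = some x.2 := by
  obtain ⟨S, hS⟩ : ∃ S : Finset (Fin T × Y), S = univ.filter fun x => τ x.1 = some x.2 := ⟨_, rfl⟩
  have hmem : ∀ x, x ∈ S ↔ τ x.1 = some x.2 := fun x => by rw [hS]; simp
  have hc : S.card ≤ m := by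
    refine le_trans (card_le_card_of_injOn Prod.fst ?_ ?_) h
    · intro x hx
      rw [mem_coe, mem_filter]
      refine ⟨mem_univ _, ?_⟩
      rw [(hmem x).1 hx]
      exact Option.some_ne_none _
    · intro x hx y hy hxy
      have h1 := (hmem x).1 hx
      have h2 := (hmem y).1 hy
      rw [hxy, h2] at h1
      exact Prod.ext hxy (Option.some.inj h1).symm
  refine ⟨fun i => if hi : i.val < S.card then some (S.equivFin.symm ⟨i.val, hi⟩).1 else none,
    fun x => ?_⟩
  rw [← hmem]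
  constructor
  · rintro ⟨i, hi⟩
    beta_reduce at hi
    split_ifs at hi with h1
    rw [← Option.some.inj hi]
    exact (S.equivFin.symm ⟨i.val, h1⟩).2
  · intro hx
    refine ⟨⟨(S.equivFin ⟨x, hx⟩).val, (S.equivFin ⟨x, hx⟩).isLt.trans_le hc⟩, ?_⟩
    have h1 : (S.equivFin ⟨x, hx⟩).val < S.card := (S.equivFin ⟨x, hx⟩).isLt
    beta_reduce
    rw [dif_pos h1]
    have h2 : (⟨(S.equivFin ⟨x, hx⟩).val, h1⟩ : Fin S.card) = S.equivFin ⟨x, hx⟩ := rfl
    rw [h2, Equiv.symm_apply_apply]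

/-- the index set -/
abbrev Ix (T : ℕ) (V : Type) (m : ℕ) : Type :=
  {τ : Fin T → Option (V × Fin (T + 1) × V) // (univ.filter fun u => τ u ≠ none).card ≤ m}

/-- the enumeration -/
noncomputable def en [Fintype V] {m : ℕ} (τ : Ix T V m) :
    Fin m → Option (Fin T × V × Fin (T + 1) × V) := (enum τ.1 τ.2).choose

lemma en_spec [Fintype V] {m : ℕ} (τ : Ix T V m) (x : Fin T × V × Fin (T + 1) × V) :
    (∃ i, en τ i = some x) ↔ τ.1 x.1 = some x.2 := (enum τ.1 τ.2).choose_spec x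

lemma card_Ix [Fintype V] (m : ℕ) : Fintype.card (Ix T V m) ≤
    ((T + 1) * (Fintype.card V + 1)) ^ (2 * (m + 1)) := by
  have h1 : Fintype.card (Ix T V m) ≤
      Fintype.card (Fin m → Option (Fin T × V × Fin (T + 1) × V)) := by
    apply Fintype.card_le_of_injective (fun τ => en τ)
    intro τ τ' h
    have h' : en τ = en τ' := h
    apply Subtype.ext
    have key : ∀ (u : Fin T) (p : V × Fin (T + 1) × V), τ.1 u = some p ↔ τ'.1 u = some p := by
      intro u p
      rw [← en_spec τ (u, p), ← en_spec τ' (u, p), h']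
    funext u
    rcases h1 : τ.1 u with _ | p
    · rcases h2 : τ'.1 u with _ | p
      · rfl
      · rw [(key u p).2 h2] at h1
        cases h1
    · exact ((key u p).1 h1).symm
  refine h1.trans ?_
  rw [Fintype.card_fun, Fintype.card_option, Fintype.card_prod, Fintype.card_prod,
    Fintype.card_prod, Fintype.card_fin, Fintype.card_fin, Fintype.card_fin]
  generalize Fintype.card V = K
  have h2 : T * (K * ((T + 1) * K)) + 1 ≤ ((T + 1) * (K + 1)) ^ 2 := by
    have e1 : ((T + 1) * (K + 1)) ^ 2 = T * (K * ((T + 1) * K)) + (T + 1) * K ^ 2 +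
        (T + 1) ^ 2 * (2 * K) + (T ^ 2 + 2 * T) + 1 := by ring
    rw [e1]
    have e2 : 0 ≤ (T + 1) * K ^ 2 + (T + 1) ^ 2 * (2 * K) + (T ^ 2 + 2 * T) := Nat.zero_le _
    omega
  calc (T * (K * ((T + 1) * K)) + 1) ^ m ≤ (((T + 1) * (K + 1)) ^ 2) ^ m :=
        Nat.pow_le_pow_left h2 m
    _ = ((T + 1) * (K + 1)) ^ (2 * m) := by rw [← pow_mul]
    _ ≤ ((T + 1) * (K + 1)) ^ (2 * (m + 1)) :=
        Nat.pow_le_pow_right (Nat.mul_pos (Nat.succ_pos _) (Nat.succ_pos _)) (by omega)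

/-- the piece in the data -/
def pc (x : Fin T × V × Fin (T + 1) × V) : Pc V := ⟨x.1.val, x.2.1, x.2.2.1.val, x.2.2.2, False⟩

/-- the variables which are read by a piece -/
noncomputable def U1 (R : SS (Fin n) V G) (w0 b : ℕ) (τ : ℕ → Option (V × ℕ × V))
    (x : Fin n → Bool) : Option (Fin T × V × Fin (T + 1) × V) → Finset (Fin n)
  | none => ∅
  | some y => (sim R w0 b τ (pc y) x).2

/-- the piece is as it should be -/
def E1 (R : SS (Fin n) V G) (w0 b : ℕ) (τ : ℕ → Option (V × ℕ × V))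
    (x : Fin n → Bool) : Option (Fin T × V × Fin (T + 1) × V) → Prop
  | none => True
  | some y => Ok R w0 b τ (pc y) x

/-- the variables which are read by a segment -/
noncomputable def UU (R : SS (Fin n) V G) (w0 b : ℕ) (T : ℕ) (q : V) [Fintype V] {m : ℕ}
    (τ : Ix T V m) (j : Fin (m + 1)) (x : Fin n → Bool) : Finset (Fin n) :=
  Fin.cases (motive := fun _ => Finset (Fin n)) (sim R w0 b (rdt τ.1) ⟨0, R.start, T, q, True⟩ x).2
    (fun i => U1 R w0 b (rdt τ.1) x (en τ i)) j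

/-- the segment is as it should be -/
def EE (R : SS (Fin n) V G) (w0 b : ℕ) (T : ℕ) (q : V) [Fintype V] {m : ℕ}
    (τ : Ix T V m) (j : Fin (m + 1)) (x : Fin n → Bool) : Prop :=
  Fin.cases (motive := fun _ => Prop) (Ok R w0 b (rdt τ.1) ⟨0, R.start, T, q, True⟩ x)
    (fun i => E1 R w0 b (rdt τ.1) x (en τ i)) j

section

variable {R : SS (Fin n) V G} {w0 b : ℕ} {q : V} [Fintype V] {m : ℕ} {τ : Ix T V m}
  {x : Fin n → Bool}

lemma UU_zero : UU R w0 b T q τ 0 x = (sim R w0 b (rdt τ.1) ⟨0, R.start, T, q, True⟩ x).2 := by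
  unfold UU
  rw [Fin.cases_zero]

lemma UU_succ (i : Fin m) : UU R w0 b T q τ i.succ x = U1 R w0 b (rdt τ.1) x (en τ i) := by
  unfold UU
  rw [Fin.cases_succ]

lemma EE_zero : EE R w0 b T q τ 0 x ↔ Ok R w0 b (rdt τ.1) ⟨0, R.start, T, q, True⟩ x := by
  unfold EE
  rw [Fin.cases_zero]

lemma EE_succ (i : Fin m) : EE R w0 b T q τ i.succ x ↔ E1 R w0 b (rdt τ.1) x (en τ i) := by
  unfold EE
  rw [Fin.cases_succ]

end

lemma all_iff {R : SS (Fin n) V G} {w0 b : ℕ} {q : V} [Fintype V] {m : ℕ} {τ : Ix T V m}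
    {x : Fin n → Bool} : (∀ j, EE R w0 b T q τ j x) ↔ AllOk R w0 b (rdt τ.1) T q x := by
  constructor
  · intro h
    refine ⟨fun u v e v' hu => ?_, EE_zero.1 (h 0)⟩
    obtain ⟨h1, h2, h3⟩ := rdt_iff.1 hu
    obtain ⟨i, hi⟩ := (en_spec τ (⟨u, h1⟩, v, ⟨e, h2⟩, v')).2 h3
    have h4 := (EE_succ i).1 (h i.succ)
    rw [hi] at h4
    exact h4
  · intro h j
    induction j using Fin.cases with
    | zero => exact EE_zero.2 h.2
    | succ i =>
      rw [EE_succ]
      rcases hi : en τ i with _ | y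
      · trivial
      · obtain ⟨⟨u, hu⟩, v, ⟨e, he⟩, v'⟩ := y
        have h1 := (en_spec τ _).1 ⟨i, hi⟩
        exact h.1 u v e v' (rdt_iff.2 ⟨hu, he, h1⟩)

lemma seg (hGOL : S_GOL) (R : SS (Fin n) V G) (w0 b : ℕ) (q : V) [Fintype V] {m : ℕ}
    (τ : Ix T V m) : PPL.Seg b (UU R w0 b T q τ) (EE R w0 b T q τ) := by
  have hok : ∀ (p : Pc V) (x y : Fin n → Bool),
      sim R w0 b (rdt τ.1) p y = sim R w0 b (rdt τ.1) p x →
      (Ok R w0 b (rdt τ.1) p y ↔ Ok R w0 b (rdt τ.1) p x) := by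
    intro p x y h
    unfold Ok
    rw [h]
  constructor
  · intro j x
    induction j using Fin.cases with
    | zero =>
      rw [UU_zero]
      exact (hGOL n V G R w0 b (rdt τ.1) _ x x).1
    | succ i =>
      rw [UU_succ]
      rcases en τ i with _ | y
      · exact Nat.zero_le _
      · exact (hGOL n V G R w0 b (rdt τ.1) _ x x).1
  · intro j x y hxy
    induction j using Fin.cases with
    | zero =>
      rw [UU_zero] at hxy
      have h1 := (hGOL n V G R w0 b (rdt τ.1) ⟨0, R.start, T, q, True⟩ x y).2 hxy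
      rw [UU_zero, UU_zero, EE_zero, EE_zero, h1]
      exact ⟨rfl, hok _ x y h1⟩
    | succ i =>
      rw [UU_succ] at hxy
      rw [UU_succ, UU_succ, EE_succ, EE_succ]
      rcases hi : en τ i with _ | z
      · exact ⟨rfl, Iff.rfl⟩
      · rw [hi] at hxy
        have h1 := (hGOL n V G R w0 b (rdt τ.1) (pc z) x y).2 hxy
        refine ⟨?_, hok _ x y h1⟩
        show (sim R w0 b (rdt τ.1) (pc z) y).2 = (sim R w0 b (rdt τ.1) (pc z) x).2
        rw [h1]

/-- the canonical pieces are a member of the index set -/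
lemma exists_can (hCAN : S_CAN) (hNUM : S_NUM) (R : SS (Fin n) V G) (c : V → ℕ)
    (s w0 m : ℕ) (q : V) (x : Fin n → Bool) (hT : Tame R T) (hw : 1 ≤ w0)
    (hs : ∀ t v, (R.rd t v).card ≤ s) (h0 : c R.start = 0)
    (hc : ∀ t < T, c (R.conf x (t + 1)).1 = c (R.conf x t).1 + (R.rd t (R.conf x t).1).card)
    (hcq : c q < (m + 1) * w0) (hq : (R.conf x T).1 = q) :
    ∃ τ : Ix T V m, ∀ u v e v', rdt τ.1 u = some (v, e, v') ↔ Cut R w0 T x u v e v' := by
  obtain ⟨-, -, -, -, -, -, h7, h8, -⟩ := hCAN n V G R w0 T s x hT hw hs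
  have hnum := hNUM n V G R c w0 T x hT hw h0 hc
  rw [hq] at hnum
  have hm : ((range T).filter fun t => rc R w0 x t ≠ none).card ≤ m := by
    by_contra hlt
    rw [not_le] at hlt
    have : (m + 1) * w0 ≤ ((range T).filter fun t => rc R w0 x t ≠ none).card * w0 :=
      Nat.mul_le_mul_right _ hlt
    omega
  obtain ⟨τ, hτ⟩ : ∃ τ : Fin T → Option (V × Fin (T + 1) × V), τ = fun u =>
      if h : ∃ t, t < T ∧ rc R w0 x t = some u.val then
        some ((can R w0 x u.val).v, ⟨h.choose + 1, Nat.succ_lt_succ h.choose_spec.1⟩,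
          (can R w0 x (h.choose + 1)).v) else none := ⟨_, rfl⟩
  have hval : ∀ (u : Fin T) (t : ℕ) (ht : t < T), rc R w0 x t = some u.val →
      τ u = some ((can R w0 x u.val).v, ⟨t + 1, Nat.succ_lt_succ ht⟩,
        (can R w0 x (t + 1)).v) := by
    intro u t ht h
    have hex : ∃ t, t < T ∧ rc R w0 x t = some u.val := ⟨t, ht, h⟩
    have heq : hex.choose = t :=
      h8 _ hex.choose_spec.1 t ht u.val hex.choose_spec.2 h
    rw [hτ]
    beta_reduce
    rw [dif_pos hex]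
    have key : ∀ (a b : ℕ) (ha : a + 1 < T + 1) (hb : b + 1 < T + 1), a = b →
        (some ((can R w0 x u.val).v, (⟨a + 1, ha⟩ : Fin (T + 1)), (can R w0 x (a + 1)).v)) =
          some ((can R w0 x u.val).v, (⟨b + 1, hb⟩ : Fin (T + 1)), (can R w0 x (b + 1)).v) := by
      rintro a b ha hb rfl
      rfl
    exact key _ _ _ _ heq
  have hnone : ∀ u : Fin T, τ u ≠ none → ∃ t, t < T ∧ rc R w0 x t = some u.val := by
    intro u h
    rw [hτ] at h
    by_contra hn
    exact h (dif_neg hn)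
  refine ⟨⟨τ, ?_⟩, ?_⟩
  · refine le_trans (card_le_card_of_injOn
      (fun u => if h : ∃ t, t < T ∧ rc R w0 x t = some u.val then h.choose else 0) ?_ ?_) hm
    · intro u hu
      have h1 := hnone u (mem_filter.1 (mem_coe.1 hu)).2
      rw [mem_coe, mem_filter]
      beta_reduce
      rw [dif_pos h1]
      refine ⟨mem_range.2 h1.choose_spec.1, ?_⟩
      rw [h1.choose_spec.2]
      exact Option.some_ne_none _
    · intro u hu u' hu' huu
      have h1 := hnone u (mem_filter.1 (mem_coe.1 hu)).2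
      have h2 := hnone u' (mem_filter.1 (mem_coe.1 hu')).2
      beta_reduce at huu
      rw [dif_pos h1, dif_pos h2] at huu
      have h3 := h1.choose_spec.2
      rw [huu, h2.choose_spec.2] at h3
      exact Fin.ext (Option.some.inj h3).symm
  · intro u v e v'
    rw [rdt_iff]
    constructor
    · rintro ⟨hu, he, h1⟩
      obtain ⟨t, ht, h2⟩ := hnone ⟨u, hu⟩ (by
        show τ ⟨u, hu⟩ ≠ none
        rw [show τ ⟨u, hu⟩ = _ from h1]
        exact Option.some_ne_none _)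
      have h3 := hval ⟨u, hu⟩ t ht h2
      have h4 : τ ⟨u, hu⟩ = some (v, ⟨e, he⟩, v') := h1
      rw [h4] at h3
      have h5 := Option.some.inj h3
      simp only [Prod.mk.injEq, Fin.mk.injEq] at h5
      obtain ⟨h6, h9, h10⟩ := h5
      exact ⟨t, ht, h9, h2, h6, by rw [h9]; exact h10⟩
    · rintro ⟨t, ht, rfl, h2, rfl, rfl⟩
      obtain ⟨h3, -⟩ := h7 t ht u h2
      exact ⟨lt_of_le_of_lt h3 ht, Nat.succ_lt_succ ht, hval ⟨u, lt_of_le_of_lt h3 ht⟩ t ht h2⟩

end TRWx

open TRWx in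
/-- **TRW**: the pieces of the runs of a tame machine. -/
theorem t_TRW (hGOL : S_GOL) (hCAN : S_CAN) (hNUM : S_NUM) (hEXI : S_EXI) (hUNI : S_UNI) :
    S_TRW := by
  intro n V G _ R c s T r w0 q hT hr hw hs h0 hc hcq
  obtain ⟨m, rfl⟩ : ∃ m, r = m + 1 := ⟨r - 1, by omega⟩
  refine ⟨Ix T V m, inferInstance, fun τ => UU R w0 (2 * (w0 + s)) T q τ,
    fun τ => EE R w0 (2 * (w0 + s)) T q τ, card_Ix m, fun τ => seg hGOL R w0 _ q τ, fun x => ?_⟩
  have huni : ∀ τ : Ix T V m, (∀ j, EE R w0 (2 * (w0 + s)) T q τ j x) →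
      (∀ u v e v', rdt τ.1 u = some (v, e, v') ↔ Cut R w0 T x u v e v') ∧
        (R.conf x T).1 = q := by
    intro τ h
    refine hUNI n V G R w0 T s (2 * (w0 + s)) q (rdt τ.1) x hT hw hs ?_ (all_iff.1 h)
    intro u v e v' h1
    obtain ⟨-, h2, -⟩ := rdt_iff.1 h1
    exact Nat.lt_succ_iff.1 h2
  refine ⟨fun hq => ?_, ?_⟩
  · obtain ⟨τ, hτ⟩ := exists_can hCAN hNUM R c s w0 m q x hT hw hs h0 (hc x) hcq hq
    refine ⟨τ, ?_, ?_⟩
    · have h1 := hEXI n V G R w0 T s (rdt τ.1) x hT hw hs hτ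
      rw [hq] at h1
      exact all_iff.2 h1
    · intro τ' h'
      have h1 := (huni τ' h').1
      exact Subtype.ext (rdt_inj fun u v e v' => (h1 u v e v').trans (hτ u v e v').symm)
  · rintro ⟨τ, h⟩
    exact (huni τ h).2

end Pool.Agent.PPS
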