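import Pool.Agent.PPS.St1

/-!
# PPS_TRX: traces for all machines with a stack (bottom marks, emptying)
-/

set_option autoImplicit false

open Finset
open scoped Classical

namespace Pool.Agent.PPS

namespace TRX

variable {n : ℕ} {V G : Type}

/-- the stack with the marks of the lowest letter -/
def mks : List G → List (G × Bool)
  | [] => []
  | g :: l => (g, l.isEmpty) :: mks l

/-- the new state after a pop -/
def hp (h : Option G → V) : Option (G × Bool) → V × Bool
  | none => (h none, true)
  | some (g, b) => (h (some g), b)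

/-- what the new machine does before time `T` -/
def opB (p : V × Bool) : Op V G → Op (V × Bool) (G × Bool)
  | Op.stay v => Op.stay (v, p.2)
  | Op.push v g => Op.push (v, false) (g, p.2)
  | Op.pop h => if p.2 = true then Op.stay (h none, true) else Op.pop (hp h)

/-- what the new machine does from time `T` on -/
def opE (p : V × Bool) : Op (V × Bool) (G × Bool) :=
  if p.2 = true then Op.stay p else Op.pop (hp fun _ => p.1)

/-- the new machine -/
noncomputable def R2 (R : SS (Fin n) V G) (T : ℕ) : SS (Fin n) (V × Bool) (G × Bool) where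
  start := (R.start, true)
  rd t p := if t < T then R.rd t p.1 else ∅
  op t p x := if t < T then opB p (R.op t p.1 x) else opE p
  loc := by
    intro t p x y h
    by_cases ht : t < T
    · simp only [if_pos ht] at h ⊢
      rw [R.loc t p.1 x y h]
    · simp only [if_neg ht]

theorem app_opB (v : V) (l : List G) (o : Op V G) :
    (opB (v, l.isEmpty) o).app (mks l) =
      (((o.app l).1, (o.app l).2.isEmpty), mks (o.app l).2) := by
  cases o with
  | stay v' => rfl
  | push v' g => rfl
  | pop h =>
    cases l with
    | nil => rfl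
    | cons g l => rfl

theorem app_opE (v : V) (l : List G) :
    (opE (v, l.isEmpty)).app (mks l) = ((v, l.tail.isEmpty), mks l.tail) := by
  cases l with
  | nil => rfl
  | cons g l => rfl

theorem conf_le (R : SS (Fin n) V G) (T : ℕ) (x : Fin n → Bool) : ∀ t ≤ T,
    (R2 R T).conf x t = (((R.conf x t).1, (R.conf x t).2.isEmpty), mks (R.conf x t).2) := by
  intro t
  induction t with
  | zero => intro _; rfl
  | succ t ih =>
    intro ht
    have h1 := ih (by omega)
    have h2 : (R2 R T).conf x (t + 1) =
        ((R2 R T).op t ((R2 R T).conf x t).1 x).app ((R2 R T).conf x t).2 := rfl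
    have h3 : (R2 R T).op t ((R.conf x t).1, (R.conf x t).2.isEmpty) x =
        opB ((R.conf x t).1, (R.conf x t).2.isEmpty) (R.op t (R.conf x t).1 x) :=
      if_pos (by omega : t < T)
    rw [h2, h1]
    show ((R2 R T).op t ((R.conf x t).1, (R.conf x t).2.isEmpty) x).app _ = _
    rw [h3, app_opB]
    rfl

theorem conf_add (R : SS (Fin n) V G) (T : ℕ) (x : Fin n → Bool) (i : ℕ) :
    (R2 R T).conf x (T + i) = (((R.conf x T).1, ((R.conf x T).2.drop i).isEmpty),
      mks ((R.conf x T).2.drop i)) := by
  induction i with
  | zero => exact conf_le R T x T le_rfl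
  | succ i ih =>
    have h2 : (R2 R T).conf x (T + (i + 1)) =
        ((R2 R T).op (T + i) ((R2 R T).conf x (T + i)).1 x).app ((R2 R T).conf x (T + i)).2 := rfl
    have h3 : ∀ p, (R2 R T).op (T + i) p x = opE p := fun p =>
      if_neg (by omega : ¬ T + i < T)
    rw [h2, h3, ih]
    show (opE ((R.conf x T).1, ((R.conf x T).2.drop i).isEmpty)).app _ = _
    rw [app_opE, List.tail_drop]

theorem len (R : SS (Fin n) V G) (x : Fin n → Bool) (t : ℕ) :
    (R.conf x t).2.length ≤ t := by
  induction t with
  | zero => exact le_rfl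
  | succ t ih =>
    have h2 : R.conf x (t + 1) = (R.op t (R.conf x t).1 x).app (R.conf x t).2 := rfl
    rw [h2]
    generalize R.op t (R.conf x t).1 x = o
    revert ih
    generalize (R.conf x t).2 = l
    intro ih
    cases o with
    | stay v => exact Nat.le_succ_of_le ih
    | push v g => exact Nat.succ_le_succ ih
    | pop h =>
      cases l with
      | nil => exact Nat.zero_le _
      | cons g l =>
        simp only [Op.app, List.length_cons] at ih ⊢
        omega

theorem mks_nil {l : List G} (h : mks l = []) : l = [] := by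
  cases l with
  | nil => rfl
  | cons g l => simp [mks] at h

theorem opB_ne (v : V) (o : Op V G) (h : Option (G × Bool) → V × Bool) :
    opB (v, true) o ≠ Op.pop h := by
  cases o with
  | stay v' => intro h; simp [opB] at h
  | push v' g => intro h; simp [opB] at h
  | pop h' => intro h; simp [opB] at h

theorem opE_ne (v : V) (h : Option (G × Bool) → V × Bool) :
    opE (v, true) ≠ Op.pop h := by
  intro h
  simp [opE] at h

theorem conf_two (R : SS (Fin n) V G) (T : ℕ) (x : Fin n → Bool) :
    (R2 R T).conf x (2 * T) = (((R.conf x T).1, true), []) := by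
  have h1 := conf_add R T x T
  rw [List.drop_of_length_le (len R x T)] at h1
  rw [two_mul, h1]
  rfl

theorem tame (R : SS (Fin n) V G) (T : ℕ) : Tame (R2 R T) (2 * T) := by
  intro x
  refine ⟨by rw [conf_two], ?_⟩
  intro t _ ht h
  by_cases htT : t < T
  · have h1 := conf_le R T x t htT.le
    rw [h1] at ht ⊢
    have h2 : (R.conf x t).2 = [] := mks_nil ht
    have h3 : (R2 R T).op t ((R.conf x t).1, (R.conf x t).2.isEmpty) x =
        opB ((R.conf x t).1, (R.conf x t).2.isEmpty) (R.op t (R.conf x t).1 x) :=
      if_pos htT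
    show (R2 R T).op t ((R.conf x t).1, (R.conf x t).2.isEmpty) x ≠ _
    rw [h3, h2]
    exact opB_ne _ _ _
  · obtain ⟨i, rfl⟩ := Nat.exists_eq_add_of_le (not_lt.mp htT)
    have h1 := conf_add R T x i
    rw [h1] at ht ⊢
    have h2 : (R.conf x T).2.drop i = [] := mks_nil ht
    have h3 : ∀ p, (R2 R T).op (T + i) p x = opE p := fun p => if_neg htT
    rw [h3]
    show opE ((R.conf x T).1, ((R.conf x T).2.drop i).isEmpty) ≠ _
    rw [h2]
    exact opE_ne _ _

end TRX

open TRX in
theorem t_TRX (hTRW : S_TRW) : S_TRX := by
  intro n V G _ R c s T r w0 q hr hw hs hc0 hc hq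
  obtain ⟨ι, hι, U, E, h1, h2, h3⟩ := hTRW n (V × Bool) (G × Bool) (R2 R T) (c ∘ Prod.fst) s
    (2 * T) r w0 (q, true) (tame R T) hr hw
    (by
      intro t v
      by_cases ht : t < T
      · have e : (R2 R T).rd t v = R.rd t v.1 := if_pos ht
        rw [e]
        exact hs t v.1
      · have e : (R2 R T).rd t v = ∅ := if_neg ht
        rw [e]
        exact Nat.zero_le _)
    hc0
    (by
      intro x t ht
      by_cases htT : t < T
      · have e : ∀ v, (R2 R T).rd t v = R.rd t v.1 := fun v => if_pos htT
        rw [e, conf_le R T x t htT.le, conf_le R T x (t + 1) htT]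
        exact hc x t htT
      · obtain ⟨i, rfl⟩ := Nat.exists_eq_add_of_le (not_lt.mp htT)
        have e : ∀ v, (R2 R T).rd (T + i) v = ∅ := fun v => if_neg htT
        rw [e, add_assoc, conf_add R T x i, conf_add R T x (i + 1)]
        rfl)
    hq
  refine ⟨ι, hι, U, E, ?_, h2, ?_⟩
  · have e : Fintype.card (V × Bool) = 2 * Fintype.card V := by
      rw [Fintype.card_prod, Fintype.card_bool, mul_comm]
    rw [e] at h1
    exact h1
  · intro x
    obtain ⟨h4, h5⟩ := h3 x
    rw [conf_two] at h4 h5
    refine ⟨fun h => h4 (by rw [h]), fun h => ?_⟩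
    exact (Prod.mk.inj (h5 h)).1

end Pool.Agent.PPS
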