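import Pool.Agent.PPS.St1

/-!
# Project PPS, module UNI: only the canonical pieces are as they should be
-/

set_option autoImplicit false

open Finset
open scoped Classical

namespace Pool.Agent.PPS

namespace UNIx

variable {n : ℕ} {V G : Type}

/-- the same with the frames `F` below -/
def add (S : Lv V G) (F : List (G × ℕ × ℕ)) : Lv V G := ⟨S.v, S.fr ++ F, S.st, S.a⟩

theorem raw_add {R : SS (Fin n) V G} {x : Fin n → Bool} {t : ℕ} {S S' : Lv V G}
    (F : List (G × ℕ × ℕ)) (h : raw R x t S = some S') :
    raw R x t (add S F) = some (add S' F) := by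
  obtain ⟨v, fr, st, a⟩ := S
  unfold raw at h ⊢
  unfold add
  simp only at h ⊢
  cases hop : R.op t v x with
  | stay v' =>
    simp only [hop, Option.some.injEq] at h ⊢
    subst h
    rfl
  | push v' g =>
    simp only [hop, Option.some.injEq] at h ⊢
    subst h
    rfl
  | pop f =>
    simp only [hop] at h ⊢
    cases fr with
    | nil => simp at h
    | cons c fr =>
      obtain ⟨g, st', a'⟩ := c
      simp only [Option.some.injEq] at h
      subst h
      rfl

theorem pend_add (S : Lv V G) (F : List (G × ℕ × ℕ)) :
    pend (add S F) = pend S ++ F.map (fun p => p.2.1) := by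
  unfold pend add
  simp

theorem pend_ne (S : Lv V G) : pend S ≠ [] := by
  unfold pend
  simp

/-- the starts of the pending levels after a step -/
theorem pend_raw {R : SS (Fin n) V G} {x : Fin n → Bool} {t : ℕ} {S S' : Lv V G}
    (h : raw R x t S = some S') :
    pend S' = pend S ∨ pend S' = (t + 1) :: pend S ∨ pend S = S.st :: pend S' := by
  obtain ⟨v, fr, st, a⟩ := S
  unfold raw at h
  simp only at h
  cases hop : R.op t v x with
  | stay v' =>
    simp only [hop, Option.some.injEq] at h
    subst h
    exact Or.inl rfl
  | push v' g =>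
    simp only [hop, Option.some.injEq] at h
    subst h
    exact Or.inr (Or.inl rfl)
  | pop f =>
    simp only [hop] at h
    cases fr with
    | nil => simp at h
    | cons c fr =>
      obtain ⟨g, st', a'⟩ := c
      simp only [Option.some.injEq] at h
      subst h
      exact Or.inr (Or.inr rfl)

theorem last_cons (y : ℕ) {l : List ℕ} (hl : l ≠ []) : (y :: l).getLast? = l.getLast? := by
  cases l with
  | nil => exact absurd rfl hl
  | cons z l => rfl

theorem pend_last {R : SS (Fin n) V G} {x : Fin n → Bool} {t : ℕ} {S S' : Lv V G}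
    (h : raw R x t S = some S') : (pend S').getLast? = (pend S).getLast? := by
  rcases pend_raw h with h1 | h1 | h1
  · rw [h1]
  · rw [h1, last_cons _ (pend_ne S)]
  · rw [h1, last_cons _ (pend_ne S')]

/-- the facts about the canonical process which we use -/
structure CF (R : SS (Fin n) V G) (w0 T : ℕ) (x : Fin n → Bool) : Prop where
  c1 : ∀ t ≤ T, (R.conf x t).1 = (can R w0 x t).v
  c3 : ∀ t, (can R w0 x t).st ≤ t ∧ (pend (can R w0 x t)).Pairwise (· > ·)
  c4 : ∀ t, (can R w0 x t).a < w0
  c5 : ∀ u t t', u ≤ t → t ≤ t' → u ∈ pend (can R w0 x t') → u ∈ pend (can R w0 x t)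
  c6 : ∀ u t, u ≤ t → u ∈ pend (can R w0 x t) → (can R w0 x u).st = u ∧ (can R w0 x u).a = 0
  c7 : ∀ t < T, ∀ u, rc R w0 x t = some u → u ≤ t ∧ u ∈ pend (can R w0 x t) ∧
    (can R w0 x (t + 1)).st = t + 1 ∧ (can R w0 x (t + 1)).a = 0 ∧
    (can R w0 x (t + 1)).fr = (can R w0 x u).fr
  c8 : ∀ t < T, ∀ t' < T, ∀ u, rc R w0 x t = some u → rc R w0 x t' = some u → t = t'

variable {R : SS (Fin n) V G} {w0 T : ℕ} {x : Fin n → Bool}

theorem CF.of (h : S_CAN) {s : ℕ} (hT : Tame R T) (hw : 1 ≤ w0)
    (hs : ∀ t v, (R.rd t v).card ≤ s) : CF R w0 T x := by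
  obtain ⟨h1, -, h3, h4, h5, h6, h7, h8, -⟩ := h n V G R w0 T s x hT hw hs
  exact ⟨fun t ht => (h1 t ht).1, h3, fun t => (h4 t).1, h5,
    fun u t hu hp => ⟨(h6 u t hu hp).1, (h6 u t hu hp).2.1⟩, h7, h8⟩

/-- a start of a complete piece is not pending any more -/
theorem CF.done (hc : CF R w0 T x) {t0 t w : ℕ} (h0 : t0 < T) (h : rc R w0 x t0 = some w)
    (ht : t0 < t) : w ∉ pend (can R w0 x t) := by
  intro hw
  obtain ⟨h1, h2, h3, -, h5⟩ := hc.c7 t0 h0 w h
  have h6 := hc.c5 w (t0 + 1) t (by omega) (by omega) hw
  have h7 := (hc.c6 w t0 h1 h2).1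
  have h8 := (hc.c3 w).2
  unfold pend at h6 h8
  rw [h3, h5] at h6
  rw [h7] at h8
  rw [List.mem_cons] at h6
  rcases h6 with h6 | h6
  · omega
  · have := List.rel_of_pairwise_cons h8 h6
    omega

/-- no piece starts at `w` -/
theorem CF.nocut (hc : CF R w0 T x) {t w : ℕ} (hw : w ≤ t)
    (h1 : w ∉ pend (can R w0 x (t + 1))) (h2 : rc R w0 x t ≠ some w)
    (h3 : w ∈ pend (can R w0 x t) ∨ w = t) : ∀ t0 < T, rc R w0 x t0 ≠ some w := by
  intro t0 h0 h
  obtain ⟨h4, h5, -⟩ := hc.c7 t0 h0 w h
  rcases lt_trichotomy t0 t with h6 | h6 | h6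
  · rcases h3 with h3 | h3
    · exact hc.done h0 h h6 h3
    · omega
  · exact h2 (h6 ▸ h)
  · exact h1 (hc.c5 w (t + 1) t0 (by omega) (by omega) h5)

/-- `τ` agrees with the canonical pieces at the start `w` -/
def Agr (R : SS (Fin n) V G) (w0 T : ℕ) (x : Fin n → Bool) (τ : ℕ → Option (V × ℕ × V))
    (w : ℕ) : Prop :=
  ∀ v e v', τ w = some (v, e, v') ↔ Cut R w0 T x w v e v'

theorem agr_none {τ : ℕ → Option (V × ℕ × V)} {w : ℕ} (h : τ w = none)
    (h' : ∀ t0 < T, rc R w0 x t0 ≠ some w) : Agr R w0 T x τ w := by
  intro v e v'
  rw [h]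
  constructor
  · intro h1
    simp at h1
  · rintro ⟨t, h1, -, h2, -⟩
    exact absurd h2 (h' t h1)

theorem can_succ_lt {t : ℕ} {S' : Lv V G} (h : raw R x t (can R w0 x t) = some S')
    (ha : S'.a < w0) : can R w0 x (t + 1) = S' ∧ rc R w0 x t = none := by
  constructor
  · show cst R w0 x t (can R w0 x t) = S'
    unfold cst
    rw [h]
    simp only
    rw [if_neg (by omega)]
  · unfold rc
    rw [h]
    simp only
    rw [if_neg (by omega)]

theorem can_succ_ge {t : ℕ} {S' : Lv V G} (h : raw R x t (can R w0 x t) = some S')
    (ha : w0 ≤ S'.a) : can R w0 x (t + 1) = ⟨S'.v, S'.fr, t + 1, 0⟩ ∧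
      rc R w0 x t = some S'.st := by
  constructor
  · show cst R w0 x t (can R w0 x t) = _
    unfold cst
    rw [h]
    simp only
    rw [if_pos ha]
  · unfold rc
    rw [h]
    simp only
    rw [if_pos ha]

/-- the simulation of a piece follows the canonical process -/
theorem inner (hc : CF R w0 T x) {τ : ℕ → Option (V × ℕ × V)} {p : Pc V} (hT : p.t₂ ≤ T)
    (hroot : p.root → p.t₂ = T) (F : List (G × ℕ × ℕ)) (l : ℕ)
    (hl1 : ∀ w, l ≤ w → ¬ (w = p.t₁ ∧ ¬ p.root))
    (hl2 : ∀ w ∈ F.map (fun p => p.2.1), w < l)
    (hrec : ∀ t v e v', τ t = some (v, e, v') → ¬ (t = p.t₁ ∧ ¬ p.root) → p.t₁ ≤ t → t < e →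
      e ≤ p.t₂ → ∀ F', can R w0 x t = ⟨v, F', t, 0⟩ →
        (∀ w, t < w → w < e → Agr R w0 T x τ w) ∧ (can R w0 x e).v = v' ∧
          rc R w0 x (e - 1) = some t) :
    ∀ (k t : ℕ) (S : Lv V G) (sk b : ℕ) (Sf : Lv V G), t + k = p.t₂ → max t sk ≤ p.t₂ →
      p.t₁ ≤ t → can R w0 x (max t sk) = add S F →
      (¬ p.root → (pend S).getLast? = some p.t₁) →
      (∀ w, l ≤ w → w < max t sk → w ∉ pend S → Agr R w0 T x τ w) →
      (∀ w, l ≤ w → w < max t sk → w ∈ pend S → τ w = none) →
      (go R w0 τ p x k t S sk b).1 = some Sf → Sf.fr = [] → (¬ p.root → w0 ≤ Sf.a) →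
      (∀ w, l ≤ w → w < p.t₂ → Agr R w0 T x τ w) ∧ (can R w0 x p.t₂).v = Sf.v ∧
        (¬ p.root → rc R w0 x (p.t₂ - 1) = some p.t₁) := by
  intro k
  induction k with
  | zero =>
    intro t S sk b Sf hk hm _ hcan _ hagr hnone hgo hfr ha
    have hm' : max t sk = p.t₂ := by omega
    rw [hm'] at hcan hagr hnone
    have hS : S = Sf := by
      simpa [go] using hgo
    subst hS
    have hr : p.root := by
      by_contra hr
      have h1 := ha hr
      have h2 := hc.c4 p.t₂
      rw [hcan] at h2
      have h3 : (add S F).a = S.a := rfl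
      omega
    refine ⟨fun w hw hw' => ?_, ?_, fun h => absurd hr h⟩
    · by_cases hp : w ∈ pend S
      · refine agr_none (hnone w hw hw' hp) fun t0 h0 h => ?_
        refine hc.done h0 h (t := p.t₂) (by rw [hroot hr]; exact h0) ?_
        rw [hcan, pend_add]
        exact List.mem_append_left _ hp
      · exact hagr w hw hw' hp
    · rw [hcan]
      rfl
  | succ k ih =>
    intro t S sk b Sf hk hm h1t hcan hlast hagr hnone hgo hfr ha
    rw [go] at hgo
    by_cases hsk : t < sk
    · rw [if_pos hsk] at hgo
      have e : max (t + 1) sk = max t sk := by omega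
      refine ih (t + 1) S sk b Sf (by omega) (by omega) (by omega) ?_ hlast ?_ ?_ hgo hfr ha
      · rw [e]
        exact hcan
      · rw [e]
        exact hagr
      · rw [e]
        exact hnone
    rw [if_neg hsk] at hgo
    have hmt : max t sk = t := by omega
    rw [hmt] at hcan hagr hnone
    have hpw := (hc.c3 t).2
    have hst := (hc.c3 t).1
    rcases hτ : (if t = p.t₁ ∧ ¬ p.root then none else τ t) with _ | ⟨v, e, v'⟩
    · -- a step of the machine
      rw [hτ] at hgo
      simp only at hgo
      have hτt : l ≤ t → τ t = none := by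
        intro hlt
        rw [if_neg (hl1 t hlt)] at hτ
        exact hτ
      by_cases hb : (R.rd t S.v).card ≤ b
      swap
      · rw [if_neg hb] at hgo
        simp at hgo
      rw [if_pos hb] at hgo
      rcases hraw : raw R x t S with _ | S'
      · rw [hraw] at hgo
        simp at hgo
      rw [hraw] at hgo
      simp only at hgo
      by_cases hcond : cond w0 p (t + 1) S'
      swap
      · rw [if_neg hcond] at hgo
        simp at hgo
      rw [if_pos hcond] at hgo
      simp only at hgo
      have hraw' : raw R x t (can R w0 x t) = some (add S' F) := by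
        rw [hcan]
        exact raw_add F hraw
      have hlast' : ¬ p.root → (pend S').getLast? = some p.t₁ := by
        intro hr
        rw [pend_last hraw]
        exact hlast hr
      have key : ∀ w, l ≤ w → w < t + 1 → w ∉ pend (can R w0 x (t + 1)) →
          rc R w0 x t ≠ some w → Agr R w0 T x τ w := by
        intro w hw hw' h1 h2
        by_cases hwt : w = t
        · subst hwt
          exact agr_none (hτt hw) (hc.nocut le_rfl h1 h2 (Or.inr rfl))
        · by_cases hp : w ∈ pend S
          · refine agr_none (hnone w hw (by omega) hp) (hc.nocut (by omega) h1 h2 (Or.inl ?_))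
            rw [hcan, pend_add]
            exact List.mem_append_left _ hp
          · exact hagr w hw (by omega) hp
      by_cases haS : w0 ≤ S'.a
      · -- the piece ends
        obtain ⟨hr, ht2, hfr'⟩ := hcond.1 haS
        have hk0 : k = 0 := by omega
        subst hk0
        have hS : S' = Sf := by
          simpa [go] using hgo
        subst hS
        obtain ⟨g1, g2⟩ := can_succ_ge hraw' (show w0 ≤ (add S' F).a from haS)
        have hst' : S'.st = p.t₁ := by
          have h1 := hlast' hr
          unfold pend at h1
          rw [hfr'] at h1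
          simpa using h1
        have g3 : rc R w0 x t = some p.t₁ := by
          rw [g2]
          exact congrArg some hst'
        have e1 : p.t₂ - 1 = t := by omega
        refine ⟨fun w hw hw' => ?_, ?_, fun _ => ?_⟩
        · refine key w hw (by omega) ?_ ?_
          · rw [g1]
            unfold pend add
            rw [hfr', List.nil_append, List.mem_cons]
            rintro (h | h)
            · have h' : w = t + 1 := h
              omega
            · have := hl2 w h
              omega
          · rw [g3]
            intro h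
            rw [Option.some.injEq] at h
            exact hl1 w hw ⟨h.symm, hr⟩
        · rw [← ht2, g1]
          rfl
        · rw [e1]
          exact g3
      · -- the piece goes on
        obtain ⟨g1, g2⟩ := can_succ_lt hraw' (show (add S' F).a < w0 from by
          show S'.a < w0
          omega)
        have hm1 : max (t + 1) 0 = t + 1 := by omega
        refine ih (t + 1) S' 0 _ Sf (by omega) (by omega) (by omega) ?_ hlast' ?_ ?_ hgo hfr ha
        · rw [hm1]
          exact g1
        · rw [hm1]
          intro w hw hw' hp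
          refine key w hw hw' ?_ ?_
          · rw [g1, pend_add, List.mem_append]
            rintro (h | h)
            · exact hp h
            · have := hl2 w h
              omega
          · rw [g2]
            simp
        · rw [hm1]
          intro w hw hw' hp
          by_cases hwt : w = t
          · subst hwt
            exact hτt hw
          · refine hnone w hw (by omega) ?_
            rcases pend_raw hraw with h | h | h
            · rw [← h]
              exact hp
            · rw [h, List.mem_cons] at hp
              rcases hp with hp | hp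
              · omega
              · exact hp
            · rw [h]
              exact List.mem_cons_of_mem _ hp
    · -- a jump over a piece
      rw [hτ] at hgo
      simp only at hgo
      have hnr : ¬ (t = p.t₁ ∧ ¬ p.root) := by
        intro h
        rw [if_pos h] at hτ
        simp at hτ
      rw [if_neg hnr] at hτ
      by_cases hj : S.st = t ∧ S.v = v ∧ t < e ∧ e ≤ p.t₂
      swap
      · rw [if_neg hj] at hgo
        simp at hgo
      rw [if_pos hj] at hgo
      obtain ⟨j1, j2, j3, j4⟩ := hj
      have hpt : t ∈ pend (can R w0 x t) := by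
        rw [hcan, pend_add]
        refine List.mem_append_left _ ?_
        unfold pend
        rw [j1]
        exact List.mem_cons_self
      have ha0 := (hc.c6 t t le_rfl hpt).2
      have hcan' : can R w0 x t = ⟨v, S.fr ++ F, t, 0⟩ := by
        have h1 : S.a = 0 := by
          rw [hcan] at ha0
          exact ha0
        rw [hcan]
        unfold add
        rw [j1, j2, h1]
      obtain ⟨r1, r2, r3⟩ := hrec t v e v' hτ hnr h1t j3 j4 (S.fr ++ F) hcan'
      have e1 : e - 1 + 1 = e := by omega
      obtain ⟨-, -, q3, q4, q5⟩ := hc.c7 (e - 1) (by omega) t r3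
      rw [e1] at q3 q4 q5
      have hcane : can R w0 x e = add ⟨v', S.fr, e, 0⟩ F := by
        have h1 : (can R w0 x t).fr = S.fr ++ F := by
          rw [hcan']
        rw [h1] at q5
        have h2 : can R w0 x e = ⟨(can R w0 x e).v, (can R w0 x e).fr, (can R w0 x e).st,
          (can R w0 x e).a⟩ := rfl
        rw [h2, r2, q3, q4, q5]
        rfl
      have hme : max (t + 1) e = e := by omega
      have hlow : ∀ w ∈ S.fr.map (fun p => p.2.1), w < t := by
        intro w hw
        rw [hcan', pend] at hpw
        simp only [List.map_append] at hpw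
        exact List.rel_of_pairwise_cons hpw (List.mem_append_left _ hw)
      have hagt : Agr R w0 T x τ t := by
        intro v1 e2 v2
        rw [hτ]
        constructor
        · intro h
          rw [Option.some.injEq, Prod.mk.injEq, Prod.mk.injEq] at h
          obtain ⟨h1, h2, h3⟩ := h
          subst h1 h2 h3
          refine ⟨e - 1, by omega, e1.symm, r3, ?_, r2.symm⟩
          rw [hcan']
        · rintro ⟨t0, h1, h2, h3, h4, h5⟩
          have h6 := hc.c8 t0 h1 (e - 1) (by omega) t h3 r3
          have h7 : e2 = e := by omega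
          subst h7
          rw [h4, h5, r2, hcan']
      refine ih (t + 1) ⟨v', S.fr, e, 0⟩ e b Sf (by omega) (by omega) (by omega) ?_ ?_ ?_ ?_ hgo
        hfr ha
      · rw [hme]
        exact hcane
      · intro hr
        have h1 := hlast hr
        unfold pend at h1 ⊢
        by_cases hfn : S.fr = []
        · exfalso
          rw [hfn] at h1
          have h2 : S.st = p.t₁ := by simpa using h1
          exact hnr ⟨by omega, hr⟩
        · have hne : S.fr.map (fun p => p.2.1) ≠ [] := by
            simpa using hfn
          rw [last_cons _ hne] at h1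
          show (e :: S.fr.map (fun p => p.2.1)).getLast? = some p.t₁
          rw [last_cons _ hne]
          exact h1
      · rw [hme]
        intro w hw hw' hp
        have hp' : w ∉ S.fr.map (fun p => p.2.1) := fun h => hp (by
          unfold pend
          exact List.mem_cons_of_mem _ h)
        rcases lt_trichotomy w t with h | h | h
        · refine hagr w hw h ?_
          unfold pend
          rw [List.mem_cons]
          rintro (h' | h')
          · omega
          · exact hp' h'
        · subst h
          exact hagt
        · exact r1 w h hw'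
      · rw [hme]
        intro w hw hw' hp
        unfold pend at hp
        rw [List.mem_cons] at hp
        rcases hp with hp | hp
        · simp only at hp
          omega
        · have h1 := hlow w hp
          refine hnone w hw h1 ?_
          unfold pend
          exact List.mem_cons_of_mem _ hp

/-- the pieces of `τ` -/
theorem outer (hc : CF R w0 T x) {τ : ℕ → Option (V × ℕ × V)} {b : ℕ}
    (hok : ∀ u v e v', τ u = some (v, e, v') → Ok R w0 b τ ⟨u, v, e, v', False⟩ x) :
    ∀ (L t : ℕ) (v : V) (e : ℕ) (v' : V), e - t ≤ L → τ t = some (v, e, v') → t < e → e ≤ T →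
      ∀ F', can R w0 x t = ⟨v, F', t, 0⟩ →
        (∀ w, t < w → w < e → Agr R w0 T x τ w) ∧ (can R w0 x e).v = v' ∧
          rc R w0 x (e - 1) = some t := by
  intro L
  induction L with
  | zero =>
    intro t v e v' hL _ hte
    omega
  | succ L ih =>
    intro t v e v' hL hτ hte heT F hcan
    obtain ⟨Sf, h1, h2, h3, h4⟩ := hok t v e v' hτ
    have hpw := (hc.c3 t).2
    rw [hcan, pend] at hpw
    have hin := inner hc (τ := τ) (p := ⟨t, v, e, v', False⟩) heT (fun h => h.elim) F (t + 1)
      (fun w hw h => by
        have : w = t := h.1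
        omega)
      (fun w hw => (List.rel_of_pairwise_cons hpw hw).trans (Nat.lt_succ_self t))
      (fun t' v1 e1 v1' hτ' hn ht' he' he2 F' hF' => by
        have hne : t' ≠ t := fun h => hn ⟨h, fun h => h⟩
        have h5 : t ≤ t' := ht'
        have h6 : e1 ≤ e := he2
        exact ih t' v1 e1 v1' (by omega) hτ' he' (by omega) F' hF')
      (e - t) t ⟨v, [], t, 0⟩ 0 b Sf (by
        show t + (e - t) = e
        omega) (by
        show max t 0 ≤ e
        omega) le_rfl (by
        have : max t 0 = t := by omega
        rw [this, hcan]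
        rfl) (fun _ => rfl)
      (fun w hw hw' => by omega)
      (fun w hw hw' => by omega)
      h1 h3 h4
    obtain ⟨g1, g2, g3⟩ := hin
    refine ⟨fun w hw hw' => g1 w hw hw', ?_, g3 (fun h => h)⟩
    exact g2.trans h2

end UNIx

open UNIx

theorem t_UNI (h : S_CAN) : S_UNI := by
  intro n V G R w0 T s b q τ x hT hw hs he hall
  have hc : CF R w0 T x := CF.of h hT hw hs
  obtain ⟨hok, Sf, h1, h2, h3, -⟩ := hall
  have hout := fun t v e v' => outer hc hok (e - t) t v e v' le_rfl
  obtain ⟨g1, g2, -⟩ := inner hc (τ := τ) (p := ⟨0, R.start, T, q, True⟩) le_rfl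
    (fun _ => rfl) [] 0 (fun w _ h => h.2 trivial) (fun w hw => by simp at hw)
    (fun t v e v' hτ _ _ hte heT F' hF' => hout t v e v' hτ hte heT F' hF')
    T 0 ⟨R.start, [], 0, 0⟩ 0 b Sf (by
      show 0 + T = T
      omega) (by
      show max 0 0 ≤ T
      omega) le_rfl rfl (fun h => absurd trivial h)
    (fun w hw hw' => by omega)
    (fun w hw hw' => by omega)
    h1 h3 (fun h => absurd trivial h)
  refine ⟨fun u => ?_, ?_⟩
  · by_cases hu : u < T
    · exact g1 u (Nat.zero_le _) hu
    · intro v e v'
      constructor
      · intro hτ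
        exfalso
        have heT := he u v e v' hτ
        obtain ⟨S, s1, -, -, s4⟩ := hok u v e v' hτ
        have hz : e - u = 0 := by omega
        have hs1 : (go R w0 τ ⟨u, v, e, v', False⟩ x (e - u) u ⟨v, [], u, 0⟩ 0 b).1 = some S := s1
        rw [hz] at hs1
        have hS : (⟨v, [], u, 0⟩ : Lv V G) = S := by
          simpa [go] using hs1
        have h4 := s4 (fun h => h)
        rw [← hS] at h4
        simp only at h4
        omega
      · rintro ⟨t0, c1, -, c3, -⟩
        have := (hc.c7 t0 c1 u c3).1
        omega
  · rw [hc.c1 T le_rfl]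
    exact g2.trans h2

end Pool.Agent.PPS
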