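import Pool.Agent.PPL.All
import Pool.Agent.PPS.GOL
import Pool.Agent.PPS.CAN
import Pool.Agent.PPS.NUM
import Pool.Agent.PPS.EXI
import Pool.Agent.PPS.UNI
import Pool.Agent.PPS.TRW
import Pool.Agent.PPS.TRX
import Pool.Agent.PPS.PTS
import Pool.Agent.PPS.MLS
import Pool.Agent.PPS.LWC
import Pool.Agent.PPS.MC
import Pool.Agent.PPS.AUXM

/-!
# Project PPS: the theorems
-/

set_option autoImplicit false

namespace Pool.Agent.PPS

open Pool.Agent.TKN.ONE (t_SIZ)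

theorem trx : S_TRX :=
  t_TRX (t_TRW t_GOL t_CAN t_NUM (t_EXI t_CAN) (t_UNI t_CAN))

theorem mls : S_MLS := t_MLS (t_PTS PPL.one trx)

theorem lwc : S_LWC := t_LWC mls PPL.gsd t_SIZ

theorem mc1 : S_MC1 := t_MC1 lwc PPL.t_AVG t_SIZ

theorem mc2 : S_MC2 := t_MC2 mc1 t_SIZ

end Pool.Agent.PPS
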