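import Pool.Agent.PPS.St2
import Pool.Agent.HPM.Modes

/-!
# Project PPS: automata which read one bit at a time are machines with a stack
-/

set_option autoImplicit false

open Finset

namespace Pool.Agent.PPS

namespace DECOx

open Pool.Agent.HPM (GMachs)

/-- a machine which reads one bit at a time, as a machine with a stack -/
def toSS {I V : Type} (M : GMachs 1 0 I V) : SS I V Unit where
  start := M.start
  rd t v := {M.query t v 0}
  op t v x := Op.stay (M.next t v (fun i => x (M.query t v i)) (fun _ => false))
  loc t v x y h := by
    have h1 : (fun i => x (M.query t v i)) = fun i => y (M.query t v i) := by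
      funext i
      have hi : i = 0 := Subsingleton.elim i 0
      subst hi
      exact h _ (Finset.mem_singleton_self _)
    show Op.stay _ = Op.stay _
    rw [h1]

theorem conf_eq {I V : Type} (M : GMachs 1 0 I V) (x : I → Bool) (t : ℕ) :
    (toSS M).conf x t = (M.state x (fun _ _ => false) t, []) := by
  induction t with
  | zero => rfl
  | succ t ih =>
    show ((toSS M).op t ((toSS M).conf x t).1 x).app ((toSS M).conf x t).2 = _
    rw [ih]
    rfl

end DECOx

/-- The automata with the states `V` which read one given bit at each time `t < T` are machines with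
a stack: they belong to `Mcs I T b` if there are at most `2 ^ b` nodes. -/
theorem mcs_of_decOs {I V : Type} [Fintype V] {T : ℕ} {σ : Fin T → Fin 1 → I} {b : ℝ}
    (hb : 1 ≤ b) (hN : (((T + 1) * Fintype.card V : ℕ) : ℝ) ≤ (2 : ℝ) ^ b)
    {L : (I → Bool) → Prop} (h : HPM.DecOs 1 I V T σ L) : Mcs I T b L := by
  obtain ⟨M, -, hM⟩ := h
  refine ⟨T, V, Unit, inferInstance, DECOx.toSS M, M.acc, hN, fun t v => ?_, fun x => ?_,
    fun x => ?_⟩
  · have h1 : ((DECOx.toSS M).rd t v).card = 1 := Finset.card_singleton _
    rw [h1]
    simpa using hb
  · have h1 : ∀ t, ((DECOx.toSS M).rd t ((DECOx.toSS M).conf x t).1).card = 1 := fun t =>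
      Finset.card_singleton _
    rw [Finset.sum_congr rfl fun t _ => h1 t, Finset.sum_const, Finset.card_range, smul_eq_mul,
      mul_one]
  · rw [DECOx.conf_eq]
    exact hM x

end Pool.Agent.PPS
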