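import Pool.Agent.PPL.St5

/-!
# Project PPS: deterministic machines with one unlimited stack

Correlation of deterministic Boolean machines with a stack of any size and any alphabet with the
function of project PPL. New are only the pieces of a run of a machine with a stack.
-/

set_option autoImplicit false

open Finset
open scoped Classical

namespace Pool.Agent.PPS

/-- what a machine does in a step: it changes its state to `v`, or it also pushes the letter `g`, or
it pops a letter and its new state depends on this letter (`none` if the stack is empty) -/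
inductive Op (V G : Type) : Type where
  | stay (v : V) : Op V G
  | push (v : V) (g : G) : Op V G
  | pop (h : Option G → V) : Op V G

/-- the new state and the new stack -/
def Op.app {V G : Type} : Op V G → List G → V × List G
  | Op.stay v, l => (v, l)
  | Op.push v g, l => (v, g :: l)
  | Op.pop h, [] => (h none, [])
  | Op.pop h, g :: l => (h (some g), l)

/-- A deterministic machine with a stack: at time `t` in state `v` it reads the input bits `rd t v`;
they determine what it does. -/
structure SS (P V G : Type) where
  /-- the initial state -/
  start : V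
  /-- the input bits read at time `t` in state `v` -/
  rd : ℕ → V → Finset P
  /-- what the machine does -/
  op : ℕ → V → (P → Bool) → Op V G
  /-- this only depends on the bits read -/
  loc : ∀ t v x y, (∀ p ∈ rd t v, x p = y p) → op t v x = op t v y

/-- the state and the stack after `t` steps -/
def SS.conf {P V G : Type} (R : SS P V G) (x : P → Bool) : ℕ → V × List G
  | 0 => (R.start, [])
  | t + 1 => (R.op t (R.conf x t).1 x).app (R.conf x t).2

section

variable {n : ℕ} {V G : Type}

/-! ## The canonical pieces of a run -/

/-- The state of the simulation of a run: the state of the machine, the letters above the bottom, each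
with the start and the amount of the level below it, and the start and the amount of the present
level. The amount is the number of the bits read since the start, without those in pieces. -/
structure Lv (V G : Type) where
  v : V
  fr : List (G × ℕ × ℕ)
  st : ℕ
  a : ℕ

/-- one step at time `t`; `none` if the machine pops and there is no letter above the bottom -/
noncomputable def raw (R : SS (Fin n) V G) (x : Fin n → Bool) (t : ℕ) (S : Lv V G) :
    Option (Lv V G) :=
  match R.op t S.v x with
  | Op.stay v => some ⟨v, S.fr, S.st, S.a + (R.rd t S.v).card⟩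
  | Op.push v g => some ⟨v, (g, S.st, S.a + (R.rd t S.v).card) :: S.fr, t + 1, 0⟩
  | Op.pop h => match S.fr with
    | [] => none
    | (g, st, a) :: fr => some ⟨h (some g), fr, st, a + (S.a + (R.rd t S.v).card)⟩

/-- a step of the canonical process: if the amount of the level is at least `w0` the piece is complete,
a new one starts -/
noncomputable def cst (R : SS (Fin n) V G) (w0 : ℕ) (x : Fin n → Bool) (t : ℕ) (S : Lv V G) :
    Lv V G :=
  match raw R x t S with
  | none => S
  | some S' => if w0 ≤ S'.a then ⟨S'.v, S'.fr, t + 1, 0⟩ else S'

/-- the canonical process -/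
noncomputable def can (R : SS (Fin n) V G) (w0 : ℕ) (x : Fin n → Bool) : ℕ → Lv V G
  | 0 => ⟨R.start, [], 0, 0⟩
  | t + 1 => cst R w0 x t (can R w0 x t)

/-- the start of the piece which is completed by the step at time `t`, if there is one -/
noncomputable def rc (R : SS (Fin n) V G) (w0 : ℕ) (x : Fin n → Bool) (t : ℕ) : Option ℕ :=
  match raw R x t (can R w0 x t) with
  | none => none
  | some S' => if w0 ≤ S'.a then some S'.st else none

/-- the starts of the pending levels -/
def pend (S : Lv V G) : List ℕ := S.st :: S.fr.map fun p => p.2.1

/-- There is a canonical piece from time `u` in state `v` to time `e ≤ T` in state `v'`. -/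
def Cut (R : SS (Fin n) V G) (w0 T : ℕ) (x : Fin n → Bool) (u : ℕ) (v : V) (e : ℕ) (v' : V) : Prop :=
  ∃ t, t < T ∧ e = t + 1 ∧ rc R w0 x t = some u ∧ v = (can R w0 x u).v ∧ v' = (can R w0 x e).v

/-- The machine never pops the empty stack, and the stack is empty at time `T`. -/
def Tame (R : SS (Fin n) V G) (T : ℕ) : Prop :=
  ∀ x, (R.conf x T).2 = [] ∧
    ∀ t < T, (R.conf x t).2 = [] → ∀ h, R.op t (R.conf x t).1 x ≠ Op.pop h

/-! ## The simulation of a piece, which jumps over the pieces inside it -/

/-- the data of a piece: time and state at its start and at its end; the root is the whole run -/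
structure Pc (V : Type) where
  t₁ : ℕ
  v₁ : V
  t₂ : ℕ
  v₂ : V
  root : Prop

/-- the condition after a step which leads to `S` at time `t`: the piece ends as soon as its amount is
at least `w0`, the amounts of the other levels stay below `w0` -/
def cond (w0 : ℕ) (p : Pc V) (t : ℕ) (S : Lv V G) : Prop :=
  (w0 ≤ S.a → ¬ p.root ∧ t = p.t₂ ∧ S.fr = []) ∧ (S.a < w0 → p.root ∨ t ≠ p.t₂)

/-- The simulation of the piece `p` for `k` steps from time `t` and `S`, if the pieces inside it are
given by `τ` (start ↦ state at the start, end, state at the end); `sk` is the end of the last piece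
over which we jump, and at most `b` bits are read. The result is the last `S` (or `none`) and the set
of the bits read. -/
noncomputable def go (R : SS (Fin n) V G) (w0 : ℕ) (τ : ℕ → Option (V × ℕ × V)) (p : Pc V)
    (x : Fin n → Bool) : ℕ → ℕ → Lv V G → ℕ → ℕ → Option (Lv V G) × Finset (Fin n)
  | 0, _, S, _, _ => (some S, ∅)
  | k + 1, t, S, sk, b =>
    if t < sk then go R w0 τ p x k (t + 1) S sk b else
    match (if t = p.t₁ ∧ ¬ p.root then none else τ t) with
    | some (v, e, v') =>
      if S.st = t ∧ S.v = v ∧ t < e ∧ e ≤ p.t₂ then go R w0 τ p x k (t + 1) ⟨v', S.fr, e, 0⟩ e b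
      else (none, ∅)
    | none =>
      if (R.rd t S.v).card ≤ b then
        match raw R x t S with
        | none => (none, R.rd t S.v)
        | some S' =>
          if cond w0 p (t + 1) S' then
            ((go R w0 τ p x k (t + 1) S' 0 (b - (R.rd t S.v).card)).1,
              R.rd t S.v ∪ (go R w0 τ p x k (t + 1) S' 0 (b - (R.rd t S.v).card)).2)
          else (none, R.rd t S.v)
      else (none, ∅)

/-- the simulation of the whole piece with at most `b` bits -/
noncomputable def sim (R : SS (Fin n) V G) (w0 b : ℕ) (τ : ℕ → Option (V × ℕ × V)) (p : Pc V)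
    (x : Fin n → Bool) : Option (Lv V G) × Finset (Fin n) :=
  go R w0 τ p x (p.t₂ - p.t₁) p.t₁ ⟨p.v₁, [], p.t₁, 0⟩ 0 b

/-- the simulation succeeds and ends as it should -/
def Ok (R : SS (Fin n) V G) (w0 b : ℕ) (τ : ℕ → Option (V × ℕ × V)) (p : Pc V)
    (x : Fin n → Bool) : Prop :=
  ∃ S, (sim R w0 b τ p x).1 = some S ∧ S.v = p.v₂ ∧ S.fr = [] ∧ (¬ p.root → w0 ≤ S.a)

/-- all pieces of `τ` and the root are as they should be -/
def AllOk (R : SS (Fin n) V G) (w0 b : ℕ) (τ : ℕ → Option (V × ℕ × V)) (T : ℕ) (q : V)
    (x : Fin n → Bool) : Prop :=
  (∀ u v e v', τ u = some (v, e, v') → Ok R w0 b τ ⟨u, v, e, v', False⟩ x) ∧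
    Ok R w0 b τ ⟨0, R.start, T, q, True⟩ x

end

end Pool.Agent.PPS
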