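import Pool.Agent.PPS.Defs

/-!
# Project PPS: statements, part 1 (pieces of the run of a machine with a stack)

Every module proves one `S_XXX` as `theorem Pool.Agent.PPS.t_XXX : S_XXX`, or, if it uses other
statements, `theorem t_XXX (h : S_YYY) ... : S_XXX` with exactly the hypotheses named in the
doc string, in this order; so nobody waits.

IDEA.  A level is the part of the run between a push and its pop. In each level we cut greedily: when
the amount (the number of the bits read since the start of the present piece of this level, without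
those in pieces of higher levels which are complete, but with the rest of the higher levels) is at
least `w0` after a step which ends on this level, the piece is complete and the next one starts. The
pieces inside a piece `p` can be jumped over; the simulation of `p` then reads at most `2 (w0 + s)`
bits. A set `τ` of pieces is the canonical one if and only if all simulations succeed.
-/

set_option autoImplicit false

open Finset
open scoped Classical

namespace Pool.Agent.PPS

/-- GOL.  The simulation reads at most `b` bits and depends only on them.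
Proof.  Induction on `k` for `go` (as `TRC.go_card`, `TRC.go_loc` in Pool/Agent/PPL/TRC.lean; if `x`, `y`
agree on `rd t S.v` then `raw R x t S = raw R y t S` by `R.loc`). -/
def S_GOL : Prop := ∀ (n : ℕ) (V G : Type) (R : SS (Fin n) V G) (w0 b : ℕ)
  (τ : ℕ → Option (V × ℕ × V)) (p : Pc V) (x y : Fin n → Bool),
  (sim R w0 b τ p x).2.card ≤ b ∧
    ((∀ v ∈ (sim R w0 b τ p x).2, x v = y v) → sim R w0 b τ p y = sim R w0 b τ p x)

/-- CAN.  Facts about the canonical process.
Proof.  (1), (3), (4) by induction on `t`. (2): a pop of the empty stack. (5): `pend (can (t + 1))` is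
contained in `(t + 1) :: pend (can t)`. (6) induction on `t` from `u`; `(can t).st = t` only at time `0`,
after a push or if a piece was completed, and then the amount is `0`; use (3). (7): `w0 ≤ S'.a`, so the
step was not a push: `stay`: `u = (can t).st`; `pop`: `u` is the start in the first frame; (6), (3).
(8): after the record at time `t` the start `u` is not pending, by (5) not later either.
(9): `stay`: `a + m`, `pop`: `a' + (a + m)`, with (4). -/
def S_CAN : Prop := ∀ (n : ℕ) (V G : Type) (R : SS (Fin n) V G) (w0 T s : ℕ) (x : Fin n → Bool),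
  Tame R T → 1 ≤ w0 → (∀ t v, (R.rd t v).card ≤ s) →
  (∀ t ≤ T, (R.conf x t).1 = (can R w0 x t).v ∧
    (R.conf x t).2 = (can R w0 x t).fr.map Prod.fst) ∧
  (∀ t < T, raw R x t (can R w0 x t) ≠ none) ∧
  (∀ t, (can R w0 x t).st ≤ t ∧ (pend (can R w0 x t)).Pairwise (· > ·)) ∧
  (∀ t, (can R w0 x t).a < w0 ∧ ∀ p ∈ (can R w0 x t).fr, p.2.2 < w0 + s) ∧
  (∀ u t t', u ≤ t → t ≤ t' → u ∈ pend (can R w0 x t') → u ∈ pend (can R w0 x t)) ∧
  (∀ u t, u ≤ t → u ∈ pend (can R w0 x t) → (can R w0 x u).st = u ∧ (can R w0 x u).a = 0 ∧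
    (((can R w0 x t).st = u ∧ (can R w0 x t).fr = (can R w0 x u).fr) ∨
      ∃ F g a, (can R w0 x t).fr = F ++ (g, u, a) :: (can R w0 x u).fr)) ∧
  (∀ t < T, ∀ u, rc R w0 x t = some u → u ≤ t ∧ u ∈ pend (can R w0 x t) ∧
    (can R w0 x (t + 1)).st = t + 1 ∧ (can R w0 x (t + 1)).a = 0 ∧
    (can R w0 x (t + 1)).fr = (can R w0 x u).fr) ∧
  (∀ t < T, ∀ t' < T, ∀ u, rc R w0 x t = some u → rc R w0 x t' = some u → t = t') ∧
  (∀ t < T, ∀ S', raw R x t (can R w0 x t) = some S' → S'.a ≤ 2 * (w0 + s))

/-- NUM.  The number of the canonical pieces.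
Proof.  Induction on `t`: the sum of all amounts (of the present level and of the frames) plus `w0`
times the number of the `t' < t` with `rc t' ≠ none` is at most `c (can t).v`; (1), (2) of CAN may be
proved again or used as hypothesis. -/
def S_NUM : Prop := ∀ (n : ℕ) (V G : Type) (R : SS (Fin n) V G) (c : V → ℕ) (w0 T : ℕ)
  (x : Fin n → Bool), Tame R T → 1 ≤ w0 → c R.start = 0 →
  (∀ t < T, c (R.conf x (t + 1)).1 = c (R.conf x t).1 + (R.rd t (R.conf x t).1).card) →
  ((range T).filter fun t => rc R w0 x t ≠ none).card * w0 ≤ c (R.conf x T).1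

/-- EXI (uses `S_CAN`).  The canonical pieces are as they should be.
Proof.  Let `(u, v, e, v')` be a canonical piece, `rc t0 = some u`, `e = t0 + 1`, `F = (can u).fr`, and
`D S` the sum of all amounts of `S`.  Claim: let `u ≤ t ≤ t0`, `sk ≤ t`,
`can t = ⟨S.v, S.fr ++ F, S.st, S.a⟩`, and `τ w = none` for all starts `w ≠ u`, `w < t` of `pend S`. Then
`D S ≤ A`, where `A ≤ 2 (w0 + s)` is the amount after the step `t0` (`raw`), and `go` for
`k = e - t` steps with budget `b ≥ A - D S` ends with `S_f.v = v'`, `S_f.fr = []`, `S_f.a = A`.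
Induction on `k`. (a) `t ≠ u` and `τ t = some (v1, e1, v1')`, a canonical piece: `(can t).st = t`,
`v1 = S.v`, amount `0`; `e1 < e`: otherwise `t` would be pending at time `e` by (5), but
`pend (can e)` consists of `e` and starts `< u`.  By (7) `can e1 = ⟨v1', S.fr ++ F, e1, 0⟩`; skip to
`e1`. (b) otherwise a step of the machine; it does not pop with `S.fr = []` since `u` is pending until
`t0` and is the start of the record at `t0`; `raw` for `S` and for `can t` agree. If `w0 ≤ S'.a` then
`rc t = some S'.st`; if `S'.st = u` then `t = t0` by (8), `S'.fr = []` by (7); otherwise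
`τ S'.st ≠ none`, but `S'.st` is a start `≠ u` of `pend S`, `< t` (or `= t`, then `τ t = none` by (b)): a
contradiction. If `S'.a < w0` then `t ≠ t0`. `D S' = D S + m`; by induction `D S' ≤ A`, so `m ≤ b`.
The root: the same with `F = []`, `e = T`, all starts `w`, no record of a start of `pend S` before
`T` (it would be a canonical piece); at time `T` the stack is empty, `S.fr = []`, `D S = S.a < w0`. -/
def S_EXI : Prop := ∀ (n : ℕ) (V G : Type) (R : SS (Fin n) V G) (w0 T s : ℕ)
  (τ : ℕ → Option (V × ℕ × V)) (x : Fin n → Bool), Tame R T → 1 ≤ w0 →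
  (∀ t v, (R.rd t v).card ≤ s) →
  (∀ u v e v', τ u = some (v, e, v') ↔ Cut R w0 T x u v e v') →
  AllOk R w0 (2 * (w0 + s)) τ T (R.conf x T).1 x

/-- UNI (uses `S_CAN`).  Only the canonical pieces are as they should be.
Proof.  `Agr w`: `∀ v e v', τ w = some (v, e, v') ↔ Cut w v e v'`.  Let `lo p = 0` for the root and
`lo p = p.t₁ + 1` otherwise.  Claim for a piece `p` (of `τ`, or the root) with
`can p.t₁ = ⟨p.v₁, F, p.t₁, 0⟩`, by induction on `p.t₂ - p.t₁` (the root last), inside by induction on
`k`: let `t + k = p.t₂`, `t' = max t sk ≤ p.t₂`, `can t' = ⟨S.v, S.fr ++ F, S.st, S.a⟩`, the last element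
of `pend S` be `p.t₁` if `p` is not the root, `Agr w` for all `lo p ≤ w < t'` which are not in
`pend S`, `τ w = none` for all `w ∈ pend S`, `lo p ≤ w < t'`; and let `go` for `k` steps from `t`, `S`
give `some S_f` with `S_f.fr = []`, `S_f.v = p.v₂`, (`w0 ≤ S_f.a` if `p` is not the root). Then `Agr w`
for all `lo p ≤ w < p.t₂`, `(can p.t₂).v = p.v₂`, and if `p` is not the root `rc (p.t₂ - 1) = some p.t₁`
(so `Cut p.t₁ p.v₁ p.t₂ p.v₂`, `Agr p.t₁`, and by (7) `can p.t₂ = ⟨p.v₂, F, p.t₂, 0⟩`).
Steps: (a) a jump over `(t, v1, e1, v1')`: `(can t).st = t`, amount `0` by (6); the claim for this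
piece gives `Agr w` for `t ≤ w < e1` and `can e1`. (b) a step of the machine, `raw` for `S` and `can t`
agree (`S.fr ++ F`); if `w0 ≤ S'.a` then by `cond` the piece ends with `S'.fr = []`, `S'.st = p.t₁`; if
not there is no record at `t`. A start `w` which disappears from `pend` (the level is popped) has
`τ w = none`, and no record at any time: not before, as it is pending, not later by (5), (7); so
`Agr w`. At the end of the root the start of the bottom level is pending at time `T`: no record.
`τ u = some (v, e, v')` implies `u < e` as `Ok` for `e ≤ u` would need `w0 ≤ 0`. -/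
def S_UNI : Prop := ∀ (n : ℕ) (V G : Type) (R : SS (Fin n) V G) (w0 T s b : ℕ) (q : V)
  (τ : ℕ → Option (V × ℕ × V)) (x : Fin n → Bool), Tame R T → 1 ≤ w0 →
  (∀ t v, (R.rd t v).card ≤ s) → (∀ u v e v', τ u = some (v, e, v') → e ≤ T) →
  AllOk R w0 b τ T q x →
  (∀ u v e v', τ u = some (v, e, v') ↔ Cut R w0 T x u v e v') ∧ (R.conf x T).1 = q

/-- TRW (uses `S_GOL`, `S_CAN`, `S_NUM`, `S_EXI`, `S_UNI`).  The pieces of the runs of a machine which
never pops the empty stack and ends with the empty stack.
Proof.  `ι` = the functions `Fin T → Option (V × Fin (T + 1) × V)` with at most `r - 1` values `≠ none`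
(at most `(T |V| (T + 1) |V| + 1) ^ (r - 1)`: a finset with at most `m` elements of a set with `N`
elements is the range of a map from `Fin m` to `Option`), read as `τ : ℕ → Option (V × ℕ × V)`.
Segment `0` is the root, segment `j + 1` the piece of the `j`-th start `u` with `τ u ≠ none` in increasing
order (`U = ∅`, `E = True` if there is none); `U` = the second component of `sim` with
`b = 2 * (w0 + s)`, `E` = `Ok`. `Seg` by GOL. All `E` hold iff `AllOk`. If the final state is `q` then
the canonical pieces are a member of `ι` (CAN (7), (8): `Cut` is a function of `u`; NUM: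
`number * w0 ≤ c q < r * w0`), EXI, and the only one by UNI. -/
def S_TRW : Prop := ∀ (n : ℕ) (V G : Type) [Fintype V] (R : SS (Fin n) V G) (c : V → ℕ)
  (s T r w0 : ℕ) (q : V), Tame R T → 1 ≤ r → 1 ≤ w0 → (∀ t v, (R.rd t v).card ≤ s) →
  c R.start = 0 →
  (∀ x, ∀ t < T, c (R.conf x (t + 1)).1 = c (R.conf x t).1 + (R.rd t (R.conf x t).1).card) →
  c q < r * w0 →
  ∃ (ι : Type) (_ : Fintype ι) (U : ι → Fin r → (Fin n → Bool) → Finset (Fin n))
    (E : ι → Fin r → (Fin n → Bool) → Prop),
    Fintype.card ι ≤ ((T + 1) * (Fintype.card V + 1)) ^ (2 * r) ∧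
    (∀ i, PPL.Seg (2 * (w0 + s)) (U i) (E i)) ∧
    ∀ x, ((R.conf x T).1 = q → ∃! i, ∀ j, E i j x) ∧ ((∃ i, ∀ j, E i j x) → (R.conf x T).1 = q)

/-- TRX (uses `S_TRW`).  The same for all machines.
Proof.  The machine with the states `V × Bool` (`true`: the stack is empty), the letters `G × Bool`
(`true`: this is the lowest letter) and time `2 * T`: for `t < T` it does the same (a pop of the empty
stack becomes `stay (h none, true)`), for `t ≥ T` it reads nothing and pops until the stack is empty
(the height at time `T` is at most `T`), without changing the state. It is tame, its state at time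
`2 T` is (the state of `R` at time `T`, `true`). Counter `c ∘ Prod.fst`, final state `(q, true)`. -/
def S_TRX : Prop := ∀ (n : ℕ) (V G : Type) [Fintype V] (R : SS (Fin n) V G) (c : V → ℕ)
  (s T r w0 : ℕ) (q : V), 1 ≤ r → 1 ≤ w0 → (∀ t v, (R.rd t v).card ≤ s) → c R.start = 0 →
  (∀ x, ∀ t < T, c (R.conf x (t + 1)).1 = c (R.conf x t).1 + (R.rd t (R.conf x t).1).card) →
  c q < r * w0 →
  ∃ (ι : Type) (_ : Fintype ι) (U : ι → Fin r → (Fin n → Bool) → Finset (Fin n))
    (E : ι → Fin r → (Fin n → Bool) → Prop),
    Fintype.card ι ≤ ((2 * T + 1) * (2 * Fintype.card V + 1)) ^ (2 * r) ∧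
    (∀ i, PPL.Seg (2 * (w0 + s)) (U i) (E i)) ∧
    ∀ x, ((R.conf x T).1 = q → ∃! i, ∀ j, E i j x) ∧ ((∃ i, ∀ j, E i j x) → (R.conf x T).1 = q)

end Pool.Agent.PPS
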