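import Pool.Agent.PPS.St1

/-!
# Project PPS: statements, part 2 (one point, many points, the lower bound, the class)
-/

set_option autoImplicit false

open Finset
open scoped Classical

namespace Pool.Agent.PPS

open Pool.Agent.PPL (sg Auto sgP fP Hard)
open Pool.Agent.TKN.ONE (size Bas Lay)

/-- PTS (uses `PPL.S_ONE`, `S_TRX`).  One point, one final state.
Proof.  Port of `PPL.t_PT` (file Pool/Agent/PPL/PT.lean). TRX with `r = 2 ^ 42 k ^ 4`,
`w0 = k n / (8 r) + 1` (natural division): `r w0 > k n / 8 ≥ c q`,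
`r * (2 * (w0 + s)) ≤ k n / 4 + 2 r + 2 r s ≤ k n` for large `A`. The sum over the `x` with final state
`q` is the sum over the traces `i` of the sums over `{x | ∀ j, E i j x}`: ONE.
`((2 T + 1) (2 |V| + 1)) ^ (2 r) ≤ (6 (T + 1) |V|) ^ (2 r)` (`1 ≤ |V|`), and `6 ^ (2 r)` is at most
`2 ^ (n / k ^ (A1 k) - n / k ^ (A k))` for large `A`. -/
def S_PTS : Prop := ∃ A : ℕ, ∀ k : ℕ, 2 ≤ k → ∀ n : ℕ, k ^ (A * k) ≤ n →
  ∀ (V G : Type) [Fintype V] (R : SS (Fin n) V G) (c : V → ℕ) (s T : ℕ) (q : V)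
    (f : (Fin n → Bool) → Bool), (∀ t v, (R.rd t v).card ≤ s) → c R.start = 0 →
  (∀ x, ∀ t < T, c (R.conf x (t + 1)).1 = c (R.conf x t).1 + (R.rd t (R.conf x t).1).card) →
  8 * c q ≤ k * n → (s : ℝ) ≤ (n : ℝ) / k ^ (A * k) → Auto f ((n : ℝ) / k ^ (A * k)) →
  |∑ x ∈ univ.filter (fun x : Fin n → Bool => (R.conf x T).1 = q), sg (f x)| ≤
    (((T + 1) * Fintype.card V : ℕ) : ℝ) ^ k ^ A * 2 ^ n * (2 : ℝ) ^ (-((n : ℝ) / k ^ (A * k)))

/-- MLS (uses `S_PTS`).  Many points: the parity of the values of `f` at the points `x l`; `K` bounds the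
number of the bits read on each input.
Proof.  Port of `PPL.t_MUL` (file Pool/Agent/PPL/MUL.lean). `V' = V × (Fin L → Fin (K + 1))` with
counters of the bits of each point read so far, saturated at `K` (along the computations there is no
saturation up to time `T`); the stack is unchanged. For a final state `q'` which occurs the sum of the
counters is at most `K`, so some `l` has `8 L c l ≤ 8 K ≤ k n L`. Fix the other points: the machine
for the point `l` reads `{j | (l, j) ∈ rd t v}`: PTS. -/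
def S_MLS : Prop := ∃ A : ℕ, ∀ k : ℕ, 2 ≤ k → ∀ n : ℕ, k ^ (A * k) ≤ n →
  ∀ (L : ℕ) (V G : Type) [Fintype V] (R : SS (Fin L × Fin n) V G) (s T K : ℕ)
    (f : (Fin n → Bool) → Bool) (g : V → ℝ), 1 ≤ L → (∀ t v, (R.rd t v).card ≤ s) →
  (∀ x, ∑ t ∈ range T, (R.rd t (R.conf x t).1).card ≤ K) → 8 * K ≤ k * (n * L) →
  (s : ℝ) ≤ (n : ℝ) / k ^ (A * k) → Auto f ((n : ℝ) / k ^ (A * k)) → (∀ v, |g v| ≤ 1) →
  |∑ x : Fin L × Fin n → Bool, g (R.conf x T).1 * ∏ l, sg (f fun j => x (l, j))| ≤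
    (((T + 1) * (K + 1) ^ L * Fintype.card V : ℕ) : ℝ) ^ (k ^ A + 1) * 2 ^ (L * n) *
      (2 : ℝ) ^ (-((n : ℝ) / k ^ (A * k)))

/-- The sets of inputs decided by deterministic machines with at most `2 ^ b` nodes (pairs of a time
`t ≤ T` and a state), one unlimited stack with any letters, which read at most `b` bits at once and at
most `τ` bits in all on each input. -/
def Mcs (I : Type) (τ b : ℝ) (P : (I → Bool) → Prop) : Prop :=
  ∃ (T : ℕ) (V G : Type) (_ : Fintype V) (R : SS I V G) (acc : V → Prop),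
    ((((T + 1) * Fintype.card V : ℕ) : ℝ) ≤ (2 : ℝ) ^ b) ∧
    (∀ t v, ((R.rd t v).card : ℝ) ≤ b) ∧
    (∀ x, ((∑ t ∈ range T, (R.rd t (R.conf x t).1).card : ℕ) : ℝ) ≤ τ) ∧
    ∀ x, P x ↔ acc (R.conf x T).1

/-- LWS (uses `S_MLS`, `PPL.S_GSD`, `TKN.ONE.S_SIZ`).  Exponentially small correlation on a set `H` of
inputs.
Proof.  Port of `PPL.t_LOW` (file Pool/Agent/PPL/LOW.lean): the same `H`; MLS for `K0 = 48 k` with `A1`:
`n = pt M e`, `L = cop e`, `e ≥ 2` minimal with `64 * K0 ^ (A1 K0) ≤ 4 ^ e`. A machine on `H` is a machine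
for the point bits (`rd t v` = the point bits in `R.rd t v`, the other bits are constants; `op` for the
input of `H`); the number of the bits read is at most `K = k N`, and
`8 k N ≤ 24 k M ≤ 48 k n L = K0 n L`. `g v = sgP (acc v)`,
`(T + 1) (K + 1) ^ L |V| ≤ 2 ^ (c N) (k N + 1) ^ L`. -/
def S_LWS : Prop := ∃ A : ℕ, ∀ k M : ℕ, 2 ≤ k → k ^ (A * k) ≤ M → ∀ (β : Bas M) (ly : Lay M),
  ∃ H : Finset (Fin (size M) → Bool), H.Nonempty ∧
    ∀ P : (Fin (size M) → Bool) → Prop,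
      Mcs (Fin (size M)) (k * size M) (1 / (k : ℝ) ^ (A * k) * size M) P →
      |∑ v ∈ H, sgP (P v) * sgP (fP β ly v = true)| ≤
        (2 : ℝ) ^ (-(1 / (k : ℝ) ^ (A * k) * size M)) * H.card

/-- MS1 (uses `S_LWS`, `PPL.S_AVG`, `TKN.ONE.S_SIZ`).  The main theorem for fixed `k`.
Proof.  Port of `PPL.t_MU1` (file Pool/Agent/PPL/MU.lean). -/
def S_MS1 : Prop := ∃ A : ℕ, ∀ k M : ℕ, 2 ≤ k → k ^ (A * k) ≤ M → ∀ (β : Bas M) (ly : Lay M)
  (N : ℕ) (c : ℝ), N = size M → c = 1 / (k : ℝ) ^ (A * k) →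
  Hard (Mcs (Fin (size M)) (k * N) (c * N)) (c * N) (fun v => fP β ly v = true)

/-- MS2 (uses `S_MS1`, `TKN.ONE.S_SIZ`).  The main theorem for time `o(N log N / log log N)`.
Proof.  Port of `PPL.t_MU2` (file Pool/Agent/PPL/MU.lean). -/
def S_MS2 : Prop := ∀ ε : ℝ, 0 < ε → ε < 1 → ∃ c : ℝ, 0 < c ∧ ∃ M0 : ℕ, ∀ M ≥ M0, ∀ (β : Bas M)
  (ly : Lay M) (N : ℕ) (b : ℝ), N = size M → b = (N : ℝ) ^ (1 - ε) →
  Hard (Mcs (Fin (size M)) (c * N * Real.log N / Real.log (Real.log N)) b) b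
    (fun v => fP β ly v = true)

/-- AUX.  (1) PP mode is a part of PSPACE mode (port of Pool/Agent/PPL/PSP.lean). (2) With `N + 1` coins
every function is in PP mode of small machines: from `PPL.t_ALLC` (file Pool/Agent/PPL/ALLC.lean): a
`GMachs 1 0 (Fin N) Bool` without guesses is an `SS` which never uses its stack (`G = Unit`), with
`T = N` steps, `rd t v = {query t v 0}`. -/
def S_AUX : Prop :=
  (∀ (I : Type) (τ b : ℝ) (W : ℕ) (L : (I → Bool) → Prop),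
    UM.InPP (Mcs I τ b) W L → UM.InPSPACE (Mcs I τ b) (W * (W + 3) / 2) L) ∧
  ∀ (N : ℕ) (b : ℝ) (L : (Fin N → Bool) → Prop), 0 < N → 1 ≤ b → 2 * ((N : ℝ) + 1) ≤ (2 : ℝ) ^ b →
    UM.InPP (Mcs (Fin N) N b) (N + 1) L

end Pool.Agent.PPS
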