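import Pool.Agent.PPS.St2

/-!
# Project PPS: statements, part 3 (the hard set of inputs is a subcube)
-/

set_option autoImplicit false

open Finset
open scoped Classical

namespace Pool.Agent.PPS

open Pool.Agent.PPL (sgP fP)
open Pool.Agent.TKN.ONE (size Bas Lay)

/-- The subcube of the inputs which agree with `w` outside of `D`. -/
noncomputable def cube {N : ℕ} (D : Finset (Fin N)) (w : Fin N → Bool) : Finset (Fin N → Bool) :=
  univ.filter fun v => ∀ i, i ∉ D → v i = w i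

/-- `L` is hard for the class `C`, with parameter `b`: there is a subcube with at least `N / 6` free
bits on which every member of `C` has correlation at most `2 ^ (-b)` with `L` (it agrees with `L` for a
fraction of at most `1/2 + 2 ^ (-b) / 2` of the inputs), and `L` is neither in PP mode with `W` coins
nor in randomised mode with gap `2 ^ (-W)` (any number of coins) over `C` for `W ≤ b`. -/
def HardC {N : ℕ} (C : ((Fin N → Bool) → Prop) → Prop) (b : ℝ) (L : (Fin N → Bool) → Prop) : Prop :=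
  (∃ (D : Finset (Fin N)) (w : Fin N → Bool), N ≤ 6 * D.card ∧ ∀ P, C P →
    |∑ v ∈ cube D w, sgP (P v) * sgP (L v)| ≤ (2 : ℝ) ^ (-b) * 2 ^ D.card) ∧
  ∀ W : ℕ, (W : ℝ) ≤ b → ¬ UM.InPP C W L ∧ ¬ UM.InGap C W L

/-- LWC (uses `S_MLS`, `PPL.S_GSD`, `TKN.ONE.S_SIZ`): as LWS, `H` is a subcube. -/
def S_LWC : Prop := ∃ A : ℕ, ∀ k M : ℕ, 2 ≤ k → k ^ (A * k) ≤ M → ∀ (β : Bas M) (ly : Lay M),
  ∃ (D : Finset (Fin (size M))) (w : Fin (size M) → Bool), size M ≤ 6 * D.card ∧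
    ∀ P : (Fin (size M) → Bool) → Prop,
      Mcs (Fin (size M)) (k * size M) (1 / (k : ℝ) ^ (A * k) * size M) P →
      |∑ v ∈ cube D w, sgP (P v) * sgP (fP β ly v = true)| ≤
        (2 : ℝ) ^ (-(1 / (k : ℝ) ^ (A * k) * size M)) * 2 ^ D.card

/-- MC1 (uses `S_LWC`, `PPL.S_AVG`, `TKN.ONE.S_SIZ`). -/
def S_MC1 : Prop := ∃ A : ℕ, ∀ k M : ℕ, 2 ≤ k → k ^ (A * k) ≤ M → ∀ (β : Bas M) (ly : Lay M)
  (N : ℕ) (c : ℝ), N = size M → c = 1 / (k : ℝ) ^ (A * k) →
  HardC (Mcs (Fin (size M)) (k * N) (c * N)) (c * N) (fun v => fP β ly v = true)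

/-- MC2 (uses `S_MC1`, `TKN.ONE.S_SIZ`). -/
def S_MC2 : Prop := ∀ ε : ℝ, 0 < ε → ε < 1 → ∃ c : ℝ, 0 < c ∧ ∃ M0 : ℕ, ∀ M ≥ M0, ∀ (β : Bas M)
  (ly : Lay M) (N : ℕ) (b : ℝ), N = size M → b = (N : ℝ) ^ (1 - ε) →
  HardC (Mcs (Fin (size M)) (c * N * Real.log N / Real.log (Real.log N)) b) b
    (fun v => fP β ly v = true)

end Pool.Agent.PPS
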